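import Pool.Agent.Helper90.BPP.MachDefs

namespace Pool.Agent.BPP

open Finset

theorem paths_pos (M : OTM) (X : Oracle) (t : ℕ) (c : M.Conf) (h : M.HaltsIn X t c) :
    1 ≤ M.paths X true t c + M.paths X false t c := by
  induction t generalizing c with
  | zero =>
    unfold OTM.HaltsIn at h
    unfold OTM.paths
    cases hi : M.instr c with
    | halt a => cases a <;> simp
    | step f r => rw [hi] at h; exact h.elim
    | query y n => rw [hi] at h; exact h.elim
  | succ t ih =>
    unfold OTM.HaltsIn at h
    unfold OTM.paths
    cases hi : M.instr c with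
    | halt a => cases a <;> simp
    | step f r =>
      rw [hi] at h
      simp only
      rw [← Finset.sum_add_distrib]
      refine (ih _ (h f (mem_insert_self f r))).trans ?_
      exact Finset.single_le_sum
        (f := fun m => M.paths X true t (c.apply m) + M.paths X false t (c.apply m))
        (fun _ _ => Nat.zero_le _) (mem_insert_self f r)
    | query y n =>
      rw [hi] at h
      exact ih _ h

theorem exists_branch (M : OTM) : ∃ B : ℕ, ∀ (X : Oracle) (t : ℕ) (c : M.Conf),
    M.paths X true t c + M.paths X false t c ≤ 2 ^ (B * t) := by
  classical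
  -- a bound for the number of moves
  let num : Fin (M.nq + 1) × Fin (M.ng + 3) → ℕ := fun p =>
    match M.prog p.1 p.2 with
    | .halt _ => 0
    | .step f r => (insert f r).card
    | .query _ _ => 0
  let B : ℕ := ∑ p, num p
  have hB : ∀ q a f r, M.prog q a = .step f r → (insert f r).card ≤ B := by
    intro q a f r h
    have h1 : num (q, a) = (insert f r).card := by
      simp only [num, h]
    rw [← h1]
    exact Finset.single_le_sum (f := num) (fun _ _ => Nat.zero_le _) (mem_univ _)
  refine ⟨B, fun X t c => ?_⟩
  induction t generalizing c with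
  | zero =>
    unfold OTM.paths
    cases hi : M.instr c with
    | halt a => cases a <;> simp
    | step f r => simp
    | query y n => simp
  | succ t ih =>
    unfold OTM.paths
    cases hi : M.instr c with
    | halt a =>
      have : 1 ≤ 2 ^ (B * (t + 1)) := Nat.one_le_two_pow
      cases a <;> simpa using this
    | step f r =>
      simp only
      rw [← Finset.sum_add_distrib]
      refine (Finset.sum_le_card_nsmul _ _ (2 ^ (B * t)) fun m _ => ih _).trans ?_
      rw [smul_eq_mul]
      have h1 : (insert f r).card ≤ 2 ^ B := (hB _ _ f r hi).trans Nat.lt_two_pow_self.le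
      calc (insert f r).card * 2 ^ (B * t) ≤ 2 ^ B * 2 ^ (B * t) := Nat.mul_le_mul_right _ h1
        _ = 2 ^ (B * (t + 1)) := by rw [← pow_add]; congr 1; ring
    | query y n =>
      refine (ih _).trans ?_
      exact Nat.pow_le_pow_right (by norm_num) (Nat.mul_le_mul_left _ (Nat.le_succ t))

end Pool.Agent.BPP
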