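import Pool.Agent.Helper90.BPP.CoreDefs

/-!
Module PR1: finite product expectation, and the elementary slice identities of the
levels.
-/

namespace Pool.Agent.BPP.Core

open Finset

variable {α : Type} [Fintype α] [DecidableEq α]

section
variable {L : Type} [Fintype L] {w : L → ℝ}

theorem PR1_weight_sum (hw : ∑ t, w t = 1) : ∑ ω : α → L, ∏ i, w (ω i) = 1 := by
  have h := Finset.prod_univ_sum (fun _ : α => (Finset.univ : Finset L)) (fun _ t => w t)
  rw [Fintype.piFinset_univ] at h
  rw [← h]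
  simp [hw]

theorem EE_const (hw : ∑ t, w t = 1) (c : ℝ) : EE (α := α) w (fun _ => c) = c := by
  unfold EE
  rw [← Finset.sum_mul, PR1_weight_sum hw, one_mul]

theorem EE_mono (hw : ∀ t, 0 ≤ w t) {g g' : (α → L) → ℝ} (h : ∀ ω, g ω ≤ g' ω) :
    EE w g ≤ EE w g' := by
  unfold EE
  exact Finset.sum_le_sum fun ω _ =>
    mul_le_mul_of_nonneg_left (h ω) (Finset.prod_nonneg fun i _ => hw _)

theorem EE_add (g g' : (α → L) → ℝ) : EE w (fun ω => g ω + g' ω) = EE w g + EE w g' := by
  unfold EE
  rw [← Finset.sum_add_distrib]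
  exact Finset.sum_congr rfl fun ω _ => by ring

theorem EE_sub (g g' : (α → L) → ℝ) : EE w (fun ω => g ω - g' ω) = EE w g - EE w g' := by
  unfold EE
  rw [← Finset.sum_sub_distrib]
  exact Finset.sum_congr rfl fun ω _ => by ring

theorem EE_mul (c : ℝ) (g : (α → L) → ℝ) : EE w (fun ω => c * g ω) = c * EE w g := by
  unfold EE
  rw [Finset.mul_sum]
  exact Finset.sum_congr rfl fun ω _ => by ring

theorem EE_sum {ι : Type} (s : Finset ι) (g : ι → (α → L) → ℝ) :
    EE w (fun ω => ∑ i ∈ s, g i ω) = ∑ i ∈ s, EE w (g i) := by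
  unfold EE
  rw [Finset.sum_comm]
  exact Finset.sum_congr rfl fun ω _ => by rw [Finset.mul_sum]

/-- Exchange a label with the label at coordinate `i`. -/
def PR1_swap (i : α) (p : L × (α → L)) : L × (α → L) := (p.2 i, Function.update p.2 i p.1)

omit [Fintype α] [Fintype L] in
theorem PR1_swap_invol (i : α) : Function.Involutive (PR1_swap (L := L) i) := by
  rintro ⟨t, ω⟩
  simp [PR1_swap]

omit [Fintype L] in
theorem PR1_weight_update (i : α) (t : L) (ω : α → L) :
    w (ω i) * ∏ j, w (Function.update ω i t j) = w t * ∏ j, w (ω j) := by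
  rw [← Finset.mul_prod_erase Finset.univ (fun j => w (Function.update ω i t j))
      (Finset.mem_univ i),
    ← Finset.mul_prod_erase Finset.univ (fun j => w (ω j)) (Finset.mem_univ i)]
  have h : ∏ j ∈ Finset.univ.erase i, w (Function.update ω i t j) =
      ∏ j ∈ Finset.univ.erase i, w (ω j) := by
    refine Finset.prod_congr rfl fun j hj => ?_
    rw [Function.update_of_ne (Finset.ne_of_mem_erase hj)]
  rw [h, Function.update_self]
  ring

theorem EE_update (hw : ∑ t, w t = 1) (i : α) (g : (α → L) → ℝ) :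
    EE w g = ∑ t, w t * EE w (fun ω => g (Function.update ω i t)) := by
  have h1 : ∑ t, w t * EE w (fun ω => g (Function.update ω i t)) =
      ∑ p : L × (α → L), w p.1 * ((∏ j, w (p.2 j)) * g (Function.update p.2 i p.1)) := by
    rw [Fintype.sum_prod_type]
    refine Finset.sum_congr rfl fun t _ => ?_
    unfold EE
    rw [Finset.mul_sum]
  have h2 : EE w g = ∑ p : L × (α → L), w p.1 * ((∏ j, w (p.2 j)) * g p.2) := by
    rw [Fintype.sum_prod_type]
    have : ∀ t : L, ∑ ω : α → L, w t * ((∏ j, w (ω j)) * g ω) = w t * EE w g := by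
      intro t
      unfold EE
      rw [Finset.mul_sum]
    rw [Finset.sum_congr rfl fun t _ => this t, ← Finset.sum_mul, hw, one_mul]
  rw [h1, h2, ← Equiv.sum_comp (PR1_swap_invol (L := L) i).toPerm]
  refine Finset.sum_congr rfl fun p _ => ?_
  change w (p.2 i) * ((∏ j, w (Function.update p.2 i p.1 j)) *
    g (Function.update p.2 i p.1)) = _
  rw [← mul_assoc, PR1_weight_update, mul_assoc]

end

/-- Standing assumptions on the levels. -/
structure Lev (m : ℕ) (q0 h : ℝ) : Prop where
  q0_pos : 0 < q0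
  h_pos : 0 < h
  le : q0 + m * h ≤ 1 / 2

theorem wt_nonneg {m : ℕ} {q0 h : ℝ} (H : Lev m q0 h) (t : Fin (m + 2)) :
    0 ≤ wt m q0 h t := by
  unfold wt
  split_ifs
  · exact H.q0_pos.le
  · exact H.h_pos.le
  · have := H.le
    linarith

theorem PR1_sum_wt (m : ℕ) (q0 h : ℝ) (F : ℕ → ℝ) :
    ∑ t : Fin (m + 2), wt m q0 h t * F t.val =
      q0 * F 0 + h * ∑ s ∈ range m, F (s + 1) + (1 - q0 - m * h) * F (m + 1) := by
  rw [Fin.sum_univ_succ, Fin.sum_univ_castSucc]
  have h0 : wt m q0 h 0 * F ((0 : Fin (m + 2)).val) = q0 * F 0 := by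
    simp [wt]
  have h1 : ∑ s : Fin m, wt m q0 h (s.castSucc.succ) * F (s.castSucc.succ).val =
      h * ∑ s ∈ range m, F (s + 1) := by
    rw [← Fin.sum_univ_eq_sum_range (fun s => F (s + 1)) m, Finset.mul_sum]
    refine Finset.sum_congr rfl fun s _ => ?_
    have hs : s.val + 1 ≤ m := s.isLt
    simp [wt, hs]
  have h2 : wt m q0 h (Fin.last m).succ * F ((Fin.last m).succ).val =
      (1 - q0 - m * h) * F (m + 1) := by
    simp [wt]
  rw [h0, h1, h2]
  ring

theorem wt_sum (m : ℕ) (q0 h : ℝ) : ∑ t, wt m q0 h t = 1 := by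
  have := PR1_sum_wt m q0 h (fun _ => 1)
  simp only [mul_one, Finset.sum_const, Finset.card_range, nsmul_eq_mul] at this
  rw [this]
  ring

theorem PR1_sum_le {m : ℕ} {q0 h : ℝ} {j : ℕ} (hj : j ≤ m) (a b : ℝ) :
    ∑ t : Fin (m + 2), wt m q0 h t * (if t.val ≤ j then a else b) =
      qq q0 h j * a + (1 - qq q0 h j) * b := by
  have key := PR1_sum_wt m q0 h (fun s => if s ≤ j then 1 else 0)
  have hsum : ∑ s ∈ range m, (if s + 1 ≤ j then (1 : ℝ) else 0) = j := by
    rw [Finset.sum_boole]
    have : (range m).filter (fun s => s + 1 ≤ j) = range j := by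
      ext s
      simp only [mem_filter, mem_range]
      omega
    rw [this, Finset.card_range]
  have hlast : (if m + 1 ≤ j then (1 : ℝ) else 0) = 0 := by
    rw [if_neg (by omega)]
  simp only [hsum, hlast, Nat.zero_le, if_true, mul_one, mul_zero, add_zero] at key
  have htot := wt_sum m q0 h
  have : ∑ t : Fin (m + 2), wt m q0 h t * (if t.val ≤ j then a else b) =
      (a - b) * ∑ t : Fin (m + 2), wt m q0 h t * (if t.val ≤ j then 1 else 0) +
        b * ∑ t, wt m q0 h t := by
    rw [Finset.mul_sum, Finset.mul_sum, ← Finset.sum_add_distrib]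
    refine Finset.sum_congr rfl fun t _ => ?_
    split_ifs <;> ring
  rw [this, key, htot]
  unfold qq
  ring

theorem PR1_lev_update_le {m j : ℕ} (i : α) {t : Fin (m + 2)} (ht : t.val ≤ j)
    (ω : α → Fin (m + 2)) : lev j (Function.update ω i t) = insert i (lev j ω) := by
  ext x
  simp only [lev, mem_filter, mem_univ, true_and, mem_insert]
  by_cases hx : x = i
  · subst hx
    simp [ht]
  · rw [Function.update_of_ne hx]
    simp [hx]

theorem PR1_lev_update_gt {m j : ℕ} (i : α) {t : Fin (m + 2)} (ht : ¬ t.val ≤ j)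
    (ω : α → Fin (m + 2)) : lev j (Function.update ω i t) = (lev j ω).erase i := by
  ext x
  simp only [lev, mem_filter, mem_univ, true_and, mem_erase]
  by_cases hx : x = i
  · subst hx
    simp [ht]
  · rw [Function.update_of_ne hx]
    simp [hx]

theorem lev_single {m : ℕ} {q0 h : ℝ} {j : ℕ} (hj : j ≤ m) (i : α) (g : Finset α → ℝ) :
    EE (wt m q0 h) (fun ω : α → Fin (m + 2) => g (lev j ω)) =
      qq q0 h j * EE (wt m q0 h) (fun ω : α → Fin (m + 2) => g (insert i (lev j ω))) +
      (1 - qq q0 h j) *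
        EE (wt m q0 h) (fun ω : α → Fin (m + 2) => g ((lev j ω).erase i)) := by
  rw [EE_update (wt_sum m q0 h) i, ← PR1_sum_le hj]
  refine Finset.sum_congr rfl fun t _ => ?_
  congr 1
  split_ifs with ht
  · congr 1
    funext ω
    rw [PR1_lev_update_le i ht]
  · congr 1
    funext ω
    rw [PR1_lev_update_gt i ht]

theorem PR1_zero {m : ℕ} {q0 h : ℝ} {g : (α → Fin (m + 2)) → ℝ} (hg : ∀ ω, g ω = 0) :
    EE (wt m q0 h) g = 0 := by
  unfold EE
  simp [hg]

theorem PR1_sum_eq {m : ℕ} {q0 h : ℝ} {j : ℕ} (hj : j + 1 ≤ m) (a : ℝ) :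
    ∑ t : Fin (m + 2), wt m q0 h t * (if t.val = j + 1 then a else 0) = h * a := by
  rw [Finset.sum_eq_single (⟨j + 1, by omega⟩ : Fin (m + 2))]
  · simp [wt, hj]
  · intro t _ ht
    rw [if_neg, mul_zero]
    intro h'
    exact ht (Fin.ext h')
  · intro h'
    exact absurd (mem_univ _) h'

/-- The slice `j + 1` is a `h / q_{j+1}` fraction of level `j + 1`. -/
theorem slice_up {m : ℕ} {q0 h : ℝ} {j : ℕ} (hj : j + 1 ≤ m) (i : α) (g : Finset α → ℝ) :
    qq q0 h (j + 1) * EE (wt m q0 h)
        (fun ω : α → Fin (m + 2) => if (ω i).val = j + 1 then g (lev (j + 1) ω) else 0) =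
      h * EE (wt m q0 h)
        (fun ω : α → Fin (m + 2) => if i ∈ lev (j + 1) ω then g (lev (j + 1) ω) else 0) := by
  have e1 : EE (wt m q0 h)
      (fun ω : α → Fin (m + 2) => if (ω i).val = j + 1 then g (lev (j + 1) ω) else 0) =
      h * EE (wt m q0 h) (fun ω : α → Fin (m + 2) => g (insert i (lev (j + 1) ω))) := by
    rw [EE_update (wt_sum m q0 h) i, ← PR1_sum_eq hj]
    refine Finset.sum_congr rfl fun t _ => ?_
    congr 1
    split_ifs with ht
    · congr 1
      funext ω
      rw [Function.update_self, if_pos ht, PR1_lev_update_le i ht.le]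
    · refine PR1_zero fun ω => ?_
      rw [Function.update_self, if_neg ht]
  have e2 : EE (wt m q0 h)
      (fun ω : α → Fin (m + 2) => if i ∈ lev (j + 1) ω then g (lev (j + 1) ω) else 0) =
      qq q0 h (j + 1) *
        EE (wt m q0 h) (fun ω : α → Fin (m + 2) => g (insert i (lev (j + 1) ω))) := by
    rw [lev_single hj i (fun s => if i ∈ s then g s else 0)]
    have h1 : EE (wt m q0 h) (fun ω : α → Fin (m + 2) =>
        (fun s => if i ∈ s then g s else 0) (insert i (lev (j + 1) ω))) =
        EE (wt m q0 h) (fun ω : α → Fin (m + 2) => g (insert i (lev (j + 1) ω))) := by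
      congr 1
      funext ω
      simp
    have h2 : EE (wt m q0 h) (fun ω : α → Fin (m + 2) =>
        (fun s => if i ∈ s then g s else 0) ((lev (j + 1) ω).erase i)) = 0 := by
      exact PR1_zero fun ω => by simp
    rw [h1, h2]
    ring
  rw [e1, e2]
  ring

theorem slice_down {m : ℕ} {q0 h : ℝ} {j : ℕ} (hj : j + 1 ≤ m) (i : α)
    (g : Finset α → ℝ) :
    (1 - qq q0 h j) * EE (wt m q0 h)
        (fun ω : α → Fin (m + 2) => if (ω i).val = j + 1 then g (lev j ω) else 0) =
      h * EE (wt m q0 h)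
        (fun ω : α → Fin (m + 2) => if i ∉ lev j ω then g (lev j ω) else 0) := by
  have e1 : EE (wt m q0 h)
      (fun ω : α → Fin (m + 2) => if (ω i).val = j + 1 then g (lev j ω) else 0) =
      h * EE (wt m q0 h) (fun ω : α → Fin (m + 2) => g ((lev j ω).erase i)) := by
    rw [EE_update (wt_sum m q0 h) i, ← PR1_sum_eq hj]
    refine Finset.sum_congr rfl fun t _ => ?_
    congr 1
    split_ifs with ht
    · congr 1
      funext ω
      rw [Function.update_self, if_pos ht, PR1_lev_update_gt i (by omega)]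
    · refine PR1_zero fun ω => ?_
      rw [Function.update_self, if_neg ht]
  have e2 : EE (wt m q0 h)
      (fun ω : α → Fin (m + 2) => if i ∉ lev j ω then g (lev j ω) else 0) =
      (1 - qq q0 h j) *
        EE (wt m q0 h) (fun ω : α → Fin (m + 2) => g ((lev j ω).erase i)) := by
    rw [lev_single (by omega : j ≤ m) i (fun s => if i ∉ s then g s else 0)]
    have h1 : EE (wt m q0 h) (fun ω : α → Fin (m + 2) =>
        (fun s => if i ∉ s then g s else 0) ((lev j ω).erase i)) =
        EE (wt m q0 h) (fun ω : α → Fin (m + 2) => g ((lev j ω).erase i)) := by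
      congr 1
      funext ω
      simp
    have h2 : EE (wt m q0 h) (fun ω : α → Fin (m + 2) =>
        (fun s => if i ∉ s then g s else 0) (insert i (lev j ω))) = 0 := by
      exact PR1_zero fun ω => by simp
    rw [h1, h2]
    ring
  rw [e1, e2]
  ring

end Pool.Agent.BPP.Core
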