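import Pool.Agent.Helper90.BPP.P1
import Pool.Agent.Helper90.BPP.PR1

namespace Pool.Agent.BPP.Core

open Finset

variable {α : Type} [Fintype α] [DecidableEq α]

omit [Fintype α] in
theorem log_nonneg' {σ : Sys α} {k : ℕ} {K : ℝ} (hσ : σ.Good k K) (x : Finset α) :
    0 ≤ Real.log (σ.S x) := Real.log_nonneg (hσ.one x)

theorem Lam_nonneg {σ : Sys α} {k : ℕ} {K : ℝ} (hσ : σ.Good k K) {m : ℕ} {q0 h : ℝ}
    (H : Lev m q0 h) (j : ℕ) (ρ : Finset α) : 0 ≤ Lam σ m q0 h j ρ := by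
  rw [← EE_const (α := α) (wt_sum m q0 h) 0]
  exact EE_mono (wt_nonneg H) fun ω => log_nonneg' hσ _

theorem Lam_le {σ : Sys α} {k : ℕ} {K : ℝ} (hσ : σ.Good k K) {m : ℕ} {q0 h : ℝ}
    (H : Lev m q0 h) (j : ℕ) (ρ : Finset α) : Lam σ m q0 h j ρ ≤ K := by
  rw [← EE_const (α := α) (wt_sum m q0 h) K]
  exact EE_mono (wt_nonneg H) fun ω => hσ.log_le _

theorem exists_rho {σ : Sys α} {k : ℕ} {K : ℝ} (hσ : σ.Good k K) {m : ℕ} {q0 h : ℝ}
    (H : Lev m q0 h) {c : ℝ} (hc : 0 < c) :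
    ∃ ρ : Finset α, (ρ.card : ℝ) * c ≤ (m + 1) * K ∧
      ∀ A : Finset α, ∑ j ∈ range (m + 1), (Lam σ m q0 h j (ρ ∪ A) - Lam σ m q0 h j ρ) ≤
        c * A.card := by
  obtain ⟨ρ, hρ⟩ := Finite.exists_max fun ρ : Finset α =>
    ∑ j ∈ range (m + 1), Lam σ m q0 h j ρ - c * ρ.card
  refine ⟨ρ, ?_, fun A => ?_⟩
  · have h1 := hρ ∅
    simp only [card_empty, Nat.cast_zero, mul_zero, sub_zero] at h1
    have h2 : 0 ≤ ∑ j ∈ range (m + 1), Lam σ m q0 h j ∅ :=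
      Finset.sum_nonneg fun j _ => Lam_nonneg hσ H j ∅
    have h3 : ∑ j ∈ range (m + 1), Lam σ m q0 h j ρ ≤ (m + 1) * K := by
      refine (Finset.sum_le_card_nsmul _ _ K fun j _ => Lam_le hσ H j ρ).trans ?_
      rw [card_range, nsmul_eq_mul]
      push_cast
      exact le_rfl
    linarith
  · have h1 := hρ (ρ ∪ A)
    have h2 : ((ρ ∪ A).card : ℝ) ≤ ρ.card + A.card := by
      exact_mod_cast card_union_le ρ A
    rw [Finset.sum_sub_distrib]
    have h3 := mul_le_mul_of_nonneg_left h2 hc.le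
    linarith

theorem flip_nonneg {σ : Sys α} {m : ℕ} {q0 h : ℝ}
    (H : Lev m q0 h) (j : ℕ) (ρ A : Finset α) : 0 ≤ flip σ m q0 h j ρ A := by
  rw [← EE_const (α := α) (wt_sum m q0 h) 0]
  refine EE_mono (wt_nonneg H) fun ω => ?_
  split_ifs <;> norm_num

omit [Fintype α] in
theorem neg_nonneg' (σ : Sys α) (x : Finset α) (i : α) : 0 ≤ σ.neg x i := Nat.cast_nonneg _

theorem nb_nonneg {σ : Sys α} {k : ℕ} {K : ℝ} (hσ : σ.Good k K) {m : ℕ} {q0 h : ℝ}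
    (H : Lev m q0 h) (j : ℕ) (ρ : Finset α) (i : α) : 0 ≤ nb σ m q0 h j ρ i := by
  rw [← EE_const (α := α) (wt_sum m q0 h) 0]
  refine EE_mono (wt_nonneg H) fun ω => ?_
  exact div_nonneg (neg_nonneg' _ _ _) (zero_le_one.trans (hσ.one _))

theorem sum_nb_le {σ : Sys α} {k : ℕ} {K : ℝ} (hσ : σ.Good k K) {m : ℕ} {q0 h : ℝ}
    (H : Lev m q0 h) (j : ℕ) (ρ : Finset α) : ∑ i, nb σ m q0 h j ρ i ≤ k := by
  unfold nb
  rw [← EE_sum]
  rw [← EE_const (α := α) (wt_sum m q0 h) (k : ℝ)]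
  refine EE_mono (wt_nonneg H) fun ω => ?_
  rw [← Finset.sum_div, div_le_iff₀ (zero_lt_one.trans_le (hσ.one _))]
  exact sum_neg_le hσ _

theorem avg_star {σ : Sys α} {k : ℕ} {K : ℝ} (hσ : σ.Good k K) {m : ℕ} {q0 h : ℝ}
    (H : Lev m q0 h) (j : ℕ) (ρ A : Finset α) :
    (9 / 10 : ℝ) * flip σ m q0 h j ρ A - (11 + 10 * K) * ∑ i ∈ A, nb σ m q0 h j ρ i ≤
      Lam σ m q0 h j (ρ ∪ A) - Lam σ m q0 h j ρ := by
  unfold flip nb Lam
  rw [← EE_sum, ← EE_mul, ← EE_mul, ← EE_sub, ← EE_sub]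
  refine EE_mono (wt_nonneg H) fun ω => ?_
  rw [← union_assoc]
  exact star hσ (lev j ω ∪ ρ) A

theorem exists_bad {σ : Sys α} {k : ℕ} {K : ℝ} (hσ : σ.Good k K) {m : ℕ} {q0 h : ℝ}
    (H : Lev m q0 h) {c η : ℝ} (hc : 0 < c) (hη : 0 < η) :
    ∃ ρ Bad : Finset α, (ρ.card : ℝ) * c ≤ (m + 1) * K ∧
      (Bad.card : ℝ) * η ≤ (m + 1) * k ∧
      ∀ A : Finset α, A.card ≤ k → Disjoint A Bad → ∀ j ≤ m,
        (9 / 10 : ℝ) * flip σ m q0 h j ρ A ≤
          c * k + (m + 1) * ((11 + 10 * K) * (k * η)) := by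
  obtain ⟨ρ, h1, h2⟩ := exists_rho hσ H hc
  have hK : 0 ≤ K := (log_nonneg' hσ ∅).trans (hσ.log_le ∅)
  classical
  let Bad : Finset α := univ.filter fun i => ∃ j ≤ m, η < nb σ m q0 h j ρ i
  refine ⟨ρ, Bad, h1, ?_, fun A hA hd j hj => ?_⟩
  · have h3 : ∀ i ∈ Bad, η ≤ ∑ j ∈ range (m + 1), nb σ m q0 h j ρ i := by
      intro i hi
      obtain ⟨j, hj, hj'⟩ := (mem_filter.1 hi).2
      refine hj'.le.trans ?_
      exact Finset.single_le_sum (f := fun j => nb σ m q0 h j ρ i)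
        (fun j _ => nb_nonneg hσ H j ρ i) (mem_range.2 (by omega))
    calc (Bad.card : ℝ) * η = ∑ _i ∈ Bad, η := by rw [sum_const, nsmul_eq_mul]
      _ ≤ ∑ i ∈ Bad, ∑ j ∈ range (m + 1), nb σ m q0 h j ρ i := Finset.sum_le_sum h3
      _ ≤ ∑ i, ∑ j ∈ range (m + 1), nb σ m q0 h j ρ i :=
          Finset.sum_le_sum_of_subset_of_nonneg (subset_univ _) fun i _ _ =>
            Finset.sum_nonneg fun j _ => nb_nonneg hσ H j ρ i
      _ = ∑ j ∈ range (m + 1), ∑ i, nb σ m q0 h j ρ i := Finset.sum_comm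
      _ ≤ (m + 1) * k := by
          refine (Finset.sum_le_card_nsmul _ _ (k : ℝ) fun j _ => sum_nb_le hσ H j ρ).trans ?_
          rw [card_range, nsmul_eq_mul]
          push_cast
          exact le_rfl
  · have h3 : ∀ j' ∈ range (m + 1), (9 / 10 : ℝ) * flip σ m q0 h j' ρ A ≤
        (Lam σ m q0 h j' (ρ ∪ A) - Lam σ m q0 h j' ρ) + (11 + 10 * K) * (k * η) := by
      intro j' hj'
      have h4 := avg_star hσ H j' ρ A
      have h5 : ∑ i ∈ A, nb σ m q0 h j' ρ i ≤ k * η := by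
        refine (Finset.sum_le_card_nsmul _ _ η fun i hi => ?_).trans ?_
        · by_contra hlt
          rw [not_le] at hlt
          exact (Finset.disjoint_left.1 hd) hi
            (mem_filter.2 ⟨mem_univ _, j', by have := mem_range.1 hj'; omega, hlt⟩)
        · rw [nsmul_eq_mul]
          exact mul_le_mul_of_nonneg_right (by exact_mod_cast hA) hη.le
      have h6 : (11 + 10 * K) * ∑ i ∈ A, nb σ m q0 h j' ρ i ≤ (11 + 10 * K) * (k * η) :=
        mul_le_mul_of_nonneg_left h5 (by linarith)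
      linarith
    have h4 : (9 / 10 : ℝ) * flip σ m q0 h j ρ A ≤
        ∑ j' ∈ range (m + 1), (9 / 10 : ℝ) * flip σ m q0 h j' ρ A :=
      Finset.single_le_sum (f := fun j' => (9 / 10 : ℝ) * flip σ m q0 h j' ρ A)
        (fun j' _ => mul_nonneg (by norm_num) (flip_nonneg H j' ρ A)) (mem_range.2 (by omega))
    refine h4.trans ((Finset.sum_le_sum h3).trans ?_)
    rw [Finset.sum_add_distrib, sum_const, card_range, nsmul_eq_mul]
    have h5 := h2 A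
    have h6 : c * (A.card : ℝ) ≤ c * k :=
      mul_le_mul_of_nonneg_left (by exact_mod_cast hA) hc.le
    push_cast
    linarith

end Pool.Agent.BPP.Core
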