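import Pool.Agent.Helper90.BPP.P1
import Pool.Agent.Helper90.BPP.PR1

/-!
Module C2: slow variation of the acceptance probability between consecutive levels.
-/

namespace Pool.Agent.BPP.Core

open Finset

variable {α : Type} [Fintype α] [DecidableEq α]

theorem c2_pos_nonneg (σ : Sys α) (x : Finset α) (i : α) : 0 ≤ σ.pos x i := by
  unfold Sys.pos
  positivity

theorem c2_neg_nonneg (σ : Sys α) (x : Finset α) (i : α) : 0 ≤ σ.neg x i := by
  unfold Sys.neg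
  positivity

theorem c2_sum_le {m j : ℕ} (ω : α → Fin (m + 2)) (ρ : Finset α) (f : α → ℝ)
    (hf : ∀ i, 0 ≤ f i) :
    ∑ i ∈ (lev (j + 1) ω ∪ ρ) \ (lev j ω ∪ ρ), f i ≤
      ∑ i, if (ω i).val = j + 1 then f i else 0 := by
  rw [← sum_filter]
  refine sum_le_sum_of_subset_of_nonneg ?_ fun i _ _ => hf i
  intro i hi
  rw [mem_sdiff, mem_union, mem_union] at hi
  obtain ⟨h1, h2⟩ := hi
  push Not at h2
  rw [mem_filter]
  refine ⟨mem_univ i, ?_⟩
  have h3 : i ∈ lev (j + 1) ω := h1.resolve_right h2.2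
  have h4 := h2.1
  simp only [lev, mem_filter, mem_univ, true_and] at h3 h4
  omega

theorem c2_up {σ : Sys α} {k : ℕ} {K : ℝ} (hσ : σ.Good k K) {m : ℕ} {q0 h : ℝ}
    (H : Lev m q0 h) {j : ℕ} (hj : j + 1 ≤ m) (ρ : Finset α) :
    ∑ i, EE (wt m q0 h) (fun ω : α → Fin (m + 2) => if (ω i).val = j + 1 then
      σ.pos (lev (j + 1) ω ∪ ρ) i / σ.S (lev (j + 1) ω ∪ ρ) else 0) ≤ k * (h / q0) := by
  have hS : ∀ x, 0 < σ.S x := fun x => lt_of_lt_of_le one_pos (hσ.one x)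
  set U : α → ℝ := fun i => EE (wt m q0 h) (fun ω : α → Fin (m + 2) => if (ω i).val = j + 1 then
      σ.pos (lev (j + 1) ω ∪ ρ) i / σ.S (lev (j + 1) ω ∪ ρ) else 0) with hU
  have hUnn : ∀ i, 0 ≤ U i := by
    intro i
    have h1 := EE_mono (α := α) (wt_nonneg H) (g := fun _ => (0 : ℝ))
      (g' := fun ω : α → Fin (m + 2) => if (ω i).val = j + 1 then
      σ.pos (lev (j + 1) ω ∪ ρ) i / σ.S (lev (j + 1) ω ∪ ρ) else 0) (fun ω => by
        split_ifs
        · exact div_nonneg (c2_pos_nonneg σ _ i) (hS _).le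
        · exact le_rfl)
    rwa [EE_const (wt_sum m q0 h)] at h1
  have hqU : ∀ i, qq q0 h (j + 1) * U i ≤ h * EE (wt m q0 h) (fun ω : α → Fin (m + 2) =>
      σ.pos (lev (j + 1) ω ∪ ρ) i / σ.S (lev (j + 1) ω ∪ ρ)) := by
    intro i
    have h1 := slice_up (q0 := q0) (h := h) hj i (fun x => σ.pos (x ∪ ρ) i / σ.S (x ∪ ρ))
    simp only [hU]
    rw [h1]
    refine mul_le_mul_of_nonneg_left ?_ H.h_pos.le
    refine EE_mono (wt_nonneg H) fun ω => ?_
    split_ifs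
    · exact le_rfl
    · exact div_nonneg (c2_pos_nonneg σ _ i) (hS _).le
  have hq : q0 ≤ qq q0 h (j + 1) := by
    unfold qq
    have : 0 ≤ ((j + 1 : ℕ) : ℝ) * h := mul_nonneg (Nat.cast_nonneg _) H.h_pos.le
    linarith
  have hsum : qq q0 h (j + 1) * ∑ i, U i ≤ h * k := by
    rw [mul_sum]
    refine (sum_le_sum fun i _ => hqU i).trans ?_
    rw [← mul_sum, ← EE_sum]
    refine mul_le_mul_of_nonneg_left ?_ H.h_pos.le
    have h2 := EE_mono (wt_nonneg H) (g := fun ω : α → Fin (m + 2) =>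
      ∑ i, σ.pos (lev (j + 1) ω ∪ ρ) i / σ.S (lev (j + 1) ω ∪ ρ)) (g' := fun _ => (k : ℝ))
      (fun ω => by
        rw [← sum_div, div_le_iff₀ (hS _)]
        exact sum_pos_le hσ _)
    rwa [EE_const (wt_sum m q0 h)] at h2
  have hU0 : 0 ≤ ∑ i, U i := sum_nonneg fun i _ => hUnn i
  have h3 : q0 * ∑ i, U i ≤ h * k := (mul_le_mul_of_nonneg_right hq hU0).trans hsum
  rw [← mul_div_assoc, le_div_iff₀ H.q0_pos]
  linarith

theorem c2_down {σ : Sys α} {k : ℕ} {K : ℝ} (hσ : σ.Good k K) {m : ℕ} {q0 h : ℝ}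
    (H : Lev m q0 h) {j : ℕ} (hj : j + 1 ≤ m) (ρ : Finset α) :
    ∑ i, EE (wt m q0 h) (fun ω : α → Fin (m + 2) => if (ω i).val = j + 1 then
      σ.neg (lev j ω ∪ ρ) i / σ.S (lev j ω ∪ ρ) else 0) ≤ k * (2 * h) := by
  have hS : ∀ x, 0 < σ.S x := fun x => lt_of_lt_of_le one_pos (hσ.one x)
  set U : α → ℝ := fun i => EE (wt m q0 h) (fun ω : α → Fin (m + 2) => if (ω i).val = j + 1 then
      σ.neg (lev j ω ∪ ρ) i / σ.S (lev j ω ∪ ρ) else 0) with hU
  have hUnn : ∀ i, 0 ≤ U i := by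
    intro i
    have h1 := EE_mono (α := α) (wt_nonneg H) (g := fun _ => (0 : ℝ))
      (g' := fun ω : α → Fin (m + 2) => if (ω i).val = j + 1 then
      σ.neg (lev j ω ∪ ρ) i / σ.S (lev j ω ∪ ρ) else 0) (fun ω => by
        split_ifs
        · exact div_nonneg (c2_neg_nonneg σ _ i) (hS _).le
        · exact le_rfl)
    rwa [EE_const (wt_sum m q0 h)] at h1
  have hqU : ∀ i, (1 - qq q0 h j) * U i ≤ h * EE (wt m q0 h) (fun ω : α → Fin (m + 2) =>
      σ.neg (lev j ω ∪ ρ) i / σ.S (lev j ω ∪ ρ)) := by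
    intro i
    have h1 := slice_down (q0 := q0) (h := h) hj i (fun x => σ.neg (x ∪ ρ) i / σ.S (x ∪ ρ))
    simp only [hU]
    rw [h1]
    refine mul_le_mul_of_nonneg_left ?_ H.h_pos.le
    refine EE_mono (wt_nonneg H) fun ω => ?_
    by_cases hc : i ∈ lev j ω
    · rw [if_neg (not_not.2 hc)]
      exact div_nonneg (c2_neg_nonneg σ _ i) (hS _).le
    · rw [if_pos hc]
  have hq : 1 / 2 ≤ 1 - qq q0 h j := by
    unfold qq
    have h1 : (j : ℝ) * h ≤ m * h :=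
      mul_le_mul_of_nonneg_right (by exact_mod_cast (by omega : j ≤ m)) H.h_pos.le
    linarith [H.le]
  have hsum : (1 - qq q0 h j) * ∑ i, U i ≤ h * k := by
    rw [mul_sum]
    refine (sum_le_sum fun i _ => hqU i).trans ?_
    rw [← mul_sum, ← EE_sum]
    refine mul_le_mul_of_nonneg_left ?_ H.h_pos.le
    have h2 := EE_mono (wt_nonneg H) (g := fun ω : α → Fin (m + 2) =>
      ∑ i, σ.neg (lev j ω ∪ ρ) i / σ.S (lev j ω ∪ ρ)) (g' := fun _ => (k : ℝ))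
      (fun ω => by
        rw [← sum_div, div_le_iff₀ (hS _)]
        exact sum_neg_le hσ _)
    rwa [EE_const (wt_sum m q0 h)] at h2
  have hU0 : 0 ≤ ∑ i, U i := sum_nonneg fun i _ => hUnn i
  have h3 : 1 / 2 * ∑ i, U i ≤ h * k := (mul_le_mul_of_nonneg_right hq hU0).trans hsum
  linarith

theorem slow {σ : Sys α} {k : ℕ} {K : ℝ} (hσ : σ.Good k K) {m : ℕ} {q0 h : ℝ}
    (H : Lev m q0 h) {j : ℕ} (hj : j + 1 ≤ m) (ρ : Finset α) :
    |ff σ m q0 h (j + 1) ρ - ff σ m q0 h j ρ| ≤ 10 * (k * (h / q0)) + 10 * (k * (2 * h)) := by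
  have hS : ∀ x, 0 < σ.S x := fun x => lt_of_lt_of_le one_pos (hσ.one x)
  set Bd : (α → Fin (m + 2)) → ℝ := fun ω =>
    10 * (∑ i, if (ω i).val = j + 1 then
      σ.pos (lev (j + 1) ω ∪ ρ) i / σ.S (lev (j + 1) ω ∪ ρ) else 0) +
    10 * (∑ i, if (ω i).val = j + 1 then σ.neg (lev j ω ∪ ρ) i / σ.S (lev j ω ∪ ρ) else 0)
    with hBd
  have hBdEE : EE (wt m q0 h) Bd ≤ 10 * (k * (h / q0)) + 10 * (k * (2 * h)) := by
    simp only [hBd]
    rw [EE_add, EE_mul, EE_mul, EE_sum, EE_sum]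
    have h1 := c2_up hσ H hj ρ
    have h2 := c2_down hσ H hj ρ
    linarith
  have hpt : ∀ ω : α → Fin (m + 2),
      |(if σ.F (lev (j + 1) ω ∪ ρ) then (1 : ℝ) else 0) -
        (if σ.F (lev j ω ∪ ρ) then 1 else 0)| ≤ Bd ω := by
    intro ω
    have hsub : lev j ω ∪ ρ ⊆ lev (j + 1) ω ∪ ρ := by
      refine union_subset_union ?_ (Subset.refl _)
      intro i hi
      simp only [lev, mem_filter, mem_univ, true_and] at hi ⊢
      omega
    have h1 := noflip hσ hsub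
    have h2 := c2_sum_le (j := j) ω ρ
      (fun i => σ.pos (lev (j + 1) ω ∪ ρ) i / σ.S (lev (j + 1) ω ∪ ρ))
      (fun i => div_nonneg (c2_pos_nonneg σ _ i) (hS _).le)
    have h3 := c2_sum_le (j := j) ω ρ
      (fun i => σ.neg (lev j ω ∪ ρ) i / σ.S (lev j ω ∪ ρ))
      (fun i => div_nonneg (c2_neg_nonneg σ _ i) (hS _).le)
    have h4 : |(if σ.F (lev (j + 1) ω ∪ ρ) then (1 : ℝ) else 0) -
        (if σ.F (lev j ω ∪ ρ) then 1 else 0)| ≤
        (if (σ.F (lev j ω ∪ ρ) ↔ σ.F (lev (j + 1) ω ∪ ρ)) then (0 : ℝ) else 1) := by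
      by_cases c1 : σ.F (lev (j + 1) ω ∪ ρ) <;> by_cases c2 : σ.F (lev j ω ∪ ρ) <;>
        simp [c1, c2]
    simp only [hBd]
    linarith
  have hup : ff σ m q0 h (j + 1) ρ - ff σ m q0 h j ρ ≤ EE (wt m q0 h) Bd := by
    unfold ff
    rw [← EE_sub]
    exact EE_mono (wt_nonneg H) fun ω => (abs_le.1 (hpt ω)).2
  have hdown : -EE (wt m q0 h) Bd ≤ ff σ m q0 h (j + 1) ρ - ff σ m q0 h j ρ := by
    unfold ff
    rw [← EE_sub]
    have h1 : -EE (wt m q0 h) Bd = EE (wt m q0 h) (fun ω => (-1) * Bd ω) := by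
      rw [EE_mul]
      ring
    rw [h1]
    refine EE_mono (wt_nonneg H) fun ω => ?_
    have := (abs_le.1 (hpt ω)).1
    linarith
  rw [abs_le]
  constructor
  · linarith
  · linarith

end Pool.Agent.BPP.Core
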