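import Pool.Agent.Helper90.BPP.PR2

/-!
Module C3: contradiction at a balanced level.
-/

namespace Pool.Agent.BPP.Core

open Finset

variable {α : Type} [Fintype α] [DecidableEq α]

theorem c3_cnt_cons (T : CT α) (l : List (CT α)) (x : Finset α) :
    (cnt (T :: l) x : ℝ) = (if sat x T then 1 else 0) + (cnt l x : ℝ) := by
  unfold cnt
  rw [List.countP_cons]
  push_cast
  ring

theorem c3_single {k : ℕ} {m : ℕ} {q0 h : ℝ} (H : Lev m q0 h) {j : ℕ} (hj : j ≤ m)
    {ρ Bad : Finset α} (hBad : ((Bad.card : ℝ) + k) * qq q0 h j ≤ 1 / 100)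
    (P : Finset α → Prop) [DecidablePred P]
    (hP : ∀ A : Finset α, A.card ≤ k → Disjoint A Bad →
      37 / 100 ≤ EE (wt m q0 h) (fun ω : α → Fin (m + 2) =>
        if P ((lev j ω ∪ ρ) ∪ A) then (1 : ℝ) else 0))
    (T : CT α) (hT1 : T.1.card ≤ k) (hT2 : T.2.card ≤ k) :
    (36 / 100 : ℝ) * EE (wt m q0 h) (fun ω : α → Fin (m + 2) =>
        (if Disjoint Bad (lev j ω) then (1 : ℝ) else 0) *
          (if sat (lev j ω ∪ ρ) T then 1 else 0)) ≤
      EE (wt m q0 h) (fun ω : α → Fin (m + 2) =>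
        (if Disjoint Bad (lev j ω) then (1 : ℝ) else 0) *
          ((if P (lev j ω ∪ ρ) then 1 else 0) * (if sat (lev j ω ∪ ρ) T then 1 else 0))) := by
  have hq0 : 0 ≤ qq q0 h j := by
    unfold qq
    have := H.q0_pos
    have := H.h_pos
    positivity
  have hq1 : 0 ≤ 1 - qq q0 h j := by
    unfold qq
    have h1 : (j : ℝ) * h ≤ m * h :=
      mul_le_mul_of_nonneg_right (by exact_mod_cast hj) H.h_pos.le
    linarith [H.le]
  by_cases hρ : Disjoint T.2 ρ
  · -- the conjunction is not killed by `ρ`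
    have e1 : ∀ x : Finset α, (if Disjoint Bad x then (1 : ℝ) else 0) *
        (if sat (x ∪ ρ) T then 1 else 0) =
        if T.1 \ ρ ⊆ x ∧ Disjoint (T.2 ∪ Bad) x then 1 else 0 := by
      intro x
      have hiff : (Disjoint Bad x ∧ sat (x ∪ ρ) T = true) ↔
          (T.1 \ ρ ⊆ x ∧ Disjoint (T.2 ∪ Bad) x) := by
        unfold sat
        rw [decide_eq_true_iff, disjoint_union_left, disjoint_union_right]
        have hs : T.1 ⊆ x ∪ ρ ↔ T.1 \ ρ ⊆ x := by
          constructor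
          · intro h1 a ha
            rw [mem_sdiff] at ha
            rcases mem_union.1 (h1 ha.1) with h2 | h2
            · exact h2
            · exact absurd h2 ha.2
          · intro h1 a ha
            by_cases haρ : a ∈ ρ
            · exact mem_union_right _ haρ
            · exact mem_union_left _ (h1 (mem_sdiff.2 ⟨ha, haρ⟩))
        rw [hs]
        tauto
      by_cases c1 : Disjoint Bad x <;> by_cases c2 : sat (x ∪ ρ) T = true
      · rw [if_pos c1, if_pos c2, if_pos (hiff.1 ⟨c1, c2⟩), one_mul]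
      · rw [if_neg c2, if_neg (fun hh => c2 (hiff.2 hh).2), mul_zero]
      · rw [if_neg c1, if_neg (fun hh => c1 (hiff.2 hh).1), zero_mul]
      · rw [if_neg c1, if_neg (fun hh => c1 (hiff.2 hh).1), zero_mul]
    have e2 : ∀ x : Finset α, (if Disjoint Bad x then (1 : ℝ) else 0) *
        ((if P (x ∪ ρ) then 1 else 0) * (if sat (x ∪ ρ) T then 1 else 0)) =
        if T.1 \ ρ ⊆ x ∧ Disjoint (T.2 ∪ Bad) x then (if P (x ∪ ρ) then 1 else 0) else 0 := by
      intro x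
      have h3 : (if Disjoint Bad x then (1 : ℝ) else 0) *
        ((if P (x ∪ ρ) then 1 else 0) * (if sat (x ∪ ρ) T then 1 else 0)) =
        (if P (x ∪ ρ) then 1 else 0) * ((if Disjoint Bad x then (1 : ℝ) else 0) *
        (if sat (x ∪ ρ) T then 1 else 0)) := by ring
      rw [h3, e1]
      split_ifs <;> norm_num
    simp only [e1, e2]
    by_cases hAB : Disjoint (T.1 \ ρ) (T.2 ∪ Bad)
    · have h1 := lev_cond (q0 := q0) (h := h) hj hAB (fun _ => 1)
      have h2 := lev_cond (q0 := q0) (h := h) hj hAB (fun x => if P (x ∪ ρ) then 1 else 0)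
      rw [EE_const (wt_sum m q0 h), mul_one] at h1
      rw [h1, h2]
      set π : ℝ := qq q0 h j ^ (T.1 \ ρ).card * (1 - qq q0 h j) ^ (T.2 ∪ Bad).card with hπ
      have hπ0 : 0 ≤ π := by positivity
      have hA1 : (T.1 \ ρ).card ≤ k := (card_le_card sdiff_subset).trans hT1
      have hA2 : Disjoint (T.1 \ ρ) Bad := (disjoint_union_right.1 hAB).2
      have h3 := hP _ hA1 hA2
      have h4 := hit_small H hj (T.2 ∪ Bad)
      have h5 : ((T.2 ∪ Bad).card : ℝ) * qq q0 h j ≤ 1 / 100 := by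
        refine le_trans (mul_le_mul_of_nonneg_right ?_ hq0) hBad
        have : (T.2 ∪ Bad).card ≤ Bad.card + k := (card_union_le _ _).trans (by omega)
        exact_mod_cast this
      have h6 : EE (wt m q0 h) (fun ω : α → Fin (m + 2) =>
            if P ((lev j ω ∪ ρ) ∪ (T.1 \ ρ)) then (1 : ℝ) else 0) -
          EE (wt m q0 h) (fun ω : α → Fin (m + 2) =>
            if Disjoint (T.2 ∪ Bad) (lev j ω) then 0 else 1) ≤
          EE (wt m q0 h) (fun ω : α → Fin (m + 2) =>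
            if P (((lev j ω ∪ (T.1 \ ρ)) \ (T.2 ∪ Bad)) ∪ ρ) then (1 : ℝ) else 0) := by
        rw [← EE_sub]
        refine EE_mono (wt_nonneg H) fun ω => ?_
        by_cases hd : Disjoint (T.2 ∪ Bad) (lev j ω)
        · have hset : (lev j ω ∪ (T.1 \ ρ)) \ (T.2 ∪ Bad) = lev j ω ∪ (T.1 \ ρ) := by
            rw [Finset.sdiff_eq_self_iff_disjoint, disjoint_union_left]
            exact ⟨hd.symm, hAB⟩
          have hset2 : (lev j ω ∪ (T.1 \ ρ)) ∪ ρ = (lev j ω ∪ ρ) ∪ (T.1 \ ρ) := by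
            rw [union_assoc, union_assoc, union_comm (T.1 \ ρ) ρ]
          rw [hset, hset2, if_pos hd, sub_zero]
        · rw [if_neg hd]
          have a1 : (if P ((lev j ω ∪ ρ) ∪ (T.1 \ ρ)) then (1 : ℝ) else 0) ≤ 1 := by
            split_ifs <;> norm_num
          have a2 : (0 : ℝ) ≤
            if P (((lev j ω ∪ (T.1 \ ρ)) \ (T.2 ∪ Bad)) ∪ ρ) then (1 : ℝ) else 0 := by
            split_ifs <;> norm_num
          linarith
      have h7 : (36 / 100 : ℝ) ≤ EE (wt m q0 h) (fun ω : α → Fin (m + 2) =>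
            if P (((lev j ω ∪ (T.1 \ ρ)) \ (T.2 ∪ Bad)) ∪ ρ) then (1 : ℝ) else 0) := by
        linarith
      nlinarith [mul_le_mul_of_nonneg_left h7 hπ0]
    · have e3 : ∀ x : Finset α, ¬ (T.1 \ ρ ⊆ x ∧ Disjoint (T.2 ∪ Bad) x) := by
        rintro x ⟨h1, h2⟩
        exact hAB ((h2.mono_right h1).symm)
      simp only [e3, if_false]
      rw [EE_const (wt_sum m q0 h)]
      norm_num
  · have e3 : ∀ x : Finset α, (if sat (x ∪ ρ) T then (1 : ℝ) else 0) = 0 := by
      intro x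
      rw [if_neg]
      unfold sat
      rw [decide_eq_true_iff, disjoint_union_right]
      tauto
    simp only [e3, mul_zero]
    rw [EE_const (wt_sum m q0 h)]
    norm_num

theorem c3_list {k : ℕ} {m : ℕ} {q0 h : ℝ} (H : Lev m q0 h) {j : ℕ} (hj : j ≤ m)
    {ρ Bad : Finset α} (hBad : ((Bad.card : ℝ) + k) * qq q0 h j ≤ 1 / 100)
    (P : Finset α → Prop) [DecidablePred P]
    (hP : ∀ A : Finset α, A.card ≤ k → Disjoint A Bad →
      37 / 100 ≤ EE (wt m q0 h) (fun ω : α → Fin (m + 2) =>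
        if P ((lev j ω ∪ ρ) ∪ A) then (1 : ℝ) else 0))
    (l : List (CT α)) (hl : ∀ T ∈ l, T.1.card ≤ k ∧ T.2.card ≤ k) :
    (36 / 100 : ℝ) * EE (wt m q0 h) (fun ω : α → Fin (m + 2) =>
        (if Disjoint Bad (lev j ω) then (1 : ℝ) else 0) * (cnt l (lev j ω ∪ ρ) : ℝ)) ≤
      EE (wt m q0 h) (fun ω : α → Fin (m + 2) =>
        (if Disjoint Bad (lev j ω) then (1 : ℝ) else 0) *
          ((if P (lev j ω ∪ ρ) then 1 else 0) * (cnt l (lev j ω ∪ ρ) : ℝ))) := by
  induction l with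
  | nil =>
    have e0 : ∀ x : Finset α, (cnt ([] : List (CT α)) x : ℝ) = 0 := by
      intro x
      simp [cnt]
    simp only [e0, mul_zero]
    rw [EE_const (wt_sum m q0 h)]
    norm_num
  | cons T l ih =>
    have ih' := ih (fun T' hT' => hl T' (List.mem_cons_of_mem _ hT'))
    obtain ⟨hT1, hT2⟩ := hl T List.mem_cons_self
    have hs := c3_single H hj hBad P hP T hT1 hT2
    simp only [c3_cnt_cons, mul_add]
    rw [EE_add, EE_add]
    linarith

theorem c3_flip {σ : Sys α} {m : ℕ} {q0 h : ℝ} (H : Lev m q0 h) {j : ℕ} (ρ A : Finset α) :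
    ff σ m q0 h j ρ - flip σ m q0 h j ρ A ≤ EE (wt m q0 h) (fun ω : α → Fin (m + 2) =>
        if σ.F ((lev j ω ∪ ρ) ∪ A) then (1 : ℝ) else 0) ∧
    (1 - ff σ m q0 h j ρ) - flip σ m q0 h j ρ A ≤ EE (wt m q0 h) (fun ω : α → Fin (m + 2) =>
        if ¬ σ.F ((lev j ω ∪ ρ) ∪ A) then (1 : ℝ) else 0) := by
  constructor
  · unfold ff flip
    rw [← EE_sub]
    refine EE_mono (wt_nonneg H) fun ω => ?_
    by_cases c1 : σ.F (lev j ω ∪ ρ) <;> by_cases c2 : σ.F ((lev j ω ∪ ρ) ∪ A) <;>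
      simp [c1, c2, -Finset.union_assoc]
  · have e : (1 : ℝ) = EE (wt m q0 h) (fun _ : α → Fin (m + 2) => 1) :=
      (EE_const (wt_sum m q0 h) 1).symm
    unfold ff flip
    rw [e, ← EE_sub, ← EE_sub]
    refine EE_mono (wt_nonneg H) fun ω => ?_
    rw [← e]
    by_cases c1 : σ.F (lev j ω ∪ ρ) <;> by_cases c2 : σ.F ((lev j ω ∪ ρ) ∪ A) <;>
      simp [c1, c2, -Finset.union_assoc]

theorem no_balanced {σ : Sys α} {k : ℕ} {K : ℝ} (hσ : σ.Good k K) {m : ℕ} {q0 h : ℝ}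
    (H : Lev m q0 h) {j : ℕ} (hj : j ≤ m) {ρ Bad : Finset α}
    (hBad : ((Bad.card : ℝ) + k) * qq q0 h j ≤ 1 / 100)
    (hflip : ∀ A : Finset α, A.card ≤ k → Disjoint A Bad → flip σ m q0 h j ρ A ≤ 3 / 100)
    (h1 : 2 / 5 ≤ ff σ m q0 h j ρ) (h2 : ff σ m q0 h j ρ ≤ 3 / 5) : False := by
  have hq0 : 0 ≤ qq q0 h j := by
    unfold qq
    have := H.q0_pos
    have := H.h_pos
    positivity
  have hPP := c3_list (ρ := ρ) H hj hBad (fun x => ¬ σ.F x) (fun A hA1 hA2 => by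
    have a1 := (c3_flip (σ := σ) (j := j) H ρ A).2
    have a2 := hflip A hA1 hA2
    linarith) σ.PP (fun T hT => hσ.width T (List.mem_append_left _ hT))
  have hQQ := c3_list (ρ := ρ) H hj hBad (fun x => σ.F x) (fun A hA1 hA2 => by
    have a1 := (c3_flip (σ := σ) (j := j) H ρ A).1
    have a2 := hflip A hA1 hA2
    linarith) σ.QQ (fun T hT => hσ.width T (List.mem_append_right _ hT))
  set E1 := EE (wt m q0 h) (fun ω : α → Fin (m + 2) =>
        (if Disjoint Bad (lev j ω) then (1 : ℝ) else 0) * (cnt σ.PP (lev j ω ∪ ρ) : ℝ)) with hE1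
  set E2 := EE (wt m q0 h) (fun ω : α → Fin (m + 2) =>
        (if Disjoint Bad (lev j ω) then (1 : ℝ) else 0) * (cnt σ.QQ (lev j ω ∪ ρ) : ℝ)) with hE2
  have hsum : E1 + E2 = EE (wt m q0 h) (fun ω : α → Fin (m + 2) =>
        (if Disjoint Bad (lev j ω) then (1 : ℝ) else 0) * σ.S (lev j ω ∪ ρ)) := by
    rw [hE1, hE2, ← EE_add]
    congr 1
    funext ω
    unfold Sys.S
    ring
  have hupper : EE (wt m q0 h) (fun ω : α → Fin (m + 2) =>
        (if Disjoint Bad (lev j ω) then (1 : ℝ) else 0) *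
          ((if ¬ σ.F (lev j ω ∪ ρ) then 1 else 0) * (cnt σ.PP (lev j ω ∪ ρ) : ℝ))) +
      EE (wt m q0 h) (fun ω : α → Fin (m + 2) =>
        (if Disjoint Bad (lev j ω) then (1 : ℝ) else 0) *
          ((if σ.F (lev j ω ∪ ρ) then 1 else 0) * (cnt σ.QQ (lev j ω ∪ ρ) : ℝ))) ≤
      (1 / 4 : ℝ) * (E1 + E2) := by
    rw [hsum, ← EE_add, ← EE_mul]
    refine EE_mono (wt_nonneg H) fun ω => ?_
    have hgap := hσ.gap (lev j ω ∪ ρ)
    have hc1 : (0 : ℝ) ≤ (cnt σ.PP (lev j ω ∪ ρ) : ℝ) := by positivity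
    have hc2 : (0 : ℝ) ≤ (cnt σ.QQ (lev j ω ∪ ρ) : ℝ) := by positivity
    have hu : (0 : ℝ) ≤ (if Disjoint Bad (lev j ω) then (1 : ℝ) else 0) := by
      split_ifs <;> norm_num
    have hmain : (if ¬ σ.F (lev j ω ∪ ρ) then (1 : ℝ) else 0) * (cnt σ.PP (lev j ω ∪ ρ) : ℝ) +
        (if σ.F (lev j ω ∪ ρ) then 1 else 0) * (cnt σ.QQ (lev j ω ∪ ρ) : ℝ) ≤
        1 / 4 * σ.S (lev j ω ∪ ρ) := by
      unfold Sys.S
      by_cases hF : σ.F (lev j ω ∪ ρ)
      · have hF' : 3 * cnt σ.QQ (lev j ω ∪ ρ) < cnt σ.PP (lev j ω ∪ ρ) := hF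
        have hF'' : 3 * (cnt σ.QQ (lev j ω ∪ ρ) : ℝ) < (cnt σ.PP (lev j ω ∪ ρ) : ℝ) := by
          exact_mod_cast hF'
        rw [if_pos hF, if_neg (not_not.2 hF)]
        linarith
      · have hF' : 3 * cnt σ.PP (lev j ω ∪ ρ) < cnt σ.QQ (lev j ω ∪ ρ) := hgap.resolve_left hF
        have hF'' : 3 * (cnt σ.PP (lev j ω ∪ ρ) : ℝ) < (cnt σ.QQ (lev j ω ∪ ρ) : ℝ) := by
          exact_mod_cast hF'
        rw [if_neg hF, if_pos hF]
        linarith
    have := mul_le_mul_of_nonneg_left hmain hu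
    linarith
  have hbig : (99 / 100 : ℝ) ≤ E1 + E2 := by
    rw [hsum]
    have h3 := hit_small H hj Bad
    have h4 : (Bad.card : ℝ) * qq q0 h j ≤ 1 / 100 := by
      refine le_trans (mul_le_mul_of_nonneg_right ?_ hq0) hBad
      have : (0 : ℝ) ≤ k := by positivity
      linarith
    have h5 : 1 - EE (wt m q0 h) (fun ω : α → Fin (m + 2) =>
        if Disjoint Bad (lev j ω) then (0 : ℝ) else 1) ≤
        EE (wt m q0 h) (fun ω : α → Fin (m + 2) =>
        (if Disjoint Bad (lev j ω) then (1 : ℝ) else 0) * σ.S (lev j ω ∪ ρ)) := by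
      have e : (1 : ℝ) = EE (wt m q0 h) (fun _ : α → Fin (m + 2) => 1) :=
        (EE_const (wt_sum m q0 h) 1).symm
      nth_rewrite 1 [e]
      rw [← EE_sub]
      refine EE_mono (wt_nonneg H) fun ω => ?_
      have := hσ.one (lev j ω ∪ ρ)
      split_ifs <;> linarith
    linarith
  linarith

end Pool.Agent.BPP.Core
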