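import Pool.Agent.Helper90.BPP.CoreDefs

/-!
Module P1: pointwise inequalities for conical juntas.
-/

namespace Pool.Agent.BPP.Core

open Finset

variable {α : Type} [Fintype α] [DecidableEq α]

/-! ### lists of conjunctions -/

theorem p1_sum_count (x : Finset α) (f : CT α → Finset α) (k : ℕ) (l : List (CT α))
    (hl : ∀ T ∈ l, (f T).card ≤ k) :
    ∑ i, l.countP (fun T => sat x T && decide (i ∈ f T)) ≤ k * l.countP (fun T => sat x T) := by
  induction l with
  | nil => simp
  | cons T l ih =>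
    have ih' := ih fun T' hT' => hl T' (List.mem_cons_of_mem _ hT')
    have hT := hl T List.mem_cons_self
    simp only [List.countP_cons, sum_add_distrib]
    rw [mul_add]
    refine Nat.add_le_add ih' ?_
    by_cases hs : sat x T = true
    · simp only [hs, Bool.true_and, decide_eq_true_eq, if_true, mul_one]
      rw [← card_filter]
      simpa using hT
    · simp only [Bool.not_eq_true] at hs
      simp [hs]

theorem p1_loss (z z' : Finset α) (h : z ⊆ z') (l : List (CT α)) :
    l.countP (fun T => sat z T) ≤ l.countP (fun T => sat z' T) +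
      ∑ i ∈ z' \ z, l.countP (fun T => sat z T && decide (i ∈ T.2)) := by
  induction l with
  | nil => simp
  | cons T l ih =>
    simp only [List.countP_cons, sum_add_distrib]
    have key : (if sat z T = true then 1 else 0) ≤ (if sat z' T = true then 1 else 0) +
        ∑ i ∈ z' \ z, (if (sat z T && decide (i ∈ T.2)) = true then 1 else 0) := by
      by_cases hs : sat z T = true
      · by_cases hs' : sat z' T = true
        · rw [if_pos hs, if_pos hs']; omega
        · have h1 : T.1 ⊆ z ∧ Disjoint T.2 z := by simpa [sat] using hs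
          have h2 : ¬ (T.1 ⊆ z' ∧ Disjoint T.2 z') := by simpa [sat] using hs'
          have h3 : ¬ Disjoint T.2 z' := fun hd => h2 ⟨h1.1.trans h, hd⟩
          rw [Finset.not_disjoint_iff] at h3
          obtain ⟨i, hi, hi'⟩ := h3
          have hiz : i ∉ z := fun hz => Finset.disjoint_left.1 h1.2 hi hz
          have h4 : i ∈ z' \ z := mem_sdiff.2 ⟨hi', hiz⟩
          have h5 := single_le_sum (f := fun i => if (sat z T && decide (i ∈ T.2)) = true then 1
            else 0) (fun _ _ => Nat.zero_le _) h4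
          simp only [hs, hi, decide_true, Bool.and_self, if_true] at h5 ⊢
          omega
      · simp [hs]
    omega

theorem p1_gain (z z' : Finset α) (h : z ⊆ z') (l : List (CT α)) :
    l.countP (fun T => sat z' T) ≤ l.countP (fun T => sat z T) +
      ∑ i ∈ z' \ z, l.countP (fun T => sat z' T && decide (i ∈ T.1)) := by
  induction l with
  | nil => simp
  | cons T l ih =>
    simp only [List.countP_cons, sum_add_distrib]
    have key : (if sat z' T = true then 1 else 0) ≤ (if sat z T = true then 1 else 0) +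
        ∑ i ∈ z' \ z, (if (sat z' T && decide (i ∈ T.1)) = true then 1 else 0) := by
      by_cases hs : sat z' T = true
      · by_cases hs' : sat z T = true
        · rw [if_pos hs, if_pos hs']; omega
        · have h1 : T.1 ⊆ z' ∧ Disjoint T.2 z' := by simpa [sat] using hs
          have h2 : ¬ (T.1 ⊆ z ∧ Disjoint T.2 z) := by simpa [sat] using hs'
          have h3 : ¬ T.1 ⊆ z := fun hd => h2 ⟨hd, h1.2.mono_right h⟩
          rw [Finset.not_subset] at h3
          obtain ⟨i, hi, hi'⟩ := h3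
          have h4 : i ∈ z' \ z := mem_sdiff.2 ⟨h1.1 hi, hi'⟩
          have h5 := single_le_sum (f := fun i => if (sat z' T && decide (i ∈ T.1)) = true then 1
            else 0) (fun _ _ => Nat.zero_le _) h4
          simp only [hs, hi, decide_true, Bool.and_self, if_true] at h5 ⊢
          omega
      · simp [hs]
    omega

/-! ### the statements -/

theorem sum_neg_le {σ : Sys α} {k : ℕ} {K : ℝ} (hσ : σ.Good k K) (x : Finset α) :
    ∑ i, σ.neg x i ≤ k * σ.S x := by
  have h := p1_sum_count x (fun T => T.2) k (σ.PP ++ σ.QQ) (fun T hT => (hσ.width T hT).2)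
  have h2 : ((σ.PP ++ σ.QQ).countP (fun T => sat x T) : ℝ) = σ.S x := by
    rw [List.countP_append]
    unfold Sys.S cnt
    push_cast
    rfl
  unfold Sys.neg
  rw [← h2]
  exact_mod_cast h

theorem sum_pos_le {σ : Sys α} {k : ℕ} {K : ℝ} (hσ : σ.Good k K) (x : Finset α) :
    ∑ i, σ.pos x i ≤ k * σ.S x := by
  have h := p1_sum_count x (fun T => T.1) k (σ.PP ++ σ.QQ) (fun T hT => (hσ.width T hT).1)
  have h2 : ((σ.PP ++ σ.QQ).countP (fun T => sat x T) : ℝ) = σ.S x := by
    rw [List.countP_append]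
    unfold Sys.S cnt
    push_cast
    rfl
  unfold Sys.pos
  rw [← h2]
  exact_mod_cast h

omit [Fintype α] in
theorem p1_neg_nonneg (σ : Sys α) (x : Finset α) (i : α) : 0 ≤ σ.neg x i := Nat.cast_nonneg _

omit [Fintype α] in
theorem p1_pos_nonneg (σ : Sys α) (x : Finset α) (i : α) : 0 ≤ σ.pos x i := Nat.cast_nonneg _

/-- real form of the loss estimates -/
theorem p1_loss_real (σ : Sys α) {z z' : Finset α} (h : z ⊆ z') :
    ∃ D₁ D₂ : ℝ, 0 ≤ D₁ ∧ 0 ≤ D₂ ∧ D₁ + D₂ = ∑ i ∈ z' \ z, σ.neg z i ∧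
      (cnt σ.PP z : ℝ) ≤ cnt σ.PP z' + D₁ ∧ (cnt σ.QQ z : ℝ) ≤ cnt σ.QQ z' + D₂ := by
  refine ⟨((∑ i ∈ z' \ z, σ.PP.countP (fun T => sat z T && decide (i ∈ T.2)) : ℕ) : ℝ),
    ((∑ i ∈ z' \ z, σ.QQ.countP (fun T => sat z T && decide (i ∈ T.2)) : ℕ) : ℝ),
    Nat.cast_nonneg _, Nat.cast_nonneg _, ?_, ?_, ?_⟩
  · unfold Sys.neg
    push_cast
    rw [← sum_add_distrib]
    refine sum_congr rfl fun i _ => ?_
    rw [List.countP_append]
    push_cast
    rfl
  · have := p1_loss z z' h σ.PP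
    unfold cnt
    exact_mod_cast this
  · have := p1_loss z z' h σ.QQ
    unfold cnt
    exact_mod_cast this

theorem p1_gain_real (σ : Sys α) {z z' : Finset α} (h : z ⊆ z') :
    ∃ D₁ D₂ : ℝ, 0 ≤ D₁ ∧ 0 ≤ D₂ ∧ D₁ + D₂ = ∑ i ∈ z' \ z, σ.pos z' i ∧
      (cnt σ.PP z' : ℝ) ≤ cnt σ.PP z + D₁ ∧ (cnt σ.QQ z' : ℝ) ≤ cnt σ.QQ z + D₂ := by
  refine ⟨((∑ i ∈ z' \ z, σ.PP.countP (fun T => sat z' T && decide (i ∈ T.1)) : ℕ) : ℝ),
    ((∑ i ∈ z' \ z, σ.QQ.countP (fun T => sat z' T && decide (i ∈ T.1)) : ℕ) : ℝ),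
    Nat.cast_nonneg _, Nat.cast_nonneg _, ?_, ?_, ?_⟩
  · unfold Sys.pos
    push_cast
    rw [← sum_add_distrib]
    refine sum_congr rfl fun i _ => ?_
    rw [List.countP_append]
    push_cast
    rfl
  · have := p1_gain z z' h σ.PP
    unfold cnt
    exact_mod_cast this
  · have := p1_gain z z' h σ.QQ
    unfold cnt
    exact_mod_cast this

omit [Fintype α] in
/-- real form of the promise -/
theorem p1_yes {σ : Sys α} {x : Finset α} (h : σ.F x) :
    3 * (cnt σ.QQ x : ℝ) ≤ cnt σ.PP x := by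
  have h1 : 3 * cnt σ.QQ x < cnt σ.PP x := h
  exact_mod_cast h1.le

omit [Fintype α] in
theorem p1_no {σ : Sys α} {k : ℕ} {K : ℝ} (hσ : σ.Good k K) {x : Finset α} (h : ¬ σ.F x) :
    3 * (cnt σ.PP x : ℝ) ≤ cnt σ.QQ x := by
  rcases hσ.gap x with h1 | h1
  · exact absurd h1 h
  · exact_mod_cast h1.le

theorem p1_log : (9 / 10 : ℝ) ≤ Real.log (26 / 10) := by
  rw [Real.le_log_iff_exp_le (by norm_num)]
  have h1 : Real.exp 1 < 2.7182818286 := Real.exp_one_lt_d9
  have h2 : (1 / 10 : ℝ) + 1 ≤ Real.exp (1 / 10) := Real.add_one_le_exp _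
  have h3 : Real.exp 1 = Real.exp (9 / 10) * Real.exp (1 / 10) := by
    rw [← Real.exp_add]; norm_num
  have h4 : 0 < Real.exp (9 / 10) := Real.exp_pos _
  nlinarith

theorem star {σ : Sys α} {k : ℕ} {K : ℝ} (hσ : σ.Good k K) (z A : Finset α) :
    (9 / 10 : ℝ) * (if (σ.F z ↔ σ.F (z ∪ A)) then 0 else 1) -
      (11 + 10 * K) * ∑ i ∈ A, σ.neg z i / σ.S z ≤
    Real.log (σ.S (z ∪ A)) - Real.log (σ.S z) := by
  obtain ⟨D₁, D₂, hD₁, hD₂, hD, hP, hQ⟩ := p1_loss_real σ (z := z) (z' := z ∪ A) subset_union_left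
  have hs := hσ.one z
  have hs' := hσ.one (z ∪ A)
  have hlog := hσ.log_le z
  have hlog0 : 0 ≤ Real.log (σ.S z) := Real.log_nonneg hs
  have hlog0' : 0 ≤ Real.log (σ.S (z ∪ A)) := Real.log_nonneg hs'
  have hK : 0 ≤ K := hlog0.trans hlog
  have hsum : ∑ i ∈ (z ∪ A) \ z, σ.neg z i ≤ ∑ i ∈ A, σ.neg z i := by
    refine sum_le_sum_of_subset_of_nonneg ?_ fun i _ _ => p1_neg_nonneg σ z i
    rw [union_sdiff_left]
    exact sdiff_subset
  have hdiv : ∑ i ∈ A, σ.neg z i / σ.S z = (∑ i ∈ A, σ.neg z i) / σ.S z := by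
    rw [sum_div]
  rw [hdiv]
  set D : ℝ := ∑ i ∈ A, σ.neg z i with hDdef
  have hDnn : 0 ≤ D := sum_nonneg fun i _ => p1_neg_nonneg σ z i
  have hDD : D₁ + D₂ ≤ D := hD.trans_le hsum
  have hSz : σ.S z = (cnt σ.PP z : ℝ) + (cnt σ.QQ z : ℝ) := rfl
  have hSz' : σ.S (z ∪ A) = (cnt σ.PP (z ∪ A) : ℝ) + (cnt σ.QQ (z ∪ A) : ℝ) := rfl
  set s := σ.S z with hsdef
  set s' := σ.S (z ∪ A) with hsdef'
  have hspos : 0 < s := lt_of_lt_of_le one_pos hs
  have hspos' : 0 < s' := lt_of_lt_of_le one_pos hs'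
  have hite : (if (σ.F z ↔ σ.F (z ∪ A)) then (0 : ℝ) else 1) ≤ 1 := by
    split_ifs <;> norm_num
  rcases le_or_gt (10 * D) s with hcase | hcase
  · have hx : D / s ≤ 1 / 10 := by
      rw [div_le_div_iff₀ hspos (by norm_num)]
      linarith
    have hx0 : 0 ≤ D / s := div_nonneg hDnn hspos.le
    by_cases hF : σ.F z ↔ σ.F (z ∪ A)
    · rw [if_pos hF, mul_zero, zero_sub, ← Real.log_div hspos'.ne' hspos.ne']
      have h1 : 1 - D / s ≤ s' / s := by
        rw [sub_le_iff_le_add, ← add_div, le_div_iff₀ hspos]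
        linarith
      have h2 : Real.log (1 - D / s) ≤ Real.log (s' / s) :=
        Real.log_le_log (by linarith) h1
      have h3 := Real.one_sub_inv_le_log_of_pos (show 0 < 1 - D / s by linarith)
      have h4 : (1 - D / s)⁻¹ ≤ 1 + 2 * (D / s) := by
        rw [inv_le_comm₀ (by linarith) (by linarith), inv_eq_one_div,
          div_le_iff₀ (by linarith)]
        nlinarith
      have h5 : 2 * (D / s) ≤ (11 + 10 * K) * (D / s) :=
        mul_le_mul_of_nonneg_right (by linarith) hx0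
      linarith
    · rw [if_neg hF, mul_one]
      have hbig : 26 / 10 * s ≤ s' := by
        by_cases hFz : σ.F z
        · have hFz' : ¬ σ.F (z ∪ A) := fun h => hF ⟨fun _ => h, fun _ => hFz⟩
          have e1 := p1_yes hFz
          have e2 := p1_no hσ hFz'
          linarith
        · have hFz' : σ.F (z ∪ A) := by
            by_contra h
            exact hF ⟨fun h' => absurd h' hFz, fun h' => absurd h' h⟩
          have e1 := p1_no hσ hFz
          have e2 := p1_yes hFz'
          linarith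
      have h1 : Real.log (26 / 10) + Real.log s ≤ Real.log s' := by
        rw [← Real.log_mul (by norm_num) hspos.ne']
        exact Real.log_le_log (by positivity) hbig
      have h2 := p1_log
      have h3 : 0 ≤ (11 + 10 * K) * (D / s) := mul_nonneg (by linarith) hx0
      linarith
  · have hx : 1 / 10 ≤ D / s := by
      rw [div_le_div_iff₀ (by norm_num) hspos]
      linarith
    have h1 : (11 + 10 * K) * (1 / 10) ≤ (11 + 10 * K) * (D / s) :=
      mul_le_mul_of_nonneg_left hx (by linarith)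
    linarith

theorem noflip {σ : Sys α} {k : ℕ} {K : ℝ} (hσ : σ.Good k K) {z z' : Finset α}
    (h : z ⊆ z') :
    (if (σ.F z ↔ σ.F z') then (0 : ℝ) else 1) ≤
      10 * ∑ i ∈ z' \ z, σ.pos z' i / σ.S z' + 10 * ∑ i ∈ z' \ z, σ.neg z i / σ.S z := by
  obtain ⟨D₁, D₂, hD₁, hD₂, hD, hP, hQ⟩ := p1_loss_real σ h
  obtain ⟨E₁, E₂, hE₁, hE₂, hE, hP', hQ'⟩ := p1_gain_real σ h
  have hs := hσ.one z
  have hs' := hσ.one z'
  rw [← sum_div, ← sum_div, ← hD, ← hE]
  have hSz : σ.S z = (cnt σ.PP z : ℝ) + (cnt σ.QQ z : ℝ) := rfl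
  have hSz' : σ.S z' = (cnt σ.PP z' : ℝ) + (cnt σ.QQ z' : ℝ) := rfl
  set s := σ.S z with hsdef
  set s' := σ.S z' with hsdef'
  have hspos : 0 < s := lt_of_lt_of_le one_pos hs
  have hspos' : 0 < s' := lt_of_lt_of_le one_pos hs'
  have n1 : 0 ≤ (D₁ + D₂) / s := div_nonneg (by linarith) hspos.le
  have n2 : 0 ≤ (E₁ + E₂) / s' := div_nonneg (by linarith) hspos'.le
  by_cases hF : σ.F z ↔ σ.F z'
  · rw [if_pos hF]
    linarith
  · rw [if_neg hF]
    by_contra hcon
    push Not at hcon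
    have c1 : (D₁ + D₂) / s < 1 / 10 := by linarith
    have c2 : (E₁ + E₂) / s' < 1 / 10 := by linarith
    rw [div_lt_div_iff₀ hspos (by norm_num)] at c1
    rw [div_lt_div_iff₀ hspos' (by norm_num)] at c2
    by_cases hFz : σ.F z
    · have hFz' : ¬ σ.F z' := fun h => hF ⟨fun _ => h, fun _ => hFz⟩
      have e1 := p1_yes hFz
      have e2 := p1_no hσ hFz'
      linarith
    · have hFz' : σ.F z' := by
        by_contra h
        exact hF ⟨fun h' => absurd h' hFz, fun h' => absurd h' h⟩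
      have e1 := p1_no hσ hFz
      have e2 := p1_yes hFz'
      linarith

end Pool.Agent.BPP.Core
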