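import Pool.Agent.Helper90.BPP.PR1

/-!
Module PR2: conditioning, Markov and Chebyshev estimates for the levels.
-/

namespace Pool.Agent.BPP.Core

open Finset

variable {α : Type} [Fintype α] [DecidableEq α]

theorem pr2_cond_B {m : ℕ} {q0 h : ℝ} {j : ℕ} (hj : j ≤ m) (B : Finset α)
    (g : Finset α → ℝ) :
    EE (wt m q0 h) (fun ω : α → Fin (m + 2) =>
        if Disjoint B (lev j ω) then g (lev j ω) else 0) =
      (1 - qq q0 h j) ^ B.card *
        EE (wt m q0 h) (fun ω : α → Fin (m + 2) => g (lev j ω \ B)) := by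
  induction B using Finset.induction_on generalizing g with
  | empty => simp
  | insert b B hb ih =>
    have h1 := lev_single (q0 := q0) (h := h) hj b
      (fun x => if Disjoint (insert b B) x then g x else 0)
    rw [h1]
    have e1 : ∀ x : Finset α, (if Disjoint (insert b B) (insert b x) then g (insert b x) else 0)
        = 0 := by
      intro x
      rw [if_neg]
      rw [Finset.disjoint_left]
      push Not
      exact ⟨b, mem_insert_self _ _, mem_insert_self _ _⟩
    have e2 : ∀ x : Finset α, (if Disjoint (insert b B) (x.erase b) then g (x.erase b) else 0)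
        = if Disjoint B x then g (x.erase b) else 0 := by
      intro x
      have : Disjoint (insert b B) (x.erase b) ↔ Disjoint B x := by
        rw [disjoint_insert_left, Finset.disjoint_left, Finset.disjoint_left]
        constructor
        · rintro ⟨_, h2⟩ a ha hax
          exact h2 ha (mem_erase.2 ⟨fun hab => hb (hab ▸ ha), hax⟩)
        · intro h2
          exact ⟨fun h3 => (mem_erase.1 h3).1 rfl, fun a ha hax => h2 ha (mem_erase.1 hax).2⟩
      simp only [this]
    simp only [e1, e2]
    rw [ih (fun x => g (x.erase b))]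
    have e3 : ∀ x : Finset α, (x \ B).erase b = x \ insert b B := by
      intro x
      ext a
      simp only [mem_erase, mem_sdiff, mem_insert]
      tauto
    simp only [e3]
    rw [card_insert_of_notMem hb]
    have e4 : EE (wt m q0 h) (fun _ : α → Fin (m + 2) => (0 : ℝ)) = 0 := by simp [EE]
    rw [e4]
    ring

theorem lev_cond {m : ℕ} {q0 h : ℝ} {j : ℕ} (hj : j ≤ m) {A B : Finset α}
    (hAB : Disjoint A B) (g : Finset α → ℝ) :
    EE (wt m q0 h) (fun ω : α → Fin (m + 2) =>
        if A ⊆ lev j ω ∧ Disjoint B (lev j ω) then g (lev j ω) else 0) =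
      qq q0 h j ^ A.card * (1 - qq q0 h j) ^ B.card *
        EE (wt m q0 h) (fun ω : α → Fin (m + 2) => g ((lev j ω ∪ A) \ B)) := by
  induction A using Finset.induction_on generalizing g with
  | empty =>
    simp only [empty_subset, true_and, card_empty, pow_zero, one_mul, union_empty]
    exact pr2_cond_B hj B g
  | insert a A ha ih =>
    rw [disjoint_insert_left] at hAB
    have h1 := lev_single (q0 := q0) (h := h) hj a
      (fun x => if insert a A ⊆ x ∧ Disjoint B x then g x else 0)
    rw [h1]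
    have e1 : ∀ x : Finset α,
        (if insert a A ⊆ x.erase a ∧ Disjoint B (x.erase a) then g (x.erase a) else 0) = 0 := by
      intro x
      rw [if_neg]
      rintro ⟨h2, _⟩
      exact (mem_erase.1 (h2 (mem_insert_self a A))).1 rfl
    have e2 : ∀ x : Finset α,
        (if insert a A ⊆ insert a x ∧ Disjoint B (insert a x) then g (insert a x) else 0)
        = if A ⊆ x ∧ Disjoint B x then g (insert a x) else 0 := by
      intro x
      have h2 : insert a A ⊆ insert a x ↔ A ⊆ x := by
        constructor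
        · intro h3 y hy
          have := h3 (mem_insert_of_mem hy)
          rcases mem_insert.1 this with h4 | h4
          · exact absurd (h4 ▸ hy) ha
          · exact h4
        · exact insert_subset_insert a
      have h3 : Disjoint B (insert a x) ↔ Disjoint B x := by
        rw [disjoint_insert_right]
        exact ⟨fun h => h.2, fun h => ⟨hAB.1, h⟩⟩
      simp only [h2, h3]
    simp only [e1, e2]
    rw [ih hAB.2 (fun x => g (insert a x))]
    have e3 : ∀ x : Finset α, insert a ((x ∪ A) \ B) = (x ∪ insert a A) \ B := by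
      intro x
      ext y
      simp only [mem_insert, mem_sdiff, mem_union]
      constructor
      · rintro (rfl | h)
        · exact ⟨Or.inr (Or.inl rfl), hAB.1⟩
        · tauto
      · tauto
    simp only [e3]
    rw [card_insert_of_notMem ha]
    have e4 : EE (wt m q0 h) (fun _ : α → Fin (m + 2) => (0 : ℝ)) = 0 := by simp [EE]
    rw [e4]
    ring

theorem pr2_mem {m : ℕ} (q0 h : ℝ) {j : ℕ} (hj : j ≤ m) (i : α) :
    EE (wt m q0 h) (fun ω : α → Fin (m + 2) => if i ∈ lev j ω then 1 else 0) = qq q0 h j := by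
  have h1 := lev_cond (q0 := q0) (h := h) hj (A := {i}) (B := (∅ : Finset α))
    (disjoint_empty_right _) (fun _ => 1)
  simp only [singleton_subset_iff, disjoint_empty_left, and_true, card_singleton, pow_one,
    card_empty, pow_zero, mul_one, EE_const (wt_sum m q0 h)] at h1
  exact h1

theorem pr2_mem2 {m : ℕ} (q0 h : ℝ) {j : ℕ} (hj : j ≤ m) {i i' : α} (hne : i ≠ i') :
    EE (wt m q0 h) (fun ω : α → Fin (m + 2) =>
      (if i ∈ lev j ω then 1 else 0) * (if i' ∈ lev j ω then 1 else 0)) = qq q0 h j ^ 2 := by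
  have h1 := lev_cond (q0 := q0) (h := h) hj (A := {i, i'}) (B := (∅ : Finset α))
    (disjoint_empty_right _) (fun _ => 1)
  simp only [insert_subset_iff, singleton_subset_iff, disjoint_empty_left, and_true,
    card_pair hne, card_empty, pow_zero, mul_one, EE_const (wt_sum m q0 h)] at h1
  rw [← h1]
  congr 1
  funext ω
  by_cases c1 : i ∈ lev j ω <;> by_cases c2 : i' ∈ lev j ω <;> simp [c1, c2]

theorem pr2_card (x : Finset α) : (x.card : ℝ) = ∑ i, (if i ∈ x then (1 : ℝ) else 0) := by
  rw [sum_boole]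
  simp

theorem pr2_mean {m : ℕ} (q0 h : ℝ) {j : ℕ} (hj : j ≤ m) :
    EE (wt m q0 h) (fun ω : α → Fin (m + 2) => ((lev j ω).card : ℝ)) =
      Fintype.card α * qq q0 h j := by
  simp only [pr2_card]
  rw [EE_sum]
  simp only [pr2_mem q0 h hj, sum_const, card_univ, nsmul_eq_mul]

theorem markov_low {m : ℕ} {q0 h : ℝ} (H : Lev m q0 h) (s : ℝ) (hs : 0 < s) :
    EE (wt m q0 h) (fun ω : α → Fin (m + 2) => if s < ((lev 0 ω).card : ℝ) then 1 else 0)
      ≤ Fintype.card α * q0 / s := by
  have h1 : EE (wt m q0 h) (fun ω : α → Fin (m + 2) =>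
      if s < ((lev 0 ω).card : ℝ) then 1 else 0) ≤
      EE (wt m q0 h) (fun ω : α → Fin (m + 2) => (1 / s) * ((lev 0 ω).card : ℝ)) := by
    refine EE_mono (wt_nonneg H) fun ω => ?_
    split_ifs with hc
    · rw [one_div, inv_mul_eq_div, le_div_iff₀ hs]
      linarith
    · positivity
  rw [EE_mul, pr2_mean q0 h (Nat.zero_le m)] at h1
  refine h1.trans (le_of_eq ?_)
  simp only [qq, Nat.cast_zero, zero_mul, add_zero]
  ring

theorem pr2_second {m : ℕ} (q0 h : ℝ) {j : ℕ} (hj : j ≤ m) :
    EE (wt m q0 h) (fun ω : α → Fin (m + 2) => ((lev j ω).card : ℝ) ^ 2) =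
      Fintype.card α * qq q0 h j +
        Fintype.card α * (Fintype.card α - 1) * qq q0 h j ^ 2 := by
  have e1 : ∀ x : Finset α, (x.card : ℝ) ^ 2 =
      ∑ i, ∑ i', (if i ∈ x then (1 : ℝ) else 0) * (if i' ∈ x then 1 else 0) := by
    intro x
    rw [pow_two, pr2_card, sum_mul_sum]
  simp only [e1]
  rw [EE_sum]
  have e2 : ∀ i : α, EE (wt m q0 h) (fun ω : α → Fin (m + 2) =>
      ∑ i', (if i ∈ lev j ω then (1 : ℝ) else 0) * (if i' ∈ lev j ω then 1 else 0)) =
      qq q0 h j + (Fintype.card α - 1) * qq q0 h j ^ 2 := by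
    intro i
    rw [EE_sum]
    have e3 : ∀ i' : α, EE (wt m q0 h) (fun ω : α → Fin (m + 2) =>
        (if i ∈ lev j ω then (1 : ℝ) else 0) * (if i' ∈ lev j ω then 1 else 0)) =
        (if i' = i then qq q0 h j - qq q0 h j ^ 2 else 0) + qq q0 h j ^ 2 := by
      intro i'
      by_cases hii : i' = i
      · subst hii
        rw [if_pos rfl]
        have e4 : ∀ ω : α → Fin (m + 2),
            (if i' ∈ lev j ω then (1 : ℝ) else 0) * (if i' ∈ lev j ω then 1 else 0) =
            if i' ∈ lev j ω then 1 else 0 := by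
          intro ω
          split_ifs <;> norm_num
        simp only [e4, pr2_mem q0 h hj]
        ring
      · rw [if_neg hii, pr2_mem2 q0 h hj (fun h => hii h.symm)]
        ring
    simp only [e3]
    rw [sum_add_distrib, sum_ite_eq' univ i (fun _ => qq q0 h j - qq q0 h j ^ 2), if_pos (mem_univ i),
      sum_const, card_univ, nsmul_eq_mul]
    ring
  simp only [e2, sum_const, card_univ, nsmul_eq_mul]
  ring

theorem cheb_high {m : ℕ} {q0 h : ℝ} (H : Lev m q0 h) (b : ℝ) (hb : 0 < b)
    (hm : Fintype.card α * qq q0 h m = 2 * b) :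
    EE (wt m q0 h) (fun ω : α → Fin (m + 2) => if ((lev m ω).card : ℝ) < b then 1 else 0)
      ≤ 2 / b := by
  have h1 : EE (wt m q0 h) (fun ω : α → Fin (m + 2) =>
      if ((lev m ω).card : ℝ) < b then 1 else 0) ≤
      EE (wt m q0 h) (fun ω : α → Fin (m + 2) =>
        (1 / b ^ 2) * (((lev m ω).card : ℝ) ^ 2 + ((-(4 * b)) * ((lev m ω).card : ℝ)
          + 4 * b ^ 2))) := by
    refine EE_mono (wt_nonneg H) fun ω => ?_
    have e : ((lev m ω).card : ℝ) ^ 2 + ((-(4 * b)) * ((lev m ω).card : ℝ) + 4 * b ^ 2) =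
        (2 * b - (lev m ω).card) ^ 2 := by ring
    rw [e]
    split_ifs with hc
    · rw [one_div, inv_mul_eq_div, le_div_iff₀ (by positivity)]
      nlinarith
    · positivity
  have e2 : EE (wt m q0 h) (fun ω : α → Fin (m + 2) =>
        (1 / b ^ 2) * (((lev m ω).card : ℝ) ^ 2 + ((-(4 * b)) * ((lev m ω).card : ℝ)
          + 4 * b ^ 2))) = (1 / b ^ 2) * (2 * b - Fintype.card α * qq q0 h m ^ 2) := by
    rw [EE_mul, EE_add, EE_add, EE_mul, EE_const (wt_sum m q0 h), pr2_second q0 h le_rfl,
      pr2_mean q0 h le_rfl]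
    have e3 : (Fintype.card α : ℝ) * (Fintype.card α - 1) * qq q0 h m ^ 2 =
        (Fintype.card α * qq q0 h m) ^ 2 - Fintype.card α * qq q0 h m ^ 2 := by ring
    rw [e3, hm]
    ring
  rw [e2] at h1
  refine h1.trans ?_
  have e3 : (0 : ℝ) ≤ Fintype.card α * qq q0 h m ^ 2 := by positivity
  rw [one_div, inv_mul_eq_div, div_le_div_iff₀ (by positivity) hb]
  nlinarith

theorem hit_small {m : ℕ} {q0 h : ℝ} (H : Lev m q0 h) {j : ℕ} (hj : j ≤ m)
    (B : Finset α) :
    EE (wt m q0 h) (fun ω : α → Fin (m + 2) => if Disjoint B (lev j ω) then 0 else 1)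
      ≤ B.card * qq q0 h j := by
  have h1 : EE (wt m q0 h) (fun ω : α → Fin (m + 2) =>
      if Disjoint B (lev j ω) then (0 : ℝ) else 1) ≤
      EE (wt m q0 h) (fun ω : α → Fin (m + 2) => ∑ i ∈ B, if i ∈ lev j ω then (1 : ℝ) else 0) := by
    refine EE_mono (wt_nonneg H) fun ω => ?_
    split_ifs with hc
    · exact sum_nonneg fun i _ => by split_ifs <;> norm_num
    · rw [Finset.not_disjoint_iff] at hc
      obtain ⟨a, ha, hax⟩ := hc
      have h2 := single_le_sum (f := fun i => if i ∈ lev j ω then (1 : ℝ) else 0)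
        (fun i _ => by split_ifs <;> norm_num) ha
      simp only [if_pos hax] at h2
      exact h2
  rw [EE_sum] at h1
  simp only [pr2_mem q0 h hj, sum_const, nsmul_eq_mul] at h1
  exact h1

end Pool.Agent.BPP.Core
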