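import Pool.Agent.Helper90.BPP.CoreDefs
import Pool.Agent.Helper90.BPP.P1
import Pool.Agent.Helper90.BPP.PR1
import Pool.Agent.Helper90.BPP.PR2
import Pool.Agent.Helper90.BPP.C1
import Pool.Agent.Helper90.BPP.C2
import Pool.Agent.Helper90.BPP.C3

namespace Pool.Agent.BPP.Core

open Finset

variable {α : Type} [Fintype α] [DecidableEq α]

/-! ### Module C4 (assembly of the core) -/

/-- A slowly varying sequence from at most `1/10` to at least `9/10` passes the middle. -/
theorem crossing (f : ℕ → ℝ) (m : ℕ) (h0 : f 0 ≤ 1 / 10) (hm : 9 / 10 ≤ f m)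
    (hs : ∀ j, j + 1 ≤ m → |f (j + 1) - f j| ≤ 1 / 5) :
    ∃ j ≤ m, 2 / 5 ≤ f j ∧ f j ≤ 3 / 5 := by
  classical
  have hex : ∃ j, 2 / 5 ≤ f j := ⟨m, by linarith⟩
  let j := Nat.find hex
  have hj : 2 / 5 ≤ f j := Nat.find_spec hex
  have hjm : j ≤ m := Nat.find_min' hex (by linarith)
  have hj0 : j ≠ 0 := by
    intro h
    rw [h] at hj
    linarith
  obtain ⟨i, hi⟩ := Nat.exists_eq_succ_of_ne_zero hj0
  have hlt : f i < 2 / 5 := by
    by_contra hcon
    have : j ≤ i := Nat.find_min' hex (not_lt.1 hcon)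
    omega
  refine ⟨j, hjm, hj, ?_⟩
  have := hs i (by omega)
  rw [hi]
  have h2 := (abs_le.1 this).2
  simp only [Nat.succ_eq_add_one]
  linarith

/-- The core: approximate counting has no total extension of small cost. -/
theorem core {σ : Sys α} {κ n : ℕ} (hκ : 1 ≤ κ) (hσ : σ.Good κ κ)
    (hcard : Fintype.card α = 4 ^ n) (hn : 10 ^ 18 * κ ^ 5 ≤ 2 ^ n)
    (h0 : ∀ x : Finset α, 4 * x.card ≤ 2 ^ n → ¬ σ.F x)
    (h1 : ∀ x : Finset α, 4 * 2 ^ n ≤ x.card → σ.F x) : False := by
  -- parameters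
  set P : ℝ := 2 ^ n with hP
  set k : ℝ := (κ : ℝ) with hk
  have hk1 : (1 : ℝ) ≤ k := by rw [hk]; exact_mod_cast hκ
  have hn' : 10 ^ 18 * k ^ 5 ≤ P := by
    rw [hk, hP]; exact_mod_cast hn
  have hk5 : k ≤ k ^ 5 := by nlinarith [pow_le_pow_right₀ hk1 (show 1 ≤ 5 by norm_num)]
  have hk3 : k ^ 3 ≤ k ^ 5 := pow_le_pow_right₀ hk1 (by norm_num)
  have hk4 : k ^ 4 ≤ k ^ 5 := pow_le_pow_right₀ hk1 (by norm_num)
  have hk5' : 1 ≤ k ^ 5 := one_le_pow₀ hk1
  have hPpos : 0 < P := by rw [hP]; positivity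
  have hPbig : 10 ^ 18 ≤ P := by linarith
  let m : ℕ := 51100 * κ
  let q0 : ℝ := 1 / (64 * P)
  let h : ℝ := q0 / (100 * k)
  have hq0 : 0 < q0 := by positivity
  have hh : 0 < h := by positivity
  have hmk : (m : ℝ) = 51100 * k := by simp [m, hk]
  have hmh : (m : ℝ) * h = 511 * q0 := by
    rw [hmk]; simp only [h]; field_simp; norm_num
  have hqm : qq q0 h m = 8 / P := by
    rw [qq, hmh]; simp only [q0]; field_simp; norm_num
  have hqm' : 8 / P ≤ 8 / 10 ^ 18 := by gcongr
  have H : Lev m q0 h := ⟨hq0, hh, by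
    have : q0 + m * h = 8 / P := hqm
    rw [this]; norm_num at hqm' ⊢; linarith⟩
  have hN : (Fintype.card α : ℝ) = P ^ 2 := by
    rw [hcard, hP]; push_cast; rw [← pow_mul, show (4 : ℝ) = 2 ^ 2 by norm_num, ← pow_mul]
    ring_nf
  let c : ℝ := 1 / (100 * k)
  let η : ℝ := 1 / (100 * (m + 1) * (11 + 10 * k) * k)
  have hc : 0 < c := by positivity
  have hη : 0 < η := by positivity
  obtain ⟨ρ, Bad, hρ, hBad, hfl⟩ := exists_bad hσ H hc hη
  have hρ' : (ρ.card : ℝ) ≤ P / 16 := by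
    have e1 : (ρ.card : ℝ) ≤ (m + 1) * k * (100 * k) := by
      have : (ρ.card : ℝ) * c * (100 * k) ≤ (m + 1) * k * (100 * k) := by
        gcongr
      have e2 : (ρ.card : ℝ) * c * (100 * k) = ρ.card := by
        simp only [c]; field_simp
      linarith
    have e3 : ((m : ℝ) + 1) * k * (100 * k) ≤ 5110100 * k ^ 5 := by
      rw [hmk]
      nlinarith [mul_nonneg (sub_nonneg.2 hk1) (sq_nonneg k)]
    have e4 : (5110100 : ℝ) * k ^ 5 ≤ P / 16 := by linarith
    linarith
  have hB' : ((Bad.card : ℝ) + k) * (8 / P) ≤ 1 / 100 := by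
    have e1 : (Bad.card : ℝ) ≤ (m + 1) * k * (100 * (m + 1) * (11 + 10 * k) * k) := by
      have : (Bad.card : ℝ) * η * (100 * (m + 1) * (11 + 10 * k) * k) ≤
          (m + 1) * k * (100 * (m + 1) * (11 + 10 * k) * k) := by
        gcongr
      have e2 : (Bad.card : ℝ) * η * (100 * (m + 1) * (11 + 10 * k) * k) = Bad.card := by
        simp only [η]; field_simp
      linarith
    have e3 : ((m : ℝ) + 1) ≤ 51101 * k := by rw [hmk]; linarith
    have e4 : (11 + 10 * k) ≤ 21 * k := by linarith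
    have e5 : ((m : ℝ) + 1) * k * (100 * (m + 1) * (11 + 10 * k) * k) ≤
        (51101 * k) * k * (100 * (51101 * k) * (21 * k) * k) := by
      gcongr
    have e6 : (51101 * k) * k * (100 * (51101 * k) * (21 * k) * k) ≤ 10 ^ 13 * k ^ 5 := by
      nlinarith [hk5']
    have e7 : (Bad.card : ℝ) + k ≤ 2 * 10 ^ 13 * k ^ 5 := by nlinarith
    have e8 : ((Bad.card : ℝ) + k) * (8 / P) ≤ (2 * 10 ^ 13 * k ^ 5) * (8 / P) := by
      gcongr
    have e9 : (2 * 10 ^ 13 * k ^ 5) * (8 / P) ≤ 1 / 100 := by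
      rw [mul_div_assoc', div_le_iff₀ hPpos]
      nlinarith
    linarith
  have hqle : ∀ j ≤ m, qq q0 h j ≤ 8 / P := by
    intro j hj
    rw [← hqm]
    unfold qq
    have : (j : ℝ) ≤ m := by exact_mod_cast hj
    nlinarith
  have hflip : ∀ j ≤ m, ∀ A : Finset α, A.card ≤ κ → Disjoint A Bad →
      flip σ m q0 h j ρ A ≤ 3 / 100 := by
    intro j hj A hA hd
    have e := hfl A hA hd j hj
    have e1 : c * k = 1 / 100 := by simp only [c]; field_simp
    have e2 : ((m : ℝ) + 1) * ((11 + 10 * k) * (k * η)) = 1 / 100 := by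
      simp only [η]; field_simp
    rw [e1, e2] at e
    linarith
  -- the profile
  have hslow : ∀ j, j + 1 ≤ m → |ff σ m q0 h (j + 1) ρ - ff σ m q0 h j ρ| ≤ 1 / 5 := by
    intro j hj
    refine (slow hσ H hj ρ).trans ?_
    have e1 : 10 * (k * (h / q0)) = 1 / 10 := by
      simp only [h]; field_simp; norm_num
    have e2 : 10 * (k * (2 * h)) ≤ 1 / 10 := by
      have : 10 * (k * (2 * h)) = q0 / 5 := by simp only [h]; field_simp; norm_num
      rw [this]
      have : q0 ≤ 1 / 2 := by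
        have := H.le
        have : 0 ≤ (m : ℝ) * h := by positivity
        linarith
      linarith
    linarith
  have hlow : ff σ m q0 h 0 ρ ≤ 1 / 10 := by
    have e1 : ff σ m q0 h 0 ρ ≤ EE (wt m q0 h)
        (fun ω : α → Fin (m + 2) => if 3 * P / 16 < ((lev 0 ω).card : ℝ) then 1 else 0) := by
      refine EE_mono (wt_nonneg H) (fun ω => ?_)
      by_cases hF : σ.F (lev 0 ω ∪ ρ)
      · have hgt : P / 4 < ((lev 0 ω ∪ ρ).card : ℝ) := by
          by_contra hcon
          have : 4 * (lev 0 ω ∪ ρ).card ≤ 2 ^ n := by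
            have : 4 * ((lev 0 ω ∪ ρ).card : ℝ) ≤ 2 ^ n := by
              rw [← hP]; linarith
            exact_mod_cast this
          exact h0 _ this hF
        have hle : ((lev 0 ω ∪ ρ).card : ℝ) ≤ (lev 0 ω).card + ρ.card := by
          exact_mod_cast card_union_le _ _
        have : 3 * P / 16 < ((lev 0 ω).card : ℝ) := by linarith
        simp [hF, this]
      · simp only [hF, if_false]
        split_ifs <;> norm_num
    refine e1.trans ((markov_low H (3 * P / 16) (by positivity)).trans ?_)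
    rw [hN]
    simp only [q0]
    rw [div_le_iff₀ (by positivity)]
    field_simp
    norm_num
  have hhigh : 9 / 10 ≤ ff σ m q0 h m ρ := by
    have e0 : EE (wt m q0 h)
        (fun ω : α → Fin (m + 2) => 1 - if ((lev m ω).card : ℝ) < 4 * P then 1 else 0) ≤
        ff σ m q0 h m ρ := by
      refine EE_mono (wt_nonneg H) (fun ω => ?_)
      by_cases hc' : ((lev m ω).card : ℝ) < 4 * P
      · simp only [hc', if_true]
        split_ifs <;> norm_num
      · have hc2 : 4 * 2 ^ n ≤ (lev m ω ∪ ρ).card := by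
          have h1' : ((lev m ω).card : ℝ) ≤ ((lev m ω ∪ ρ).card : ℝ) := by
            exact_mod_cast card_le_card subset_union_left
          have : (4 : ℝ) * 2 ^ n ≤ ((lev m ω ∪ ρ).card : ℝ) := by
            rw [← hP]; linarith
          exact_mod_cast this
        have := h1 _ hc2
        simp [hc', this]
    rw [EE_sub, EE_const (wt_sum m q0 h)] at e0
    have e1 := cheb_high (α := α) H (4 * P) (by positivity) (by
      rw [hN, hqm]; field_simp; norm_num)
    have e2 : 2 / (4 * P) ≤ 1 / 10 := by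
      rw [div_le_iff₀ (by positivity)]
      linarith
    linarith
  obtain ⟨j, hj, hj1, hj2⟩ := crossing (fun j => ff σ m q0 h j ρ) m hlow hhigh hslow
  refine no_balanced hσ H hj (Bad := Bad) ?_ (hflip j hj) hj1 hj2
  refine le_trans ?_ hB'
  exact mul_le_mul_of_nonneg_left (hqle j hj) (add_nonneg (Nat.cast_nonneg _) (Nat.cast_nonneg _))

end Pool.Agent.BPP.Core
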