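import Pool.Agent.Helper90.BPP.Loc

namespace Pool.Agent.BPP

open Finset

theorem cntT_nil (X : Oracle) : cntT X [] = 0 := rfl

theorem cntT_append (X : Oracle) (l l' : List Term) : cntT X (l ++ l') = cntT X l + cntT X l' := by
  simp [cntT, List.countP_append]

theorem cntT_flatMap {β : Type} (X : Oracle) (l : List β) (f : β → List Term) :
    cntT X (l.flatMap f) = (l.map fun a => cntT X (f a)).sum := by
  induction l with
  | nil => rfl
  | cons a l ih => rw [List.flatMap_cons, cntT_append, ih, List.map_cons, List.sum_cons]

theorem sat_iff (X : Oracle) (T : Term) :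
    T.sat X = true ↔ (∀ q ∈ T.1, X q = true) ∧ ∀ q ∈ T.2, X q = false := by
  simp [Term.sat]

theorem cntT_cons (X : Oracle) (T : Term) (l : List Term) :
    cntT X (T :: l) = cntT X l + if T.sat X then 1 else 0 := by
  simp [cntT, List.countP_cons]

/-- adding a positive literal -/
theorem cntT_pos (X : Oracle) (q : List Bool) (l : List Term) :
    cntT X (l.map fun T => (insert q T.1, T.2)) = if X q = true then cntT X l else 0 := by
  induction l with
  | nil => simp [cntT_nil]
  | cons T l ih =>
    rw [List.map_cons, cntT_cons, ih, cntT_cons]
    by_cases hq : X q = true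
    · have : Term.sat X (insert q T.1, T.2) = T.sat X := by
        rw [Bool.eq_iff_iff, sat_iff, sat_iff]
        simp [hq]
      rw [this]
      simp [hq]
    · have : Term.sat X (insert q T.1, T.2) = false := by
        rw [Bool.eq_false_iff]
        intro h
        rw [sat_iff] at h
        exact hq (h.1 q (mem_insert_self _ _))
      rw [this]
      simp [hq]

/-- adding a negative literal -/
theorem cntT_neg (X : Oracle) (q : List Bool) (l : List Term) :
    cntT X (l.map fun T => (T.1, insert q T.2)) = if X q = true then 0 else cntT X l := by
  induction l with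
  | nil => simp [cntT_nil]
  | cons T l ih =>
    rw [List.map_cons, cntT_cons, ih, cntT_cons]
    by_cases hq : X q = true
    · have : Term.sat X (T.1, insert q T.2) = false := by
        rw [Bool.eq_false_iff]
        intro h
        rw [sat_iff] at h
        have := h.2 q (mem_insert_self _ _)
        rw [hq] at this
        cases this
      rw [this]
      simp [hq]
    · have hq' : X q = false := by simpa using hq
      have : Term.sat X (T.1, insert q T.2) = T.sat X := by
        rw [Bool.eq_iff_iff, sat_iff, sat_iff]
        simp [hq']
      rw [this]
      simp [hq']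

theorem enc_paths (M : OTM) (b : Bool) (t : ℕ) (c : M.Conf) :
    ∃ l : List Term, (∀ X, M.paths X b t c = cntT X l) ∧
      ∀ T ∈ l, T.1.card ≤ t ∧ T.2.card ≤ t := by
  induction t generalizing c with
  | zero =>
    unfold OTM.paths
    cases hi : M.instr c with
    | halt a =>
      by_cases hab : a = b
      · refine ⟨[(∅, ∅)], fun X => ?_, ?_⟩
        · simp [hab, cntT, Term.sat]
        · simp
      · exact ⟨[], fun X => by simp [hab, cntT], by simp⟩
    | step f r => exact ⟨[], fun X => by simp [cntT], by simp⟩
    | query y n => exact ⟨[], fun X => by simp [cntT], by simp⟩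
  | succ t ih =>
    unfold OTM.paths
    cases hi : M.instr c with
    | halt a =>
      by_cases hab : a = b
      · refine ⟨[(∅, ∅)], fun X => ?_, ?_⟩
        · simp [hab, cntT, Term.sat]
        · simp
      · exact ⟨[], fun X => by simp [hab, cntT], by simp⟩
    | step f r =>
      choose l hl hl' using fun m => ih (c.apply m)
      refine ⟨(insert f r).toList.flatMap l, fun X => ?_, ?_⟩
      · rw [cntT_flatMap]
        simp only
        rw [← Finset.sum_map_toList]
        congr 1
        refine List.map_congr_left fun m _ => hl m X
      · intro T hT
        rw [List.mem_flatMap] at hT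
        obtain ⟨m, _, hm⟩ := hT
        have := hl' m T hm
        omega
    | query y n =>
      obtain ⟨l₁, h1, h1'⟩ := ih (c.goto y)
      obtain ⟨l₂, h2, h2'⟩ := ih (c.goto n)
      refine ⟨(l₁.map fun T => (insert c.qry T.1, T.2)) ++ l₂.map fun T => (T.1, insert c.qry T.2),
        fun X => ?_, ?_⟩
      · rw [cntT_append, cntT_pos, cntT_neg]
        by_cases hq : X c.qry = true
        · simp [hq, h1 X]
        · simp [hq, h2 X]
      · intro T hT
        rw [List.mem_append, List.mem_map, List.mem_map] at hT
        rcases hT with ⟨T', hT', rfl⟩ | ⟨T', hT', rfl⟩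
        · have h := h1' T' hT'
          have h3 := card_insert_le c.qry T'.1
          exact ⟨by dsimp only; omega, by dsimp only; omega⟩
        · have h := h2' T' hT'
          have h3 := card_insert_le c.qry T'.2
          exact ⟨by dsimp only; omega, by dsimp only; omega⟩

theorem enc_run (D : OTM) (t : ℕ) (c : D.Conf) :
    ∃ l : List (Term × D.Conf),
      (∀ (X : Oracle) (g : D.Conf → ℕ), g (D.run X t c) =
        (l.map (fun p => if p.1.sat X then g p.2 else 0)).sum) ∧
      ∀ p ∈ l, p.1.1.card ≤ t ∧ p.1.2.card ≤ t ∧ p.2.out.length ≤ c.out.length + t := by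
  induction t generalizing c with
  | zero =>
    refine ⟨[((∅, ∅), c)], fun X g => ?_, ?_⟩
    · simp [Term.sat, run_zero']
    · simp
  | succ t ih =>
    cases hi : D.instr c with
    | halt a =>
      obtain ⟨l, h1, h2⟩ := ih c
      refine ⟨l, fun X g => ?_, fun p hp => ?_⟩
      · rw [run_succ', ← h1 X g]
        congr 2
        unfold OTM.next
        rw [hi]
      · have := h2 p hp
        omega
    | step f r =>
      obtain ⟨l, h1, h2⟩ := ih (c.apply f)
      refine ⟨l, fun X g => ?_, fun p hp => ?_⟩
      · rw [run_succ', ← h1 X g]
        congr 2
        unfold OTM.next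
        rw [hi]
      · have := h2 p hp
        have h3 := apply_out_length c f
        omega
    | query y n =>
      obtain ⟨l₁, h1, h1'⟩ := ih (c.goto y)
      obtain ⟨l₂, h2, h2'⟩ := ih (c.goto n)
      refine ⟨(l₁.map fun p : Term × D.Conf => (((insert c.qry p.1.1, p.1.2), p.2) : Term × D.Conf)) ++
        l₂.map fun p : Term × D.Conf => (((p.1.1, insert c.qry p.1.2), p.2) : Term × D.Conf), fun X g => ?_, ?_⟩
      · have hn : D.next X c = c.goto (if X c.qry then y else n) := by
          unfold OTM.next
          rw [hi]
        rw [run_succ', hn, List.map_append, List.sum_append, List.map_map, List.map_map]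
        by_cases hq : X c.qry = true
        · have e1 : ∀ p : Term × D.Conf, Term.sat X (insert c.qry p.1.1, p.1.2) = p.1.sat X := by
            intro p
            rw [Bool.eq_iff_iff, sat_iff, sat_iff]
            simp [hq]
          have e2 : ∀ p : Term × D.Conf, Term.sat X (p.1.1, insert c.qry p.1.2) = false := by
            intro p
            rw [Bool.eq_false_iff]
            intro h
            rw [sat_iff] at h
            have := h.2 c.qry (mem_insert_self _ _)
            rw [hq] at this
            cases this
          have e3 : ((fun p : Term × D.Conf => if p.1.sat X then g p.2 else 0) ∘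
              fun p : Term × D.Conf => (((insert c.qry p.1.1, p.1.2), p.2) : Term × D.Conf)) =
              fun p => if p.1.sat X then g p.2 else 0 := by
            funext p
            simp only [Function.comp, e1]
          have e4 : ((fun p : Term × D.Conf => if p.1.sat X then g p.2 else 0) ∘
              fun p : Term × D.Conf => (((p.1.1, insert c.qry p.1.2), p.2) : Term × D.Conf)) = fun _ => 0 := by
            funext p
            simp [Function.comp, e2]
          rw [e3, e4]
          simp [hq, h1 X g]
        · have hq' : X c.qry = false := by simpa using hq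
          have e1 : ∀ p : Term × D.Conf, Term.sat X (insert c.qry p.1.1, p.1.2) = false := by
            intro p
            rw [Bool.eq_false_iff]
            intro h
            rw [sat_iff] at h
            have := h.1 c.qry (mem_insert_self _ _)
            rw [hq'] at this
            cases this
          have e2 : ∀ p : Term × D.Conf, Term.sat X (p.1.1, insert c.qry p.1.2) = p.1.sat X := by
            intro p
            rw [Bool.eq_iff_iff, sat_iff, sat_iff]
            simp [hq']
          have e3 : ((fun p : Term × D.Conf => if p.1.sat X then g p.2 else 0) ∘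
              fun p : Term × D.Conf => (((insert c.qry p.1.1, p.1.2), p.2) : Term × D.Conf)) = fun _ => 0 := by
            funext p
            simp [Function.comp, e1]
          have e4 : ((fun p : Term × D.Conf => if p.1.sat X then g p.2 else 0) ∘
              fun p : Term × D.Conf => (((p.1.1, insert c.qry p.1.2), p.2) : Term × D.Conf)) =
              fun p => if p.1.sat X then g p.2 else 0 := by
            funext p
            simp only [Function.comp, e2]
          rw [e3, e4]
          simp [hq', h2 X g]
      · intro p hp
        rw [List.mem_append, List.mem_map, List.mem_map] at hp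
        rcases hp with ⟨p', hp', rfl⟩ | ⟨p', hp', rfl⟩
        · have h := h1' p' hp'
          have h3 := card_insert_le c.qry p'.1.1
          have h4 : (c.goto y).out = c.out := rfl
          rw [h4] at h
          refine ⟨by dsimp only; omega, by dsimp only; omega, by dsimp only; omega⟩
        · have h := h2' p' hp'
          have h3 := card_insert_le c.qry p'.1.2
          have h4 : (c.goto n).out = c.out := rfl
          rw [h4] at h
          refine ⟨by dsimp only; omega, by dsimp only; omega, by dsimp only; omega⟩

theorem cntT_union (X : Oracle) (T₀ : Term) (l : List Term) :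
    cntT X (l.map fun T => (T₀.1 ∪ T.1, T₀.2 ∪ T.2)) = if T₀.sat X then cntT X l else 0 := by
  induction l with
  | nil => simp [cntT_nil]
  | cons T l ih =>
    rw [List.map_cons, cntT_cons, ih, cntT_cons]
    by_cases h0 : T₀.sat X = true
    · have : Term.sat X (T₀.1 ∪ T.1, T₀.2 ∪ T.2) = T.sat X := by
        rw [Bool.eq_iff_iff, sat_iff, sat_iff]
        rw [sat_iff] at h0
        constructor
        · rintro ⟨h1, h2⟩
          exact ⟨fun q hq => h1 q (mem_union_right _ hq), fun q hq => h2 q (mem_union_right _ hq)⟩
        · rintro ⟨h1, h2⟩
          refine ⟨fun q hq => ?_, fun q hq => ?_⟩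
          · rcases mem_union.1 hq with h | h
            · exact h0.1 q h
            · exact h1 q h
          · rcases mem_union.1 hq with h | h
            · exact h0.2 q h
            · exact h2 q h
      rw [this]
      simp [h0]
    · have : Term.sat X (T₀.1 ∪ T.1, T₀.2 ∪ T.2) = false := by
        rw [Bool.eq_false_iff]
        intro h
        apply h0
        rw [sat_iff] at h ⊢
        exact ⟨fun q hq => h.1 q (mem_union_left _ hq), fun q hq => h.2 q (mem_union_left _ hq)⟩
      rw [this]
      simp [h0]

/-- The composite: `D` on `0 ^ n`, then `M` on the output. -/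
theorem enc_comp (M D : OTM) (c d n : ℕ) (b : Bool) :
    ∃ l : List Term, (∀ X, M.paths X b (tb c (outp D d X n).length)
        (M.init (outp D d X n)) = cntT X l) ∧
      ∀ T ∈ l, T.1.card ≤ tb d n + tb c (tb d n) ∧ T.2.card ≤ tb d n + tb c (tb d n) := by
  obtain ⟨l, h1, h2⟩ := enc_run D (tb d n) (D.init (List.replicate n false))
  choose k hk hk' using fun p : Term × D.Conf =>
    enc_paths M b (tb c p.2.out.length) (M.init p.2.out)
  refine ⟨l.flatMap fun p => (k p).map fun T => (p.1.1 ∪ T.1, p.1.2 ∪ T.2), fun X => ?_, ?_⟩
  · rw [cntT_flatMap]
    have h := h1 X fun conf => M.paths X b (tb c conf.out.length) (M.init conf.out)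
    change M.paths X b (tb c (outp D d X n).length) (M.init (outp D d X n)) = _ at h
    rw [h]
    congr 1
    refine List.map_congr_left fun p _ => ?_
    rw [cntT_union X p.1 (k p)]
    simp only [hk p X]
  · intro T hT
    rw [List.mem_flatMap] at hT
    obtain ⟨p, hp, hT⟩ := hT
    rw [List.mem_map] at hT
    obtain ⟨T', hT', rfl⟩ := hT
    obtain ⟨h3, h4, h5⟩ := h2 p hp
    obtain ⟨h6, h7⟩ := hk' p T' hT'
    have h8 : (D.init (List.replicate n false)).out.length = 0 := rfl
    rw [h8, zero_add] at h5
    have h9 : tb c p.2.out.length ≤ tb c (tb d n) :=
      Nat.add_le_add_right (Nat.pow_le_pow_left h5 c) c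
    have h10 := card_union_le p.1.1 T'.1
    have h11 := card_union_le p.1.2 T'.2
    refine ⟨?_, ?_⟩
    · dsimp only; omega
    · dsimp only; omega

end Pool.Agent.BPP
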