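import Pool.Agent.Helper90.BPP.MachDefs

namespace Pool.Agent.BPP

open Finset

theorem toList_length_le (o : Option Bool) : o.toList.length ≤ 1 := by
  cases o <;> simp

theorem apply_qry_length {Q : Type} {g : ℕ} (c : Cfg Q (Fin (g + 3))) (m : Move Q (Fin (g + 3))) :
    (c.apply m).qry.length ≤ c.qry.length + 1 := by
  simp only [Cfg.apply, List.length_append]
  have := toList_length_le m.ask
  omega

theorem apply_out_length {Q : Type} {g : ℕ} (c : Cfg Q (Fin (g + 3))) (m : Move Q (Fin (g + 3))) :
    (c.apply m).out.length ≤ c.out.length + 1 := by
  simp only [Cfg.apply, List.length_append]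
  have := toList_length_le m.out
  omega

theorem paths_agree (M : OTM) {X Y : Oracle} {l : ℕ} (h : Agree l X Y) (b : Bool) (t : ℕ)
    (c : M.Conf) (hc : c.qry.length + t ≤ l) : M.paths X b t c = M.paths Y b t c := by
  induction t generalizing c with
  | zero =>
    unfold OTM.paths
    cases M.instr c <;> rfl
  | succ t ih =>
    unfold OTM.paths
    cases hi : M.instr c with
    | halt a => rfl
    | step f r =>
      refine Finset.sum_congr rfl fun m _ => ih _ ?_
      have := apply_qry_length c m
      omega
    | query y n =>
      have hq : X c.qry = Y c.qry := h _ (by omega)
      simp only [hq]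
      apply ih
      simp only [Cfg.goto, List.length_nil]
      omega

theorem halts_agree (M : OTM) {X Y : Oracle} {l : ℕ} (h : Agree l X Y) (t : ℕ)
    (c : M.Conf) (hc : c.qry.length + t ≤ l) : M.HaltsIn X t c ↔ M.HaltsIn Y t c := by
  induction t generalizing c with
  | zero =>
    unfold OTM.HaltsIn
    cases M.instr c <;> rfl
  | succ t ih =>
    unfold OTM.HaltsIn
    cases hi : M.instr c with
    | halt a => rfl
    | step f r =>
      refine forall_congr' fun m => imp_congr_right fun _ => ih _ ?_
      have := apply_qry_length c m
      omega
    | query y n =>
      have hq : X c.qry = Y c.qry := h _ (by omega)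
      simp only [hq]
      apply ih
      simp only [Cfg.goto, List.length_nil]
      omega

theorem run_succ' (M : OTM) (X : Oracle) (t : ℕ) (c : M.Conf) :
    M.run X (t + 1) c = M.run X t (M.next X c) := by
  simp [OTM.run, Function.iterate_succ_apply]

theorem run_zero' (M : OTM) (X : Oracle) (c : M.Conf) : M.run X 0 c = c := rfl

theorem run_agree (M : OTM) {X Y : Oracle} {l : ℕ} (h : Agree l X Y) (t : ℕ)
    (c : M.Conf) (hc : c.qry.length + t ≤ l) : M.run X t c = M.run Y t c := by
  induction t generalizing c with
  | zero => rfl
  | succ t ih =>
    rw [run_succ', run_succ']
    have hq : X c.qry = Y c.qry := h _ (by omega)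
    have hn : M.next X c = M.next Y c := by
      unfold OTM.next
      cases hi : M.instr c with
      | halt a => rfl
      | step f r => rfl
      | query y n => simp only [hq]
    rw [hn]
    apply ih
    unfold OTM.next
    cases hi : M.instr c with
    | halt a => simp only; omega
    | step f r =>
      have := apply_qry_length c f
      simp only; omega
    | query y n =>
      simp only [Cfg.goto, List.length_nil]
      omega

theorem out_length (M : OTM) (X : Oracle) (t : ℕ) (c : M.Conf) :
    (M.run X t c).out.length ≤ c.out.length + t := by
  induction t generalizing c with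
  | zero => simp [run_zero']
  | succ t ih =>
    rw [run_succ']
    refine (ih _).trans ?_
    have : (M.next X c).out.length ≤ c.out.length + 1 := by
      unfold OTM.next
      cases hi : M.instr c with
      | halt a => simp
      | step f r => exact apply_out_length c f
      | query y n => simp [Cfg.goto]
    omega

theorem halts_fuel (M : OTM) (X : Oracle) {t t' : ℕ} (htt : t ≤ t') (c : M.Conf)
    (h : M.HaltsIn X t c) : M.HaltsIn X t' c := by
  induction t' generalizing t c with
  | zero =>
    have : t = 0 := by omega
    subst this; exact h
  | succ t' ih =>
    unfold OTM.HaltsIn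
    cases t with
    | zero =>
      unfold OTM.HaltsIn at h
      cases hi : M.instr c with
      | halt a => trivial
      | step f r => rw [hi] at h; exact h.elim
      | query y n => rw [hi] at h; exact h.elim
    | succ t =>
      unfold OTM.HaltsIn at h
      cases hi : M.instr c with
      | halt a => trivial
      | step f r =>
        rw [hi] at h
        intro m hm
        exact ih (by omega) _ (h m hm)
      | query y n =>
        rw [hi] at h
        exact ih (by omega) _ h

theorem paths_fuel (M : OTM) (X : Oracle) (b : Bool) {t t' : ℕ} (htt : t ≤ t') (c : M.Conf)
    (h : M.HaltsIn X t c) : M.paths X b t' c = M.paths X b t c := by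
  induction t' generalizing t c with
  | zero =>
    have : t = 0 := by omega
    subst this; rfl
  | succ t' ih =>
    cases t with
    | zero =>
      unfold OTM.HaltsIn at h
      unfold OTM.paths
      cases hi : M.instr c with
      | halt a => rfl
      | step f r => rw [hi] at h; exact h.elim
      | query y n => rw [hi] at h; exact h.elim
    | succ t =>
      unfold OTM.HaltsIn at h
      unfold OTM.paths
      cases hi : M.instr c with
      | halt a => rfl
      | step f r =>
        rw [hi] at h
        exact Finset.sum_congr rfl fun m hm => ih (by omega) _ (h m hm)
      | query y n =>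
        rw [hi] at h
        exact ih (by omega) _ h

end Pool.Agent.BPP
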