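import Pool.Agent.Helper90.BPP.MachDefs

namespace Pool.Agent.BPP

open Finset

theorem restrict {α : Type} [Fintype α] [DecidableEq α] (X : Oracle) (e : α → List Bool)
    (he : Function.Injective e) (hX : ∀ a, X (e a) = false) (l : List Term) (k : ℕ)
    (hl : ∀ T ∈ l, T.1.card ≤ k ∧ T.2.card ≤ k) :
    ∃ l' : List (Core.CT α), (∀ x : Finset α, Core.cnt l' x = cntT (overlay X e x) l) ∧
      ∀ T ∈ l', T.1.card ≤ k ∧ T.2.card ≤ k := by
  classical
  let cond : Term → Bool := fun T => decide ((∀ q ∈ T.1, q ∉ Set.range e → X q = true) ∧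
    ∀ q ∈ T.2, q ∉ Set.range e → X q = false)
  let f : Term → Core.CT α := fun T =>
    (univ.filter fun a => e a ∈ T.1, univ.filter fun a => e a ∈ T.2)
  have hov : ∀ (x : Finset α) (a : α), overlay X e x (e a) = decide (a ∈ x) := by
    intro x a
    simp only [overlay, hX a, Bool.false_or]
    congr 1
    apply propext
    constructor
    · rintro ⟨a', ha', h⟩
      rwa [← he h]
    · intro h
      exact ⟨a, h, rfl⟩
  have hov' : ∀ (x : Finset α) (q : List Bool), q ∉ Set.range e → overlay X e x q = X q := by
    intro x q hq
    have : ¬ ∃ a ∈ x, e a = q := by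
      rintro ⟨a, _, h⟩
      exact hq ⟨a, h⟩
    simp [overlay, this]
  refine ⟨(l.filter cond).map f, fun x => ?_, ?_⟩
  · unfold Core.cnt cntT
    rw [List.countP_map, List.countP_filter]
    refine List.countP_congr fun T _ => ?_
    rw [Bool.and_eq_true]
    simp only [Function.comp, Core.sat, cond, f, Term.sat, decide_eq_true_eq]
    constructor
    · rintro ⟨⟨h1, h2⟩, h3, h4⟩
      refine ⟨fun q hq => ?_, fun q hq => ?_⟩
      · by_cases hr : q ∈ Set.range e
        · obtain ⟨a, rfl⟩ := hr
          rw [hov, decide_eq_true_eq]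
          exact h1 (by simpa using hq)
        · rw [hov' x q hr]
          exact h3 q hq hr
      · by_cases hr : q ∈ Set.range e
        · obtain ⟨a, rfl⟩ := hr
          rw [hov, decide_eq_false_iff_not]
          intro ha
          exact (Finset.disjoint_left.1 h2) (by simpa using hq) ha
        · rw [hov' x q hr]
          exact h4 q hq hr
    · rintro ⟨h1, h2⟩
      refine ⟨⟨?_, ?_⟩, fun q hq hr => ?_, fun q hq hr => ?_⟩
      · intro a ha
        have := h1 (e a) (by simpa using ha)
        rwa [hov, decide_eq_true_eq] at this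
      · rw [Finset.disjoint_left]
        intro a ha hax
        have := h2 (e a) (by simpa using ha)
        rw [hov, decide_eq_false_iff_not] at this
        exact this hax
      · rw [← hov' x q hr]
        exact h1 q hq
      · rw [← hov' x q hr]
        exact h2 q hq
  · intro T hT
    rw [List.mem_map] at hT
    obtain ⟨T', hT', rfl⟩ := hT
    obtain ⟨h1, h2⟩ := hl T' (List.mem_filter.1 hT').1
    have key : ∀ s : Finset (List Bool), (univ.filter fun a => e a ∈ s).card ≤ s.card := by
      intro s
      refine Finset.card_le_card_of_injOn e ?_ he.injOn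
      intro a ha
      simpa using ha
    exact ⟨(key T'.1).trans h1, (key T'.2).trans h2⟩

end Pool.Agent.BPP
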