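import Pool.Agent.Helper90.BPP.MachDefs
import Pool.Agent.Helper90.BPP.C4
import Pool.Agent.Helper90.BPP.Loc
import Pool.Agent.Helper90.BPP.Bnd
import Pool.Agent.Helper90.BPP.Enc
import Pool.Agent.Helper90.BPP.Reg

namespace Pool.Agent.BPP

open Finset

/-! ### Module APP (application of the core to a pair of machines) -/

theorem cell_injective (i n : ℕ) : Function.Injective (cell i n) := by
  intro u v h
  unfold cell at h
  exact List.ofFn_injective (List.append_cancel_left h)

theorem outp_length (D : OTM) (d : ℕ) (X : Oracle) (n : ℕ) :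
    (outp D d X n).length ≤ tb d n := by
  have := out_length D X (tb d n) (D.init (List.replicate n false))
  simpa [outp, OTM.init] using this

theorem tb_mono (c : ℕ) {a b : ℕ} (h : a ≤ b) : tb c a ≤ tb c b := by
  unfold tb
  gcongr

theorem app (M D : OTM) (c d : ℕ) {B : ℕ}
    (hB : ∀ (X : Oracle) (t : ℕ) (c : M.Conf),
      M.paths X true t c + M.paths X false t c ≤ 2 ^ (B * t))
    (i n κ : ℕ) (hκ1 : 1 ≤ κ) (hκ : (B + 1) * (tb d n + tb c (tb d n)) ≤ κ)
    (hn : 10 ^ 18 * κ ^ 5 ≤ 2 ^ n) (X : Oracle) (hX : ∀ u, X (cell i n u) = false)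
    (hfine : ∀ x : Finset (Fin (2 * n) → Bool),
      Fine M c (overlay X (cell i n) x) (outp D d (overlay X (cell i n) x) n)) :
    ∃ x : Finset (Fin (2 * n) → Bool), ∀ Y w, Y = overlay X (cell i n) x →
      w = outp D d Y n →
      (4 * x.card ≤ 2 ^ n ∧ 3 * M.rej Y (tb c w.length) w < M.acc Y (tb c w.length) w) ∨
      (4 * 2 ^ n ≤ x.card ∧ ¬ 3 * M.rej Y (tb c w.length) w < M.acc Y (tb c w.length) w)
      := by
  classical
  obtain ⟨la, hla, hla'⟩ := enc_comp M D c d n true
  obtain ⟨lr, hlr, hlr'⟩ := enc_comp M D c d n false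
  have hk : tb d n + tb c (tb d n) ≤ κ := le_trans (Nat.le_mul_of_pos_left _ (by omega)) hκ
  obtain ⟨PP, hPP, hPPw⟩ := restrict X (cell i n) (cell_injective i n) hX la κ
    (fun T hT => ⟨(hla' T hT).1.trans hk, (hla' T hT).2.trans hk⟩)
  obtain ⟨QQ, hQQ, hQQw⟩ := restrict X (cell i n) (cell_injective i n) hX lr κ
    (fun T hT => ⟨(hlr' T hT).1.trans hk, (hlr' T hT).2.trans hk⟩)
  let σ : Core.Sys (Fin (2 * n) → Bool) := ⟨PP, QQ⟩
  have hacc : ∀ x Y w, Y = overlay X (cell i n) x → w = outp D d Y n →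
      M.acc Y (tb c w.length) w = Core.cnt PP x := by
    intro x Y w hY hw
    subst hY hw
    rw [hPP, ← hla]; rfl
  have hrej : ∀ x Y w, Y = overlay X (cell i n) x → w = outp D d Y n →
      M.rej Y (tb c w.length) w = Core.cnt QQ x := by
    intro x Y w hY hw
    subst hY hw
    rw [hQQ, ← hlr]; rfl
  have hgood : σ.Good κ κ := by
    refine ⟨?_, ?_, ?_, ?_⟩
    · intro T hT
      rcases List.mem_append.1 hT with h | h
      · exact hPPw T h
      · exact hQQw T h
    · intro x
      have h1 := (hfine x).1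
      have h2 := paths_pos M _ _ _ h1
      have h3 := hacc x _ _ rfl rfl
      have h4 := hrej x _ _ rfl rfl
      unfold OTM.acc at h3
      unfold OTM.rej at h4
      rw [h3, h4] at h2
      show (1 : ℝ) ≤ (Core.cnt PP x : ℝ) + (Core.cnt QQ x : ℝ)
      exact_mod_cast h2
    · intro x
      have h2 := hB (overlay X (cell i n) x)
        (tb c (outp D d (overlay X (cell i n) x) n).length)
        (M.init (outp D d (overlay X (cell i n) x) n))
      have h3 := hacc x _ _ rfl rfl
      have h4 := hrej x _ _ rfl rfl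
      unfold OTM.acc at h3
      unfold OTM.rej at h4
      rw [h3, h4] at h2
      have h1 := (hfine x).1
      have h5 := paths_pos M _ _ _ h1
      rw [h3, h4] at h5
      have hpos : (0 : ℝ) < (Core.cnt PP x : ℝ) + (Core.cnt QQ x : ℝ) := by
        have : (1 : ℝ) ≤ (Core.cnt PP x : ℝ) + (Core.cnt QQ x : ℝ) := by exact_mod_cast h5
        linarith
      set t := tb c (outp D d (overlay X (cell i n) x) n).length with ht
      have hle : (Core.cnt PP x : ℝ) + (Core.cnt QQ x : ℝ) ≤ 2 ^ (B * t) := by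
        exact_mod_cast h2
      show Real.log ((Core.cnt PP x : ℝ) + (Core.cnt QQ x : ℝ)) ≤ κ
      have hlog : Real.log ((Core.cnt PP x : ℝ) + (Core.cnt QQ x : ℝ)) ≤
          (B * t : ℕ) * Real.log 2 := by
        rw [← Real.log_pow]
        exact Real.log_le_log hpos hle
      have hlog2 : Real.log 2 ≤ 1 := by
        have := Real.log_two_lt_d9
        linarith
      have hlog20 : 0 ≤ Real.log 2 := Real.log_nonneg (by norm_num)
      have htt : t ≤ tb c (tb d n) := tb_mono c (outp_length D d _ n)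
      have hBt : B * t ≤ κ := by
        calc B * t ≤ (B + 1) * (tb d n + tb c (tb d n)) := by
              apply Nat.mul_le_mul <;> omega
          _ ≤ κ := hκ
      have hBt' : ((B * t : ℕ) : ℝ) ≤ κ := by exact_mod_cast hBt
      calc _ ≤ ((B * t : ℕ) : ℝ) * Real.log 2 := hlog
        _ ≤ ((B * t : ℕ) : ℝ) * 1 := by gcongr
        _ ≤ κ := by linarith
    · intro x
      have h1 := (hfine x).2
      rw [hacc x _ _ rfl rfl, hrej x _ _ rfl rfl] at h1
      exact h1
  by_contra hcon
  push Not at hcon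
  refine Core.core hκ1 hgood ?_ hn ?_ ?_
  · simp [pow_mul]
  · intro x hx hF
    obtain ⟨Y, w, hY, hw, h1, h2⟩ := hcon x
    have := h1 hx
    rw [hacc x Y w hY hw, hrej x Y w hY hw] at this
    exact absurd hF (not_lt.2 this)
  · intro x hx
    obtain ⟨Y, w, hY, hw, h1, h2⟩ := hcon x
    have := h2 hx
    rw [hacc x Y w hY hw, hrej x Y w hY hw] at this
    exact this

end Pool.Agent.BPP
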