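import Pool.Agent.Helper90.BPP.MachDefs

namespace Pool.Agent.BPP

instance : Finite Dir := by
  refine Finite.of_injective (β := Fin 3) (fun d => match d with
    | .left => 0
    | .right => 1
    | .stay => 2) ?_
  intro a b h
  cases a <;> cases b <;> simp_all

theorem move_countable {Q G : Type} [Countable Q] [Countable G] : Countable (Move Q G) := by
  refine Function.Injective.countable
    (f := fun m : Move Q G => (m.next, m.write, m.dir, m.ask, m.out)) ?_
  rintro ⟨a, b, c, d, e⟩ ⟨a', b', c', d', e'⟩ h
  simpa using h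

theorem instr_countable {Q G : Type} [Countable Q] [Countable G] : Countable (Instr Q G) := by
  have := move_countable (Q := Q) (G := G)
  refine Function.Injective.countable
    (f := fun m : Instr Q G => (match m with
      | .halt b => Sum.inl b
      | .step f r => Sum.inr (Sum.inl (f, r))
      | .query y n => Sum.inr (Sum.inr (y, n)) :
        Bool ⊕ (Move Q G × Finset (Move Q G)) ⊕ (Q × Q))) ?_
  intro a b h
  cases a <;> cases b <;> simp_all

theorem otm_countable : Countable OTM := by
  have : ∀ a b : ℕ, Countable (Instr (Fin (a + 1)) (Fin (b + 3))) := fun a b => instr_countable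
  refine Function.Injective.countable
    (f := fun M : OTM => (⟨M.nq, M.ng, M.start, M.prog⟩ :
      Σ (a : ℕ) (b : ℕ), Fin (a + 1) × (Fin (a + 1) → Fin (b + 3) →
        Instr (Fin (a + 1)) (Fin (b + 3))))) ?_
  rintro ⟨a, b, s, p⟩ ⟨a', b', s', p'⟩ h
  simp only [Sigma.mk.injEq] at h
  obtain ⟨rfl, h⟩ := h
  rw [heq_eq_eq, Sigma.mk.injEq] at h
  obtain ⟨rfl, h⟩ := h
  rw [heq_eq_eq, Prod.mk.injEq] at h
  obtain ⟨rfl, rfl⟩ := h
  rfl

end Pool.Agent.BPP
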