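import Mathlib

/-!
Definitions for the query-complexity core: conical juntas (sums of conjunctions of
literals) on subsets of a finite set, and finite product expectation over label functions.
-/

namespace Pool.Agent.BPP.Core

open Finset

variable {α : Type} [Fintype α] [DecidableEq α]

/-- A conjunction of literals: all elements of the first set are present, all elements of
the second one are absent. -/
abbrev CT (α : Type) := Finset α × Finset α

/-- The conjunction `T` is satisfied by the set `x`. -/
def sat (x : Finset α) (T : CT α) : Bool := decide (T.1 ⊆ x ∧ Disjoint T.2 x)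

/-- Number of satisfied conjunctions. -/
def cnt (l : List (CT α)) (x : Finset α) : ℕ := l.countP (fun T => sat x T)

/-- A pair of lists of conjunctions: the accepting and the rejecting ones. -/
structure Sys (α : Type) where
  PP : List (CT α)
  QQ : List (CT α)

namespace Sys

/-- Total number of satisfied conjunctions. -/
def S (σ : Sys α) (x : Finset α) : ℝ := (cnt σ.PP x : ℝ) + (cnt σ.QQ x : ℝ)

/-- The system accepts `x`. -/
def F (σ : Sys α) (x : Finset α) : Prop := 3 * cnt σ.QQ x < cnt σ.PP x

instance (σ : Sys α) (x : Finset α) : Decidable (σ.F x) :=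
  inferInstanceAs (Decidable (3 * cnt σ.QQ x < cnt σ.PP x))

/-- Number of satisfied conjunctions in which `i` occurs negatively. -/
def neg (σ : Sys α) (x : Finset α) (i : α) : ℝ :=
  ((σ.PP ++ σ.QQ).countP (fun T => sat x T && decide (i ∈ T.2)) : ℕ)

/-- Number of satisfied conjunctions in which `i` occurs positively. -/
def pos (σ : Sys α) (x : Finset α) (i : α) : ℝ :=
  ((σ.PP ++ σ.QQ).countP (fun T => sat x T && decide (i ∈ T.1)) : ℕ)

/-- The standing assumptions: width at most `k`, at least one satisfied conjunction and at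
most `exp K` of them, and a total promise. -/
structure Good (σ : Sys α) (k : ℕ) (K : ℝ) : Prop where
  width : ∀ T ∈ σ.PP ++ σ.QQ, T.1.card ≤ k ∧ T.2.card ≤ k
  one : ∀ x, 1 ≤ σ.S x
  log_le : ∀ x, Real.log (σ.S x) ≤ K
  gap : ∀ x, 3 * cnt σ.QQ x < cnt σ.PP x ∨ 3 * cnt σ.PP x < cnt σ.QQ x

end Sys

/-- Expectation of `g` when the labels of the elements of `α` are independent with
weights `w`. -/
def EE {L : Type} [Fintype L] (w : L → ℝ) (g : (α → L) → ℝ) : ℝ :=
  ∑ ω : α → L, (∏ i, w (ω i)) * g ω

/-- The elements with label at most `j`. -/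
def lev {m : ℕ} (j : ℕ) (ω : α → Fin (m + 2)) : Finset α :=
  univ.filter (fun i => (ω i).val ≤ j)

/-- The weights: `q0` for label `0`, `h` for the labels `1, …, m`, the rest for `m + 1`. -/
def wt (m : ℕ) (q0 h : ℝ) : Fin (m + 2) → ℝ := fun t =>
  if t.val = 0 then q0 else if t.val ≤ m then h else 1 - q0 - m * h

/-- Probability of belonging to level `j`. -/
def qq (q0 h : ℝ) (j : ℕ) : ℝ := q0 + j * h

/-- Log-potential of the planted set `ρ` at level `j`. -/
noncomputable def Lam (σ : Sys α) (m : ℕ) (q0 h : ℝ) (j : ℕ) (ρ : Finset α) : ℝ :=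
  EE (wt m q0 h) (fun ω : α → Fin (m + 2) => Real.log (σ.S (lev j ω ∪ ρ)))

/-- Average negative load of `i` at level `j`. -/
noncomputable def nb (σ : Sys α) (m : ℕ) (q0 h : ℝ) (j : ℕ) (ρ : Finset α) (i : α) : ℝ :=
  EE (wt m q0 h) (fun ω : α → Fin (m + 2) => σ.neg (lev j ω ∪ ρ) i / σ.S (lev j ω ∪ ρ))

/-- Probability of acceptance at level `j` with planted set `ρ`. -/
noncomputable def ff (σ : Sys α) (m : ℕ) (q0 h : ℝ) (j : ℕ) (ρ : Finset α) : ℝ :=
  EE (wt m q0 h) (fun ω : α → Fin (m + 2) => if σ.F (lev j ω ∪ ρ) then 1 else 0)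

/-- Probability that planting `A` changes the answer, at level `j`. -/
noncomputable def flip (σ : Sys α) (m : ℕ) (q0 h : ℝ) (j : ℕ) (ρ A : Finset α) : ℝ :=
  EE (wt m q0 h) (fun ω : α → Fin (m + 2) =>
    if (σ.F (lev j ω ∪ ρ) ↔ σ.F ((lev j ω ∪ ρ) ∪ A)) then 0 else 1)

end Pool.Agent.BPP.Core
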