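import Mathlib

/-!
Nondeterministic oracle Turing machines with one two-way infinite work tape (which
initially holds the input), a write-only query tape and a write-only output tape;
computation paths, the class BPP_path relative to an oracle, polynomial-time functions
relative to an oracle and polynomial-time many-one reductions relative to an oracle.
-/

namespace Pool.Agent.BPP

/-- An oracle: the characteristic function of a set of binary strings. -/
abbrev Oracle := List Bool → Bool

/-- Movement of the head of the work tape. -/
inductive Dir
  | left
  | right
  | stay
  deriving DecidableEq

/-- A move: the next state, the symbol written on the scanned cell, the movement of the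
head, and the bit (if any) appended to the query tape and to the output tape. -/
structure Move (Q G : Type) where
  next : Q
  write : G
  dir : Dir
  ask : Option Bool
  out : Option Bool
  deriving DecidableEq

/-- What a machine does in a given state when it scans a given symbol: halt (accepting or
rejecting), choose nondeterministically one of a finite nonempty set of moves, or query
the oracle on the contents of the query tape and go to one of two states according to the
answer. -/
inductive Instr (Q G : Type)
  | halt (accept : Bool)
  | step (first : Move Q G) (others : Finset (Move Q G))
  | query (yes no : Q)

/-- A nondeterministic oracle Turing machine: the states are `0, …, nq`, the tape symbols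
are `0, …, ng + 2`, where `0` is the blank and `1`, `2` are the input symbols
(for the bits `false`, `true`). -/
structure OTM where
  nq : ℕ
  ng : ℕ
  start : Fin (nq + 1)
  prog : Fin (nq + 1) → Fin (ng + 3) → Instr (Fin (nq + 1)) (Fin (ng + 3))

/-- A configuration: the state, the work tape (`left` holds the symbols to the left of the
head, nearest first; `right` holds the scanned symbol and the ones to its right; all
further cells are blank), the contents of the query tape and of the output tape. -/
structure Cfg (Q G : Type) where
  state : Q
  left : List G
  right : List G
  qry : List Bool
  out : List Bool

/-- The configuration after a move. -/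
def Cfg.apply {Q : Type} {g : ℕ} (c : Cfg Q (Fin (g + 3))) (m : Move Q (Fin (g + 3))) :
    Cfg Q (Fin (g + 3)) where
  state := m.next
  left := match m.dir with
    | .left => c.left.tail
    | .right => m.write :: c.left
    | .stay => c.left
  right := match m.dir with
    | .left => c.left.headD 0 :: m.write :: c.right.tail
    | .right => c.right.tail
    | .stay => m.write :: c.right.tail
  qry := c.qry ++ m.ask.toList
  out := c.out ++ m.out.toList

/-- The configuration after a query: the query tape is erased. -/
def Cfg.goto {Q G : Type} (c : Cfg Q G) (q : Q) : Cfg Q G :=
  { c with state := q, qry := [] }

namespace OTM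

/-- Configurations of a machine. -/
abbrev Conf (M : OTM) := Cfg (Fin (M.nq + 1)) (Fin (M.ng + 3))

/-- The instruction executed at a configuration. -/
def instr (M : OTM) (c : M.Conf) : Instr (Fin (M.nq + 1)) (Fin (M.ng + 3)) :=
  M.prog c.state (c.right.headD 0)

/-- The initial configuration on input `w`. -/
def init (M : OTM) (w : List Bool) : M.Conf where
  state := M.start
  left := []
  right := w.map fun b => if b then 2 else 1
  qry := []
  out := []

/-- The number of computation paths of length at most `t` from the configuration `c`, with
oracle `A`, that halt and accept (`b = true`), respectively halt and reject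
(`b = false`). -/
def paths (M : OTM) (A : Oracle) (b : Bool) : ℕ → M.Conf → ℕ
  | 0, c => match M.instr c with
    | .halt a => if a = b then 1 else 0
    | .step _ _ => 0
    | .query _ _ => 0
  | t + 1, c => match M.instr c with
    | .halt a => if a = b then 1 else 0
    | .step f r => ∑ m ∈ insert f r, M.paths A b t (c.apply m)
    | .query y n => M.paths A b t (c.goto (if A c.qry then y else n))

/-- Every computation path from `c`, with oracle `A`, halts within `t` steps. -/
def HaltsIn (M : OTM) (A : Oracle) : ℕ → M.Conf → Prop
  | 0, c => match M.instr c with
    | .halt _ => True
    | .step _ _ => False
    | .query _ _ => False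
  | t + 1, c => match M.instr c with
    | .halt _ => True
    | .step f r => ∀ m ∈ insert f r, M.HaltsIn A t (c.apply m)
    | .query y n => M.HaltsIn A t (c.goto (if A c.qry then y else n))

/-- The machine is deterministic: it never has more than one move. -/
def Deterministic (M : OTM) : Prop :=
  ∀ q a f r, M.prog q a = .step f r → r = ∅

/-- One step of a deterministic machine (a halted configuration is left unchanged). -/
def next (M : OTM) (A : Oracle) (c : M.Conf) : M.Conf :=
  match M.instr c with
  | .halt _ => c
  | .step f _ => c.apply f
  | .query y n => c.goto (if A c.qry then y else n)

/-- `t` steps of a deterministic machine. -/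
def run (M : OTM) (A : Oracle) (t : ℕ) (c : M.Conf) : M.Conf := (M.next A)^[t] c

/-- The number of accepting paths of `M` on input `w` with oracle `A` and time bound `t`. -/
def acc (M : OTM) (A : Oracle) (t : ℕ) (w : List Bool) : ℕ := M.paths A true t (M.init w)

/-- The number of rejecting paths of `M` on input `w` with oracle `A` and time bound `t`. -/
def rej (M : OTM) (A : Oracle) (t : ℕ) (w : List Bool) : ℕ := M.paths A false t (M.init w)

end OTM

/-- The class BPP_path relative to the oracle `A`: some nondeterministic oracle machine
halts on every path within `|w| ^ c + c` steps and, for `w` in the language, more than 3/4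
of its paths accept, while for `w` outside the language more than 3/4 of them reject. -/
def BPPpath (A : Oracle) : Set (Set (List Bool)) :=
  {L | ∃ (M : OTM) (c : ℕ), ∀ w : List Bool,
    M.HaltsIn A (w.length ^ c + c) (M.init w) ∧
    (w ∈ L → 3 * (M.acc A (w.length ^ c + c) w + M.rej A (w.length ^ c + c) w) <
      4 * M.acc A (w.length ^ c + c) w) ∧
    (w ∉ L → 3 * (M.acc A (w.length ^ c + c) w + M.rej A (w.length ^ c + c) w) <
      4 * M.rej A (w.length ^ c + c) w)}

/-- `f` is computed in polynomial time by a deterministic machine with oracle `A`. -/
def PolyTimeFun (A : Oracle) (f : List Bool → List Bool) : Prop :=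
  ∃ (D : OTM) (d : ℕ), D.Deterministic ∧ ∀ w : List Bool,
    (∃ a, D.instr (D.run A (w.length ^ d + d) (D.init w)) = .halt a) ∧
    (D.run A (w.length ^ d + d) (D.init w)).out = f w

/-- Polynomial-time many-one reducibility relative to the oracle `A`. -/
def ManyOne (A : Oracle) (L C : Set (List Bool)) : Prop :=
  ∃ f : List Bool → List Bool, PolyTimeFun A f ∧ ∀ w, w ∈ L ↔ f w ∈ C

end Pool.Agent.BPP
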