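import Pool.Agent.Helper90.BPP.MachDefs

namespace Pool.Agent.BPP

open Filter

theorem eventually_pow_le (E : ℕ) : ∀ᶠ n : ℕ in atTop, n ^ E ≤ 2 ^ n := by
  have h := tendsto_pow_const_div_const_pow_of_one_lt E (r := (2 : ℝ)) (by norm_num)
  have h1 := h.eventually (ge_mem_nhds (show (0 : ℝ) < 1 by norm_num))
  filter_upwards [h1] with n hn
  have h2 : (0 : ℝ) < 2 ^ n := by positivity
  rw [div_le_one h2] at hn
  exact_mod_cast hn

theorem tb_le {c n : ℕ} (h2 : 2 ≤ n) (hc : c ≤ n) {m e : ℕ} (hm : m ≤ n ^ e) (he : 1 ≤ e) :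
    tb c m ≤ n ^ (e * c + 2) := by
  unfold tb
  have h1 : m ^ c ≤ n ^ (e * c) := by
    rw [pow_mul]
    exact Nat.pow_le_pow_left hm c
  have h3 : n ^ (e * c) * 1 ≤ n ^ (e * c) * n := Nat.mul_le_mul_left _ (by omega)
  have h4 : c ≤ n ^ (e * c) * n :=
    hc.trans (Nat.le_mul_of_pos_left n (by positivity))
  calc m ^ c + c ≤ n ^ (e * c) * n + n ^ (e * c) * n := by
        have := h1.trans (by simpa using h3)
        omega
    _ = 2 * (n ^ (e * c) * n) := by ring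
    _ ≤ n * (n ^ (e * c) * n) := Nat.mul_le_mul_right _ h2
    _ = n ^ (e * c + 2) := by ring

theorem grow (B c d n0 : ℕ) : ∃ n κ : ℕ, n0 ≤ n ∧ 1 ≤ κ ∧
    (B + 1) * (tb d n + tb c (tb d n)) ≤ κ ∧ 10 ^ 18 * κ ^ 5 ≤ 2 ^ n := by
  set e₁ := 1 * d + 2 with he₁
  set e₂ := e₁ * c + 2 with he₂
  set e₃ := e₁ + e₂ + 2 with he₃
  have hev := (eventually_pow_le (5 * e₃ + 1)).and
    ((eventually_ge_atTop n0).and ((eventually_ge_atTop (10 ^ 18)).and
      ((eventually_ge_atTop c).and ((eventually_ge_atTop d).and (eventually_ge_atTop (B + 1))))))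
  obtain ⟨n, h1, h2, h3, h4, h5, h6⟩ := hev.exists
  have hn2 : 2 ≤ n := le_trans (by norm_num) h3
  refine ⟨n, n ^ e₃, h2, Nat.one_le_pow _ _ (by omega), ?_, ?_⟩
  · have a1 : tb d n ≤ n ^ e₁ := tb_le (e := 1) hn2 h5 (by simp) le_rfl
    have a2 : tb c (tb d n) ≤ n ^ e₂ := tb_le hn2 h4 a1 (by omega)
    have b1 : n ^ e₁ ≤ n ^ (e₁ + e₂) := Nat.pow_le_pow_right (by omega) (by omega)
    have b2 : n ^ e₂ ≤ n ^ (e₁ + e₂) := Nat.pow_le_pow_right (by omega) (by omega)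
    calc (B + 1) * (tb d n + tb c (tb d n)) ≤ n * (n * n ^ (e₁ + e₂)) := by
          refine Nat.mul_le_mul h6 ?_
          calc tb d n + tb c (tb d n) ≤ 2 * n ^ (e₁ + e₂) := by omega
            _ ≤ n * n ^ (e₁ + e₂) := Nat.mul_le_mul_right _ hn2
      _ = n ^ e₃ := by rw [he₃]; ring
  · calc 10 ^ 18 * (n ^ e₃) ^ 5 ≤ n * (n ^ e₃) ^ 5 := Nat.mul_le_mul_right _ h3
      _ = n ^ (5 * e₃ + 1) := by ring
      _ ≤ 2 ^ n := h1

end Pool.Agent.BPP
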