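import Pool.Agent.Helper90.BPP.MachDefs

/-!
# MACH: an explicit machine for the test language
-/

namespace Pool.Agent.BPP

namespace Mach

open Finset

section general

variable {M : OTM} {A : Oracle} {b : Bool}

theorem paths_halt {c : M.Conf} {a : Bool} (h : M.instr c = .halt a) (t : ℕ) :
    M.paths A b t c = if a = b then 1 else 0 := by
  cases t <;> simp only [OTM.paths, h]

theorem paths_zero_step {c : M.Conf} {f : Move (Fin (M.nq + 1)) (Fin (M.ng + 3))}
    {r : Finset (Move (Fin (M.nq + 1)) (Fin (M.ng + 3)))} (h : M.instr c = .step f r) :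
    M.paths A b 0 c = 0 := by
  simp only [OTM.paths, h]

theorem paths_step {c : M.Conf} {f : Move (Fin (M.nq + 1)) (Fin (M.ng + 3))}
    {r : Finset (Move (Fin (M.nq + 1)) (Fin (M.ng + 3)))} (h : M.instr c = .step f r) (t : ℕ) :
    M.paths A b (t + 1) c = ∑ m ∈ insert f r, M.paths A b t (c.apply m) := by
  simp only [OTM.paths, h]

theorem paths_query {c : M.Conf} {y n : Fin (M.nq + 1)} (h : M.instr c = .query y n) (t : ℕ) :
    M.paths A b (t + 1) c = M.paths A b t (c.goto (if A c.qry then y else n)) := by
  simp only [OTM.paths, h]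

theorem halts_halt {c : M.Conf} {a : Bool} (h : M.instr c = .halt a) (t : ℕ) :
    M.HaltsIn A t c := by
  cases t <;> simp only [OTM.HaltsIn, h]

theorem halts_step {c : M.Conf} {f : Move (Fin (M.nq + 1)) (Fin (M.ng + 3))}
    {r : Finset (Move (Fin (M.nq + 1)) (Fin (M.ng + 3)))} (h : M.instr c = .step f r) (t : ℕ) :
    M.HaltsIn A (t + 1) c ↔ ∀ m ∈ insert f r, M.HaltsIn A t (c.apply m) := by
  simp only [OTM.HaltsIn, h]

theorem halts_query {c : M.Conf} {y n : Fin (M.nq + 1)} (h : M.instr c = .query y n) (t : ℕ) :
    M.HaltsIn A (t + 1) c ↔ M.HaltsIn A t (c.goto (if A c.qry then y else n)) := by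
  simp only [OTM.HaltsIn, h]

end general

/-- states -/
abbrev Q (i : ℕ) := Fin (i + 7 + 1)

/-- symbols -/
abbrev G := Fin (5 + 3)

/-- the state with a given number -/
def st (i k : ℕ) : Q i := ⟨min k (i + 7), by omega⟩

theorem st_val {i k : ℕ} (h : k ≤ i + 7) : (st i k).val = k := by
  simp only [st]
  omega

/-- a move without output -/
def mv {i : ℕ} (n : Q i) (a : G) (d : Dir) (k : Option Bool) : Move (Q i) G := ⟨n, a, d, k, none⟩

theorem mv_inj {i : ℕ} {n n' : Q i} {a a' : G} {d d' : Dir} {k k' : Option Bool}
    (h : mv n a d k = mv n' a' d' k') : n = n' ∧ a = a' ∧ k = k' := by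
  unfold mv at h
  injection h with h1 h2 h3 h4 h5
  exact ⟨h1, h2, h4⟩

/-- the program -/
def prog (i : ℕ) (q : Q i) (a : G) : Instr (Q i) G :=
  if q.val < i then .step (mv (st i (q.val + 1)) a .stay (some true)) ∅
  else if q.val = i then .step (mv (st i (i + 1)) a .stay (some false)) ∅
  else if q.val = i + 1 then
    (if a = 1 then .step (mv (st i (i + 2)) 1 .stay (some true))
        {mv (st i (i + 2)) 1 .stay (some false)}
      else if a = 0 then .query (st i (i + 3)) (st i (i + 7)) else .halt false)
  else if q.val = i + 2 then .step (mv (st i (i + 1)) a .right (some true))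
      {mv (st i (i + 1)) a .right (some false)}
  else if q.val = i + 3 then .step (mv (st i (i + 4)) a .left none) ∅
  else if q.val = i + 4 then
    (if a = 1 then .step (mv (st i (i + 4)) 0 .left none)
        (({1, 2, 3} : Finset G).image fun v => mv (st i (i + 4)) v .left none)
      else .halt true)
  else if q.val = i + 5 then
    (if a = 1 then .step (mv (st i (i + 5)) 0 .right none)
        ((univ.erase (0 : G)).image fun v => mv (st i (i + 5)) v .right none)
      else .halt false)
  else if q.val = i + 6 then .step (mv (st i (i + 5)) a .stay none)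
      {mv (st i 0) a .stay none}
  else .halt false

/-- the machine -/
abbrev mach (i : ℕ) : OTM := ⟨i + 7, 5, st i (i + 6), prog i⟩

/-- configurations -/
def cf (i s : ℕ) (L r : List G) (q : List Bool) : (mach i).Conf := ⟨st i s, L, r, q, []⟩

theorem instr_cf (i s : ℕ) (L r : List G) (q : List Bool) :
    (mach i).instr (cf i s L r q) = prog i (st i s) (r.headD 0) := rfl

theorem cf_stay (i s k : ℕ) (L r : List G) (q : List Bool) (a : G) (o : Option Bool) :
    (cf i s L r q).apply (mv (st i k) a .stay o) = cf i k L (a :: r.tail) (q ++ o.toList) := rfl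

theorem cf_right (i s k : ℕ) (L r : List G) (q : List Bool) (a : G) (o : Option Bool) :
    (cf i s L r q).apply (mv (st i k) a .right o) = cf i k (a :: L) r.tail (q ++ o.toList) := rfl

theorem cf_left (i s k : ℕ) (L r : List G) (q : List Bool) (a : G) (o : Option Bool) :
    (cf i s L r q).apply (mv (st i k) a .left o) =
      cf i k L.tail (L.headD 0 :: a :: r.tail) (q ++ o.toList) := rfl

section

variable {i : ℕ} {X : Oracle}

/-! ### the program, state by state -/

theorem prog_P {t : ℕ} (h : t < i) (a : G) :
    prog i (st i t) a = .step (mv (st i (t + 1)) a .stay (some true)) ∅ := by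
  have h1 : (st i t).val = t := st_val (by omega)
  simp only [prog, h1, if_pos h]

theorem prog_Pi (a : G) :
    prog i (st i i) a = .step (mv (st i (i + 1)) a .stay (some false)) ∅ := by
  have h1 : (st i i).val = i := st_val (by omega)
  simp only [prog, h1, lt_irrefl, if_false, if_true]

theorem prog_G0 (a : G) :
    prog i (st i (i + 1)) a = if a = 1 then .step (mv (st i (i + 2)) 1 .stay (some true))
        {mv (st i (i + 2)) 1 .stay (some false)}
      else if a = 0 then .query (st i (i + 3)) (st i (i + 7)) else .halt false := by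
  have h1 : (st i (i + 1)).val = i + 1 := st_val (by omega)
  have h2 : ¬ (i + 1 < i) := by omega
  have h3 : ¬ (i + 1 = i) := by omega
  simp only [prog, h1, h2, h3, if_false, if_true]

theorem prog_G1 (a : G) :
    prog i (st i (i + 2)) a = .step (mv (st i (i + 1)) a .right (some true))
      {mv (st i (i + 1)) a .right (some false)} := by
  have h1 : (st i (i + 2)).val = i + 2 := st_val (by omega)
  have h2 : ¬ (i + 2 < i) := by omega
  have h3 : ¬ (i + 2 = i) := by omega
  have h4 : ¬ (i + 2 = i + 1) := by omega
  simp only [prog, h1, h2, h3, h4, if_false, if_true]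

theorem prog_Y0 (a : G) :
    prog i (st i (i + 3)) a = .step (mv (st i (i + 4)) a .left none) ∅ := by
  have h1 : (st i (i + 3)).val = i + 3 := st_val (by omega)
  have h2 : ¬ (i + 3 < i) := by omega
  have h3 : ¬ (i + 3 = i) := by omega
  have h4 : ¬ (i + 3 = i + 1) := by omega
  have h5 : ¬ (i + 3 = i + 2) := by omega
  simp only [prog, h1, h2, h3, h4, h5, if_false, if_true]

theorem prog_Y (a : G) :
    prog i (st i (i + 4)) a = if a = 1 then .step (mv (st i (i + 4)) 0 .left none)
        (({1, 2, 3} : Finset G).image fun v => mv (st i (i + 4)) v .left none)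
      else .halt true := by
  have h1 : (st i (i + 4)).val = i + 4 := st_val (by omega)
  have h2 : ¬ (i + 4 < i) := by omega
  have h3 : ¬ (i + 4 = i) := by omega
  have h4 : ¬ (i + 4 = i + 1) := by omega
  have h5 : ¬ (i + 4 = i + 2) := by omega
  have h6 : ¬ (i + 4 = i + 3) := by omega
  simp only [prog, h1, h2, h3, h4, h5, h6, if_false, if_true]

theorem prog_R (a : G) :
    prog i (st i (i + 5)) a = if a = 1 then .step (mv (st i (i + 5)) 0 .right none)
        ((univ.erase (0 : G)).image fun v => mv (st i (i + 5)) v .right none)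
      else .halt false := by
  have h1 : (st i (i + 5)).val = i + 5 := st_val (by omega)
  have h2 : ¬ (i + 5 < i) := by omega
  have h3 : ¬ (i + 5 = i) := by omega
  have h4 : ¬ (i + 5 = i + 1) := by omega
  have h5 : ¬ (i + 5 = i + 2) := by omega
  have h6 : ¬ (i + 5 = i + 3) := by omega
  have h7 : ¬ (i + 5 = i + 4) := by omega
  simp only [prog, h1, h2, h3, h4, h5, h6, h7, if_false, if_true]

theorem prog_S (a : G) :
    prog i (st i (i + 6)) a = .step (mv (st i (i + 5)) a .stay none)
      {mv (st i 0) a .stay none} := by
  have h1 : (st i (i + 6)).val = i + 6 := st_val (by omega)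
  have h2 : ¬ (i + 6 < i) := by omega
  have h3 : ¬ (i + 6 = i) := by omega
  have h4 : ¬ (i + 6 = i + 1) := by omega
  have h5 : ¬ (i + 6 = i + 2) := by omega
  have h6 : ¬ (i + 6 = i + 3) := by omega
  have h7 : ¬ (i + 6 = i + 4) := by omega
  have h8 : ¬ (i + 6 = i + 5) := by omega
  simp only [prog, h1, h2, h3, h4, h5, h6, h7, h8, if_false, if_true]

theorem prog_J (a : G) : prog i (st i (i + 7)) a = .halt false := by
  have h1 : (st i (i + 7)).val = i + 7 := st_val (by omega)
  have h2 : ¬ (i + 7 < i) := by omega
  have h3 : ¬ (i + 7 = i) := by omega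
  have h4 : ¬ (i + 7 = i + 1) := by omega
  have h5 : ¬ (i + 7 = i + 2) := by omega
  have h6 : ¬ (i + 7 = i + 3) := by omega
  have h7 : ¬ (i + 7 = i + 4) := by omega
  have h8 : ¬ (i + 7 = i + 5) := by omega
  have h9 : ¬ (i + 7 = i + 6) := by omega
  simp only [prog, h1, h2, h3, h4, h5, h6, h7, h8, h9, if_false]

/-! ### the accepting phase -/

theorem Y_halts (L : List G) : ∀ (a : G) (r : List G) (q : List Bool) (t : ℕ), L.length + 1 ≤ t →
    (mach i).HaltsIn X t (cf i (i + 4) L (a :: r) q) := by
  induction L with
  | nil =>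
    intro a r q t ht
    by_cases ha : a = 1
    · obtain ⟨t', rfl⟩ : ∃ t', t = t' + 1 := ⟨t - 1, by simp at ht; omega⟩
      subst ha
      have h1 : (mach i).instr (cf i (i + 4) [] (1 :: r) q) = .step (mv (st i (i + 4)) 0 .left none)
          (({1, 2, 3} : Finset G).image fun v => mv (st i (i + 4)) v .left none) := by
        rw [instr_cf]; exact (prog_Y 1).trans (if_pos rfl)
      rw [halts_step h1]
      intro m hm
      have h2 : ∃ v : G, m = mv (st i (i + 4)) v .left none := by
        rcases mem_insert.1 hm with h | h
        · exact ⟨0, h⟩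
        · obtain ⟨v, _, hv⟩ := mem_image.1 h
          exact ⟨v, hv.symm⟩
      obtain ⟨v, rfl⟩ := h2
      rw [cf_left]
      exact halts_halt (a := true) (by rw [instr_cf]; exact (prog_Y 0).trans (if_neg (by decide))) _
    · exact halts_halt (a := true) (by rw [instr_cf]; exact (prog_Y a).trans (if_neg ha)) _
  | cons x L ih =>
    intro a r q t ht
    by_cases ha : a = 1
    · obtain ⟨t', rfl⟩ : ∃ t', t = t' + 1 := ⟨t - 1, by simp at ht; omega⟩
      subst ha
      have h1 : (mach i).instr (cf i (i + 4) (x :: L) (1 :: r) q) =
          .step (mv (st i (i + 4)) 0 .left none)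
          (({1, 2, 3} : Finset G).image fun v => mv (st i (i + 4)) v .left none) := by
        rw [instr_cf]; exact (prog_Y 1).trans (if_pos rfl)
      rw [halts_step h1]
      intro m hm
      have h2 : ∃ v : G, m = mv (st i (i + 4)) v .left none := by
        rcases mem_insert.1 hm with h | h
        · exact ⟨0, h⟩
        · obtain ⟨v, _, hv⟩ := mem_image.1 h
          exact ⟨v, hv.symm⟩
      obtain ⟨v, rfl⟩ := h2
      rw [cf_left]
      refine ih _ _ _ _ ?_
      simp only [List.length_cons] at ht
      omega
    · exact halts_halt (a := true) (by rw [instr_cf]; exact (prog_Y a).trans (if_neg ha)) _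

theorem sum_four (F : Move (Q i) G → ℕ) (s : Q i) (c : ℕ)
    (h : ∀ v : G, F (mv s v .left none) = c) :
    ∑ m ∈ insert (mv s 0 .left none) (({1, 2, 3} : Finset G).image fun v => mv s v .left none),
      F m = 4 * c := by
  have h1 : insert (mv s (0 : G) .left none)
      (({1, 2, 3} : Finset G).image fun v => mv s v .left none) =
      ({0, 1, 2, 3} : Finset G).image fun v => mv s v .left none := by
    rw [image_insert (s := {1, 2, 3}) (a := (0 : G))]
  rw [h1, sum_image (fun x _ y _ hxy => (mv_inj hxy).2.1), sum_congr rfl (fun v _ => h v),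
    sum_const]
  rfl

theorem sum_eight (F : Move (Q i) G → ℕ) (s : Q i) (c : ℕ)
    (h : ∀ v : G, F (mv s v .right none) = c) :
    ∑ m ∈ insert (mv s 0 .right none) ((univ.erase (0 : G)).image fun v => mv s v .right none),
      F m = 8 * c := by
  have h1 : insert (mv s (0 : G) .right none)
      ((univ.erase (0 : G)).image fun v => mv s v .right none) =
      (univ : Finset G).image fun v => mv s v .right none := by
    conv_rhs => rw [← insert_erase (mem_univ (0 : G)), image_insert]
  rw [h1, sum_image (fun x _ y _ hxy => (mv_inj hxy).2.1), sum_congr rfl (fun v _ => h v),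
    sum_const]
  rfl

theorem Y_blank (L r : List G) (q : List Bool) (b : Bool) (t : ℕ) :
    (mach i).paths X b t (cf i (i + 4) L (0 :: r) q) = if true = b then 1 else 0 :=
  paths_halt (by rw [instr_cf]; exact (prog_Y 0).trans (if_neg (by decide))) _

theorem Y_paths (b : Bool) (k : ℕ) : ∀ (r : List G) (q : List Bool) (t : ℕ), k + 1 ≤ t →
    (mach i).paths X b t (cf i (i + 4) (List.replicate k 1) (1 :: r) q) =
      if true = b then 4 ^ (k + 1) else 0 := by
  induction k with
  | zero =>
    intro r q t ht
    obtain ⟨t', rfl⟩ : ∃ t', t = t' + 1 := ⟨t - 1, by omega⟩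
    have h1 : (mach i).instr (cf i (i + 4) (List.replicate 0 1) (1 :: r) q) =
        .step (mv (st i (i + 4)) 0 .left none)
        (({1, 2, 3} : Finset G).image fun v => mv (st i (i + 4)) v .left none) := by
      rw [instr_cf]; exact (prog_Y 1).trans (if_pos rfl)
    rw [paths_step h1]
    rw [sum_four (fun m => (mach i).paths X b t' ((cf i (i + 4) (List.replicate 0 1) (1 :: r) q).apply
      m)) (st i (i + 4)) (if true = b then 1 else 0)]
    · split_ifs <;> simp
    · intro v
      rw [cf_left]
      exact Y_blank _ _ _ _ _
  | succ k ih =>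
    intro r q t ht
    obtain ⟨t', rfl⟩ : ∃ t', t = t' + 1 := ⟨t - 1, by omega⟩
    have h1 : (mach i).instr (cf i (i + 4) (List.replicate (k + 1) 1) (1 :: r) q) =
        .step (mv (st i (i + 4)) 0 .left none)
        (({1, 2, 3} : Finset G).image fun v => mv (st i (i + 4)) v .left none) := by
      rw [instr_cf]; exact (prog_Y 1).trans (if_pos rfl)
    rw [paths_step h1]
    rw [sum_four (fun m => (mach i).paths X b t' ((cf i (i + 4) (List.replicate (k + 1) 1)
      (1 :: r) q).apply m)) (st i (i + 4)) (if true = b then 4 ^ (k + 1) else 0)]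
    · split_ifs
      · ring
      · rfl
    · intro v
      rw [cf_left]
      exact ih _ _ _ (by omega)

theorem Y0_paths (b : Bool) (m : ℕ) (r : List G) (q : List Bool) (t : ℕ) (ht : m + 1 ≤ t) :
    (mach i).paths X b (t + 1) (cf i (i + 3) (List.replicate m 1) r q) =
      if true = b then 4 ^ m else 0 := by
  have h1 : (mach i).instr (cf i (i + 3) (List.replicate m 1) r q) =
      .step (mv (st i (i + 4)) (r.headD 0) .left none) ∅ := by
    rw [instr_cf]; exact prog_Y0 _
  rw [paths_step h1, insert_empty_eq, sum_singleton, cf_left]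
  cases m with
  | zero => exact Y_blank _ _ _ _ _
  | succ m => exact Y_paths b m _ _ t (by omega)

theorem Y0_halts (L r : List G) (q : List Bool) (t : ℕ) (ht : L.length + 1 ≤ t) :
    (mach i).HaltsIn X (t + 1) (cf i (i + 3) L r q) := by
  have h1 : (mach i).instr (cf i (i + 3) L r q) =
      .step (mv (st i (i + 4)) (r.headD 0) .left none) ∅ := by
    rw [instr_cf]; exact prog_Y0 _
  rw [halts_step h1]
  intro m hm
  rw [insert_empty_eq, mem_singleton] at hm
  subst hm
  rw [cf_left]
  refine Y_halts _ _ _ _ _ ?_
  simp only [List.length_tail]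
  omega

/-! ### the guessing phase -/

/-- number of extensions in the oracle -/
def N1 (X : Oracle) : ℕ → List Bool → ℕ
  | 0, q => if X q then 1 else 0
  | k + 1, q => N1 X k (q ++ [true]) + N1 X k (q ++ [false])

/-- number of extensions not in the oracle -/
def N0 (X : Oracle) : ℕ → List Bool → ℕ
  | 0, q => if X q then 0 else 1
  | k + 1, q => N0 X k (q ++ [true]) + N0 X k (q ++ [false])

theorem N_add (X : Oracle) (k : ℕ) : ∀ q, N1 X k q + N0 X k q = 2 ^ k := by
  induction k with
  | zero => intro q; simp only [N1, N0]; split_ifs <;> rfl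
  | succ k ih =>
    intro q
    simp only [N1, N0]
    have h1 := ih (q ++ [true])
    have h2 := ih (q ++ [false])
    rw [pow_succ]
    omega

/-- symbols of the input -/
def sym (b : Bool) : G := if b then 2 else 1

def Zs (z : List G) : Prop := ∀ x ∈ z, x = 0

theorem Zs.head {z : List G} (h : Zs z) : z.headD 0 = 0 := by
  cases z with
  | nil => rfl
  | cons a z => exact h a (by simp)

theorem instr_G0_one (L r : List G) (q : List Bool) :
    (mach i).instr (cf i (i + 1) L (1 :: r) q) = .step (mv (st i (i + 2)) 1 .stay (some true))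
        {mv (st i (i + 2)) 1 .stay (some false)} := by
  rw [instr_cf]; exact (prog_G0 1).trans (if_pos rfl)

theorem instr_G0_zero (L z : List G) (hz : Zs z) (q : List Bool) :
    (mach i).instr (cf i (i + 1) L z q) = .query (st i (i + 3)) (st i (i + 7)) := by
  rw [instr_cf, hz.head]
  exact (prog_G0 0).trans ((if_neg (by decide)).trans (if_pos rfl))

theorem instr_G0_two (L r : List G) (q : List Bool) :
    (mach i).instr (cf i (i + 1) L (2 :: r) q) = .halt false := by
  rw [instr_cf]; exact (prog_G0 2).trans ((if_neg (by decide)).trans (if_neg (by decide)))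

theorem goto_yes (s : ℕ) (L r : List G) (q : List Bool) (h : X q = true) (y n : ℕ) :
    (cf i s L r q).goto (if X (cf i s L r q).qry then st i y else st i n) = cf i y L r [] := by
  have : X (cf i s L r q).qry = true := h
  rw [this]; rfl

theorem goto_no (s : ℕ) (L r : List G) (q : List Bool) (h : X q = false) (y n : ℕ) :
    (cf i s L r q).goto (if X (cf i s L r q).qry then st i y else st i n) = cf i n L r [] := by
  have : X (cf i s L r q).qry = false := h
  rw [this]; rfl

theorem J_paths (L r : List G) (q : List Bool) (b : Bool) (t : ℕ) :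
    (mach i).paths X b t (cf i (i + 7) L r q) = if false = b then 1 else 0 :=
  paths_halt (by rw [instr_cf]; exact prog_J _) _

/-- two steps of the guessing phase -/
theorem G_two (b : Bool) (L r : List G) (q : List Bool) (t : ℕ) :
    (mach i).paths X b (t + 1 + 1) (cf i (i + 1) L (1 :: r) q) =
      ((mach i).paths X b t (cf i (i + 1) (1 :: L) r (q ++ [true] ++ [true])) +
        (mach i).paths X b t (cf i (i + 1) (1 :: L) r (q ++ [true] ++ [false]))) +
      ((mach i).paths X b t (cf i (i + 1) (1 :: L) r (q ++ [false] ++ [true])) +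
        (mach i).paths X b t (cf i (i + 1) (1 :: L) r (q ++ [false] ++ [false]))) := by
  have key : ∀ q', (mach i).paths X b (t + 1) (cf i (i + 2) L (1 :: r) q') =
      (mach i).paths X b t (cf i (i + 1) (1 :: L) r (q' ++ [true])) +
        (mach i).paths X b t (cf i (i + 1) (1 :: L) r (q' ++ [false])) := by
    intro q'
    have h1 : (mach i).instr (cf i (i + 2) L (1 :: r) q') =
        .step (mv (st i (i + 1)) 1 .right (some true))
        {mv (st i (i + 1)) 1 .right (some false)} := by
      rw [instr_cf]; exact prog_G1 1
    rw [paths_step h1, sum_pair]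
    · rw [cf_right, cf_right]; rfl
    · intro h
      have := (mv_inj h).2.2
      simp at this
  rw [paths_step (instr_G0_one L r q), sum_pair]
  · rw [cf_stay, cf_stay]
    exact congrArg₂ (· + ·) (key _) (key _)
  · intro h
    have := (mv_inj h).2.2
    simp at this

theorem G_paths (k : ℕ) : ∀ (m : ℕ) (z : List G) (q : List Bool) (t : ℕ), Zs z →
    2 * k + (m + k) + 3 ≤ t →
    (mach i).paths X true t (cf i (i + 1) (List.replicate m 1) (List.replicate k 1 ++ z) q) =
      N1 X (2 * k) q * 4 ^ (m + k) ∧
    (mach i).paths X false t (cf i (i + 1) (List.replicate m 1) (List.replicate k 1 ++ z) q) =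
      N0 X (2 * k) q := by
  induction k with
  | zero =>
    intro m z q t hz ht
    obtain ⟨t', rfl⟩ : ∃ t', t = t' + 1 + 1 := ⟨t - 2, by omega⟩
    have h1 := instr_G0_zero (i := i) (List.replicate m 1) z hz q
    have e : (List.replicate 0 (1 : G) ++ z) = z := rfl
    rw [e, paths_query h1, paths_query h1]
    cases hX : X q with
    | true =>
      rw [goto_yes _ _ _ _ hX, Y0_paths true m z [] t' (by omega),
        Y0_paths false m z [] t' (by omega)]
      simp [N1, N0, hX]
    | false =>
      rw [goto_no _ _ _ _ hX, J_paths, J_paths]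
      simp [N1, N0, hX]
  | succ k ih =>
    intro m z q t hz ht
    obtain ⟨t', rfl⟩ : ∃ t', t = t' + 1 + 1 := ⟨t - 2, by omega⟩
    have e : (List.replicate (k + 1) (1 : G) ++ z) = 1 :: (List.replicate k 1 ++ z) := rfl
    have e' : (1 : G) :: List.replicate m 1 = List.replicate (m + 1) 1 := rfl
    rw [e, G_two, G_two, e']
    have h := fun q' => ih (m + 1) z q' t' hz (by omega)
    constructor
    · rw [(h _).1, (h _).1, (h _).1, (h _).1]
      have e2 : 2 * (k + 1) = 2 * k + 1 + 1 := by ring
      rw [e2]
      simp only [N1]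
      have e3 : m + (k + 1) = m + 1 + k := by ring
      rw [e3]
      ring
    · rw [(h _).2, (h _).2, (h _).2, (h _).2]
      have e2 : 2 * (k + 1) = 2 * k + 1 + 1 := by ring
      rw [e2]
      simp only [N0]

theorem G_halts (w : List Bool) : ∀ (L z : List G) (q : List Bool) (t : ℕ), Zs z →
    L.length + 3 * w.length + 3 ≤ t →
    (mach i).HaltsIn X t (cf i (i + 1) L (w.map sym ++ z) q) := by
  induction w with
  | nil =>
    intro L z q t hz ht
    obtain ⟨t', rfl⟩ : ∃ t', t = t' + 1 + 1 := ⟨t - 2, by omega⟩
    have e : (([] : List Bool).map sym ++ z) = z := rfl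
    rw [e, halts_query (instr_G0_zero L z hz q)]
    cases hX : X q with
    | true =>
      rw [goto_yes _ _ _ _ hX]
      refine Y0_halts _ _ _ _ ?_
      simp only [List.length_nil] at ht
      omega
    | false =>
      rw [goto_no _ _ _ _ hX]
      exact halts_halt (a := false) (by rw [instr_cf]; exact prog_J _) _
  | cons b w ih =>
    intro L z q t hz ht
    simp only [List.length_cons] at ht
    obtain ⟨t', rfl⟩ : ∃ t', t = t' + 1 + 1 := ⟨t - 2, by omega⟩
    have e : ((b :: w).map sym ++ z) = sym b :: (w.map sym ++ z) := rfl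
    rw [e]
    cases b with
    | true => exact halts_halt (a := false) (instr_G0_two L _ q) _
    | false =>
      have e1 : sym false = 1 := rfl
      rw [e1, halts_step (instr_G0_one L _ q)]
      intro m hm
      have h2 : ∃ o, m = mv (st i (i + 2)) 1 .stay o := by
        rcases mem_insert.1 hm with h | h
        · exact ⟨_, h⟩
        · exact ⟨_, mem_singleton.1 h⟩
      obtain ⟨o, rfl⟩ := h2
      rw [cf_stay]
      have h1 : (mach i).instr (cf i (i + 2) L (1 :: (1 :: (w.map sym ++ z)).tail)
          (q ++ o.toList)) = .step (mv (st i (i + 1)) 1 .right (some true))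
          {mv (st i (i + 1)) 1 .right (some false)} := by
        rw [instr_cf]; exact prog_G1 1
      rw [halts_step h1]
      intro m hm
      have h2 : ∃ o, m = mv (st i (i + 1)) 1 .right o := by
        rcases mem_insert.1 hm with h | h
        · exact ⟨_, h⟩
        · exact ⟨_, mem_singleton.1 h⟩
      obtain ⟨o', rfl⟩ := h2
      rw [cf_right]
      refine ih (1 :: L) z _ t' hz ?_
      simp only [List.length_cons]
      omega

theorem G_zero (w : List Bool) (hw : true ∈ w) : ∀ (L z : List G) (q : List Bool) (t : ℕ),
    (mach i).paths X true t (cf i (i + 1) L (w.map sym ++ z) q) = 0 := by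
  induction w with
  | nil => simp at hw
  | cons b w ih =>
    intro L z q t
    have e : ((b :: w).map sym ++ z) = sym b :: (w.map sym ++ z) := rfl
    rw [e]
    cases b with
    | true =>
      have e1 : sym true = 2 := rfl
      rw [e1, paths_halt (instr_G0_two L _ q)]
      rfl
    | false =>
      have hw' : true ∈ w := by simpa using hw
      have e1 : sym false = 1 := rfl
      rw [e1]
      match t with
      | 0 => exact paths_zero_step (instr_G0_one L _ q)
      | 1 =>
        rw [paths_step (instr_G0_one L _ q)]
        refine sum_eq_zero (fun m hm => ?_)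
        have h2 : ∃ o, m = mv (st i (i + 2)) 1 .stay o := by
          rcases mem_insert.1 hm with h | h
          · exact ⟨_, h⟩
          · exact ⟨_, mem_singleton.1 h⟩
        obtain ⟨o, rfl⟩ := h2
        rw [cf_stay]
        exact paths_zero_step (by rw [instr_cf]; exact prog_G1 1)
      | t + 1 + 1 =>
        rw [G_two, ih hw', ih hw', ih hw', ih hw']

/-! ### the rejecting phase -/

theorem R_true (t : ℕ) : ∀ (L r : List G) (q : List Bool),
    (mach i).paths X true t (cf i (i + 5) L r q) = 0 := by
  induction t with
  | zero =>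
    intro L r q
    by_cases ha : r.headD 0 = 1
    · exact paths_zero_step (by rw [instr_cf]; exact (prog_R _).trans (if_pos ha))
    · rw [paths_halt (a := false) (by rw [instr_cf]; exact (prog_R _).trans (if_neg ha))]
      rfl
  | succ t ih =>
    intro L r q
    by_cases ha : r.headD 0 = 1
    · have h1 : (mach i).instr (cf i (i + 5) L r q) = .step (mv (st i (i + 5)) 0 .right none)
        ((univ.erase (0 : G)).image fun v => mv (st i (i + 5)) v .right none) := by
        rw [instr_cf]; exact (prog_R _).trans (if_pos ha)
      rw [paths_step h1]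
      refine sum_eq_zero (fun m hm => ?_)
      have h2 : ∃ v : G, m = mv (st i (i + 5)) v .right none := by
        rcases mem_insert.1 hm with h | h
        · exact ⟨0, h⟩
        · obtain ⟨v, _, hv⟩ := mem_image.1 h
          exact ⟨v, hv.symm⟩
      obtain ⟨v, rfl⟩ := h2
      rw [cf_right]
      exact ih _ _ _
    · rw [paths_halt (a := false) (by rw [instr_cf]; exact (prog_R _).trans (if_neg ha))]
      rfl

theorem R_halts (r : List G) : ∀ (L : List G) (q : List Bool) (t : ℕ), r.length ≤ t →
    (mach i).HaltsIn X t (cf i (i + 5) L r q) := by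
  induction r with
  | nil =>
    intro L q t _
    exact halts_halt (a := false) (by rw [instr_cf]; exact (prog_R _).trans (if_neg (by decide))) _
  | cons a r ih =>
    intro L q t ht
    simp only [List.length_cons] at ht
    obtain ⟨t', rfl⟩ : ∃ t', t = t' + 1 := ⟨t - 1, by omega⟩
    by_cases ha : a = 1
    · have h1 : (mach i).instr (cf i (i + 5) L (a :: r) q) = .step (mv (st i (i + 5)) 0 .right none)
        ((univ.erase (0 : G)).image fun v => mv (st i (i + 5)) v .right none) := by
        rw [instr_cf]; exact (prog_R _).trans (if_pos ha)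
      rw [halts_step h1]
      intro m hm
      have h2 : ∃ v : G, m = mv (st i (i + 5)) v .right none := by
        rcases mem_insert.1 hm with h | h
        · exact ⟨0, h⟩
        · obtain ⟨v, _, hv⟩ := mem_image.1 h
          exact ⟨v, hv.symm⟩
      obtain ⟨v, rfl⟩ := h2
      rw [cf_right]
      exact ih _ _ _ (by omega)
    · exact halts_halt (a := false) (by rw [instr_cf]; exact (prog_R _).trans (if_neg ha)) _

theorem R_pos (r : List G) : ∀ (L : List G) (q : List Bool) (t : ℕ), r.length ≤ t →
    1 ≤ (mach i).paths X false t (cf i (i + 5) L r q) := by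
  induction r with
  | nil =>
    intro L q t _
    rw [paths_halt (a := false) (by rw [instr_cf]; exact (prog_R _).trans (if_neg (by decide)))]
    simp
  | cons a r ih =>
    intro L q t ht
    simp only [List.length_cons] at ht
    obtain ⟨t', rfl⟩ : ∃ t', t = t' + 1 := ⟨t - 1, by omega⟩
    by_cases ha : a = 1
    · have h1 : (mach i).instr (cf i (i + 5) L (a :: r) q) = .step (mv (st i (i + 5)) 0 .right none)
        ((univ.erase (0 : G)).image fun v => mv (st i (i + 5)) v .right none) := by
        rw [instr_cf]; exact (prog_R _).trans (if_pos ha)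
      rw [paths_step h1]
      refine le_trans ?_ (single_le_sum (fun _ _ => Nat.zero_le _) (mem_insert_self _ _))
      rw [cf_right]
      exact ih _ _ _ (by omega)
    · rw [paths_halt (a := false) (by rw [instr_cf]; exact (prog_R _).trans (if_neg ha))]
      simp

theorem R_false (k : ℕ) : ∀ (L z : List G) (q : List Bool) (t : ℕ), Zs z → k ≤ t →
    (mach i).paths X false t (cf i (i + 5) L (List.replicate k 1 ++ z) q) = 8 ^ k := by
  induction k with
  | zero =>
    intro L z q t hz _
    have e : (List.replicate 0 (1 : G) ++ z) = z := rfl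
    rw [e, paths_halt (a := false) (by
      rw [instr_cf, hz.head]; exact (prog_R _).trans (if_neg (by decide)))]
    simp
  | succ k ih =>
    intro L z q t hz ht
    obtain ⟨t', rfl⟩ : ∃ t', t = t' + 1 := ⟨t - 1, by omega⟩
    have e : (List.replicate (k + 1) (1 : G) ++ z) = 1 :: (List.replicate k 1 ++ z) := rfl
    rw [e]
    have h1 : (mach i).instr (cf i (i + 5) L (1 :: (List.replicate k 1 ++ z)) q) =
        .step (mv (st i (i + 5)) 0 .right none)
        ((univ.erase (0 : G)).image fun v => mv (st i (i + 5)) v .right none) := by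
      rw [instr_cf]; exact (prog_R 1).trans (if_pos rfl)
    rw [paths_step h1]
    rw [sum_eight (fun m => (mach i).paths X false t' ((cf i (i + 5) L
      (1 :: (List.replicate k 1 ++ z)) q).apply m)) (st i (i + 5)) (8 ^ k)]
    · ring
    · intro v
      rw [cf_right]
      exact ih _ _ _ _ hz (by omega)

/-! ### the prefix -/

theorem P_paths (b : Bool) (j : ℕ) : j ≤ i → ∀ (L r : List G) (a : G) (q : List Bool) (t : ℕ),
    (mach i).paths X b (t + (j + 1)) (cf i (i - j) L (a :: r) q) =
      (mach i).paths X b t (cf i (i + 1) L (a :: r) (q ++ (List.replicate j true ++ [false]))) := by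
  induction j with
  | zero =>
    intro _ L r a q t
    have h1 : (mach i).instr (cf i (i - 0) L (a :: r) q) =
        .step (mv (st i (i + 1)) a .stay (some false)) ∅ := by
      rw [instr_cf]; exact prog_Pi a
    rw [paths_step h1, insert_empty_eq, sum_singleton, cf_stay]
    rfl
  | succ j ih =>
    intro hj L r a q t
    have h1 : (mach i).instr (cf i (i - (j + 1)) L (a :: r) q) =
        .step (mv (st i (i - (j + 1) + 1)) a .stay (some true)) ∅ := by
      rw [instr_cf]; exact prog_P (by omega) a
    have e : t + (j + 1 + 1) = t + (j + 1) + 1 := by ring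
    rw [e, paths_step h1, insert_empty_eq, sum_singleton, cf_stay]
    have e2 : i - (j + 1) + 1 = i - j := by omega
    rw [e2]
    have h2 := ih (by omega) L r a (q ++ [true]) t
    have e3 : q ++ [true] ++ (List.replicate j true ++ [false]) =
        q ++ (List.replicate (j + 1) true ++ [false]) := by
      rw [List.append_assoc]
      rfl
    rw [e3] at h2
    exact h2

theorem P_halts (j : ℕ) : j ≤ i → ∀ (L r : List G) (a : G) (q : List Bool) (t : ℕ),
    (mach i).HaltsIn X t (cf i (i + 1) L (a :: r) (q ++ (List.replicate j true ++ [false]))) →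
    (mach i).HaltsIn X (t + (j + 1)) (cf i (i - j) L (a :: r) q) := by
  induction j with
  | zero =>
    intro _ L r a q t h
    have h1 : (mach i).instr (cf i (i - 0) L (a :: r) q) =
        .step (mv (st i (i + 1)) a .stay (some false)) ∅ := by
      rw [instr_cf]; exact prog_Pi a
    rw [halts_step h1]
    intro m hm
    rw [insert_empty_eq, mem_singleton] at hm
    subst hm
    exact h
  | succ j ih =>
    intro hj L r a q t h
    have h1 : (mach i).instr (cf i (i - (j + 1)) L (a :: r) q) =
        .step (mv (st i (i - (j + 1) + 1)) a .stay (some true)) ∅ := by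
      rw [instr_cf]; exact prog_P (by omega) a
    have e : t + (j + 1 + 1) = t + (j + 1) + 1 := by ring
    rw [e, halts_step h1]
    intro m hm
    rw [insert_empty_eq, mem_singleton] at hm
    subst hm
    rw [cf_stay]
    have e2 : i - (j + 1) + 1 = i - j := by omega
    rw [e2]
    refine ih (by omega) L r a (q ++ [true]) t ?_
    have e3 : q ++ [true] ++ (List.replicate j true ++ [false]) =
        q ++ (List.replicate (j + 1) true ++ [false]) := by
      rw [List.append_assoc]
      rfl
    rw [e3]
    exact h

/-! ### the initial step -/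

theorem S_paths (b : Bool) (r : List G) (t : ℕ) :
    (mach i).paths X b (t + 1) (cf i (i + 6) [] r []) =
      (mach i).paths X b t (cf i (i + 5) [] (r.headD 0 :: r.tail) []) +
        (mach i).paths X b t (cf i 0 [] (r.headD 0 :: r.tail) []) := by
  have h1 : (mach i).instr (cf i (i + 6) [] r []) =
      .step (mv (st i (i + 5)) (r.headD 0) .stay none) {mv (st i 0) (r.headD 0) .stay none} := by
    rw [instr_cf]; exact prog_S _
  rw [paths_step h1, sum_pair]
  · rw [cf_stay, cf_stay]
    rfl
  · intro h
    have h2 := congrArg Fin.val (mv_inj h).1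
    rw [st_val (by omega), st_val (by omega)] at h2
    omega

theorem S_halts (r : List G) (t : ℕ)
    (h1 : (mach i).HaltsIn X t (cf i (i + 5) [] (r.headD 0 :: r.tail) []))
    (h2 : (mach i).HaltsIn X t (cf i 0 [] (r.headD 0 :: r.tail) [])) :
    (mach i).HaltsIn X (t + 1) (cf i (i + 6) [] r []) := by
  have h3 : (mach i).instr (cf i (i + 6) [] r []) =
      .step (mv (st i (i + 5)) (r.headD 0) .stay none) {mv (st i 0) (r.headD 0) .stay none} := by
    rw [instr_cf]; exact prog_S _
  rw [halts_step h3]
  intro m hm
  rcases mem_insert.1 hm with h | h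
  · subst h
    exact h1
  · rw [mem_singleton] at h
    subst h
    exact h2

theorem nrm_eq (w : List Bool) : ∃ z : List G, Zs z ∧
    (w.map sym).headD 0 :: (w.map sym).tail = w.map sym ++ z ∧
    (w.map sym ++ z).length ≤ w.length + 1 := by
  cases w with
  | nil =>
    refine ⟨[0], ?_, rfl, by simp⟩
    intro x hx
    simpa using hx
  | cons b w => exact ⟨[], by intro x hx; simp at hx, by simp, by simp⟩

theorem N1_eq (X : Oracle) (k : ℕ) : ∀ q : List Bool, N1 X k q =
    (univ.filter (fun u : Fin k → Bool => X (q ++ List.ofFn u) = true)).card := by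
  induction k with
  | zero =>
    intro q
    rw [card_filter]
    simp [N1]
  | succ k ih =>
    intro q
    rw [card_filter, ← Equiv.sum_comp (Fin.consEquiv (fun _ : Fin (k + 1) => Bool)),
      Fintype.sum_prod_type, Fintype.sum_bool]
    simp only [N1]
    rw [ih, ih, card_filter, card_filter]
    have e : ∀ (b : Bool) (v : Fin k → Bool),
        List.ofFn ((Fin.consEquiv (fun _ : Fin (k + 1) => Bool)) (b, v)) = b :: List.ofFn v := by
      intro b v
      rw [List.ofFn_succ]
      rfl
    simp only [e, List.append_assoc, List.singleton_append]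

theorem time_bound (n i : ℕ) : 3 * n + 3 + (i + 1) + 1 ≤ n ^ (i + 10) + (i + 10) := by
  rcases Nat.lt_or_ge n 2 with h | h
  · have : 0 ≤ n ^ (i + 10) := Nat.zero_le _
    interval_cases n
    · omega
    · rw [one_pow]; omega
  · have h1 : n ^ 3 ≤ n ^ (i + 10) := Nat.pow_le_pow_right (by omega) (by omega)
    have h2 : 4 * n ≤ n ^ 3 := by
      have : n ^ 3 = n * n * n := by ring
      rw [this]
      have h4 : 4 ≤ n * n := by nlinarith
      nlinarith
    omega

end

end Mach

open Mach Finset in
theorem lang_mem (X : Oracle) (i : ℕ) (h : ∀ n, Prom X i n) : Lang X i ∈ BPPpath X := by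
  refine ⟨mach i, i + 10, fun w => ?_⟩
  set n := w.length with hn
  have htb := time_bound n i
  obtain ⟨T, hT, hT'⟩ : ∃ T, n ^ (i + 10) + (i + 10) = T + (i + 1) + 1 ∧ 3 * n + 3 ≤ T :=
    ⟨n ^ (i + 10) + (i + 10) - (i + 1) - 1, by omega, by omega⟩
  have hinit : (mach i).init w = cf i (i + 6) [] (w.map sym) [] := rfl
  obtain ⟨z, hz, hzeq, hzlen⟩ := nrm_eq w
  have hpre : ([] : List Bool) ++ (List.replicate i true ++ [false]) = pre i := rfl
  have hcons : w.map sym ++ z = (w.map sym).headD 0 :: (w.map sym).tail := hzeq.symm
  have e0 : i - i = 0 := Nat.sub_self i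
  have hP : ∀ b, (mach i).paths X b (T + (i + 1)) (cf i 0 [] (w.map sym ++ z) []) =
      (mach i).paths X b T (cf i (i + 1) [] (w.map sym ++ z) (pre i)) := by
    intro b
    have h1 := P_paths (X := X) b i (le_refl i) [] (w.map sym).tail ((w.map sym).headD 0) [] T
    rw [e0, hpre, ← hcons] at h1
    exact h1
  have hacc : (mach i).acc X (n ^ (i + 10) + (i + 10)) w =
      (mach i).paths X true T (cf i (i + 1) [] (w.map sym ++ z) (pre i)) := by
    unfold OTM.acc
    rw [hT, hinit, S_paths, hzeq, R_true, zero_add, hP]
  have hrej : (mach i).rej X (n ^ (i + 10) + (i + 10)) w =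
      (mach i).paths X false (T + (i + 1)) (cf i (i + 5) [] (w.map sym ++ z) []) +
      (mach i).paths X false T (cf i (i + 1) [] (w.map sym ++ z) (pre i)) := by
    unfold OTM.rej
    rw [hT, hinit, S_paths, hzeq, hP]
  refine ⟨?_, ?_⟩
  · rw [hT, hinit]
    refine S_halts _ _ ?_ ?_
    · rw [hzeq]
      exact R_halts _ _ _ _ (by omega)
    · have h1 := P_halts (X := X) i (le_refl i) [] (w.map sym).tail ((w.map sym).headD 0) [] T
      rw [e0, hpre] at h1
      refine h1 ?_
      rw [hzeq]
      refine G_halts w _ _ _ _ hz ?_
      simp only [List.length_nil]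
      omega
  · by_cases hw : true ∈ w
    · have ha : (mach i).acc X (n ^ (i + 10) + (i + 10)) w = 0 := by
        rw [hacc]; exact G_zero w hw _ _ _ _
      have hr : 1 ≤ (mach i).rej X (n ^ (i + 10) + (i + 10)) w := by
        rw [hrej]
        have := R_pos (X := X) (i := i) (w.map sym ++ z) [] [] (T + (i + 1)) (by omega)
        omega
      refine ⟨fun hL => ?_, fun _ => by omega⟩
      obtain ⟨m, hm, _⟩ := hL
      rw [hm] at hw
      exact absurd (List.eq_of_mem_replicate hw) (by decide)
    · have hw' : w = List.replicate n false := by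
        rw [List.eq_replicate_iff]
        refine ⟨rfl, fun b hb => ?_⟩
        cases b with
        | true => exact absurd hb hw
        | false => rfl
      have hmap : w.map sym = List.replicate n 1 := by
        rw [hw', List.map_replicate]
        rfl
      have hG := G_paths (X := X) (i := i) n 0 z (pre i) T hz (by omega)
      have eR : List.replicate 0 (1 : G) = [] := rfl
      rw [eR, ← hmap, zero_add] at hG
      rw [hG.1] at hacc
      rw [hG.2, hmap, R_false n [] z [] (T + (i + 1)) hz (by omega)] at hrej
      have hN : N1 X (2 * n) (pre i) = rc X i n := N1_eq X (2 * n) (pre i)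
      have hadd := N_add X (2 * n) (pre i)
      rw [hN] at hacc hadd
      set R := rc X i n with hR
      set N := N0 X (2 * n) (pre i) with hNN
      set a := 2 ^ n with hadef
      have e4 : (4 : ℕ) ^ n = a * a := by
        rw [hadef, ← pow_add, ← two_mul, pow_mul]
        norm_num
      have e8 : (8 : ℕ) ^ n = a * a * a := by
        rw [← e4, hadef, ← mul_pow]
        norm_num
      have e2 : (2 : ℕ) ^ (2 * n) = a * a := by
        rw [← e4, pow_mul]
        norm_num
      rw [e4] at hacc
      rw [e8] at hrej
      rw [e2] at hadd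
      have ha1 : 1 ≤ a := Nat.one_le_two_pow
      refine ⟨fun hL => ?_, fun hL => ?_⟩
      · obtain ⟨m, hm, hm'⟩ := hL
        have hmn : m = n := by
          rw [hn, hm, List.length_replicate]
        subst hmn
        rw [← hadef, ← hR] at hm'
        rw [hacc, hrej]
        have h4 : 4 ≤ a := by
          by_contra hlt
          have h5 : a ≤ 3 := by omega
          nlinarith
        have h6 : 4 * a * (a * a) ≤ R * (a * a) := Nat.mul_le_mul_right _ hm'
        have h7 : 3 * N ≤ 3 * (a * a) := by omega
        have h8 : 4 * (a * a) ≤ a * a * a := by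
          have := Nat.mul_le_mul_right (a * a) h4
          nlinarith
        have h9 : 1 ≤ a * a := Nat.one_le_iff_ne_zero.2 (by positivity)
        nlinarith
      · have hlow : 4 * R ≤ a := by
          rcases h n with h1 | h1
          · exact h1
          · exact absurd ⟨n, hw', h1⟩ hL
        rw [hacc, hrej]
        have h6 : 4 * R * (a * a) ≤ a * (a * a) := Nat.mul_le_mul_right _ hlow
        have h9 : 1 ≤ a * a * a := Nat.one_le_iff_ne_zero.2 (by positivity)
        nlinarith

end Pool.Agent.BPP
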