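import Pool.Agent.Helper90.BPP.Defs
import Pool.Agent.Helper90.BPP.CoreDefs

namespace Pool.Agent.BPP

open Finset

/-- A conjunction of literals about the oracle. -/
abbrev Term := Finset (List Bool) × Finset (List Bool)

/-- The oracle satisfies the conjunction. -/
def Term.sat (X : Oracle) (T : Term) : Bool :=
  decide ((∀ q ∈ T.1, X q = true) ∧ ∀ q ∈ T.2, X q = false)

/-- Number of conjunctions of the list satisfied by the oracle. -/
def cntT (X : Oracle) (l : List Term) : ℕ := l.countP (fun T => T.sat X)

/-- Two oracles agree on all strings of length less than `l`. -/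
def Agree (l : ℕ) (X Y : Oracle) : Prop := ∀ q : List Bool, q.length < l → X q = Y q

/-- The time bound `n ^ c + c`. -/
def tb (c n : ℕ) : ℕ := n ^ c + c

/-- The string that codes the region number `i`. -/
def pre (i : ℕ) : List Bool := List.replicate i true ++ [false]

/-- The cells of the region `(i, n)`: `pre i` followed by a string of length `2 n`. -/
def cell (i n : ℕ) (u : Fin (2 * n) → Bool) : List Bool := pre i ++ List.ofFn u

/-- Number of cells of the region `(i, n)` in the oracle. -/
def rc (X : Oracle) (i n : ℕ) : ℕ :=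
  (univ.filter (fun u : Fin (2 * n) → Bool => X (cell i n u) = true)).card

/-- The test language. -/
def Lang (X : Oracle) (i : ℕ) : Set (List Bool) :=
  {w | ∃ n, w = List.replicate n false ∧ 4 * 2 ^ n ≤ rc X i n}

/-- The promise for the region `(i, n)`. -/
def Prom (X : Oracle) (i n : ℕ) : Prop := 4 * rc X i n ≤ 2 ^ n ∨ 4 * 2 ^ n ≤ rc X i n

/-- `M` (with exponent `c`) behaves as a BPP_path machine on input `w`. -/
def Fine (M : OTM) (c : ℕ) (X : Oracle) (w : List Bool) : Prop :=
  M.HaltsIn X (tb c w.length) (M.init w) ∧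
    (3 * M.rej X (tb c w.length) w < M.acc X (tb c w.length) w ∨
     3 * M.acc X (tb c w.length) w < M.rej X (tb c w.length) w)

/-- The output of `D` on `0 ^ n`, clocked. -/
def outp (D : OTM) (d : ℕ) (X : Oracle) (n : ℕ) : List Bool :=
  (D.run X (tb d n) (D.init (List.replicate n false))).out

/-- Add to the oracle the images under `e` of the elements of `x`. -/
def overlay {α : Type} (X : Oracle) (e : α → List Bool) (x : Finset α) : Oracle :=
  fun q => X q || decide (∃ a ∈ x, e a = q)

/-- `(M, c)` is permanently broken. -/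
def Broken (X : Oracle) (l : ℕ) (p : OTM × ℕ) : Prop :=
  ∃ w : List Bool, tb p.2 w.length < l ∧ ¬ Fine p.1 p.2 X w

/-- The reduction `(D, d)` is permanently wrong for `(M, c)`. -/
def Wrong (code : OTM × ℕ → ℕ) (X : Oracle) (l : ℕ) (p r : OTM × ℕ) : Prop :=
  ∃ n : ℕ, tb r.2 n < l ∧ tb p.2 (outp r.1 r.2 X n).length < l ∧ code p + 1 + 2 * n < l ∧
    ¬ (3 * p.1.rej X (tb p.2 (outp r.1 r.2 X n).length) (outp r.1 r.2 X n) <
        p.1.acc X (tb p.2 (outp r.1 r.2 X n).length) (outp r.1 r.2 X n) ↔
      4 * 2 ^ n ≤ rc X (code p) n)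

/-- The invariant of the construction. -/
def Inv (code : OTM × ℕ → ℕ) (X : Oracle) (l : ℕ) : Prop :=
  (∀ q : List Bool, l ≤ q.length → X q = false) ∧
    ∀ p, Broken X l p ∨ ∀ n, Prom X (code p) n

end Pool.Agent.BPP
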