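import Pool.Agent.Helper90.BPP.Stage
import Pool.Agent.Helper90.BPP.Mach
import Pool.Agent.Helper90.BPP.Cntb

namespace Pool.Agent.BPP

open Finset

/-! ### Module MAIN -/

theorem rc_agree {X Y : Oracle} {l i n : ℕ} (h : Agree l X Y) (hl : i + 1 + 2 * n < l) :
    rc X i n = rc Y i n := by
  unfold rc
  congr 1
  ext u
  simp only [mem_filter, mem_univ, true_and]
  rw [h _ (by rw [cell_length]; exact hl)]

theorem acc_agree {M : OTM} {c : ℕ} {X Y : Oracle} {l : ℕ} (h : Agree l X Y)
    {w : List Bool} (hw : tb c w.length < l) :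
    M.acc X (tb c w.length) w = M.acc Y (tb c w.length) w := by
  unfold OTM.acc
  exact paths_agree M h _ _ _ (by simp [OTM.init]; omega)

theorem rej_agree {M : OTM} {c : ℕ} {X Y : Oracle} {l : ℕ} (h : Agree l X Y)
    {w : List Bool} (hw : tb c w.length < l) :
    M.rej X (tb c w.length) w = M.rej Y (tb c w.length) w := by
  unfold OTM.rej
  exact paths_agree M h _ _ _ (by simp [OTM.init]; omega)

theorem main : ∃ A : Oracle, ∀ C ∈ BPPpath A, ∃ L ∈ BPPpath A, ¬ ManyOne A L C := by
  classical
  have : Countable OTM := otm_countable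
  obtain ⟨code, hcode⟩ := exists_injective_nat (OTM × ℕ)
  let M0 : OTM := ⟨0, 0, 0, fun _ _ => .halt false⟩
  have : Nonempty ((OTM × ℕ) × (OTM × ℕ)) := ⟨((M0, 0), (M0, 0))⟩
  obtain ⟨en, hen⟩ := exists_surjective_nat ((OTM × ℕ) × (OTM × ℕ))
  -- the states of the construction
  let St := {s : Oracle × ℕ // Inv code s.1 s.2}
  have hstep : ∀ (k : ℕ) (s : St), ∃ s' : St, s.1.2 < s'.1.2 ∧ Agree s.1.2 s.1.1 s'.1.1 ∧
      (Broken s'.1.1 s'.1.2 (en k).1 ∨ Wrong code s'.1.1 s'.1.2 (en k).1 (en k).2) := by
    rintro k ⟨⟨X, l⟩, hI⟩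
    obtain ⟨Y, l', h1, h2, h3, h4⟩ := stage code hcode X l hI (en k).1 (en k).2
    exact ⟨⟨⟨Y, l'⟩, h2⟩, h1, h3, h4⟩
  choose nx hnx using hstep
  have hI0 : Inv code (fun _ => false) 0 := by
    refine ⟨fun _ _ => rfl, fun p => Or.inr fun n => Or.inl ?_⟩
    have : rc (fun _ => false) (code p) n = 0 := by simp [rc]
    rw [this]
    positivity
  let s0 : St := ⟨⟨fun _ => false, 0⟩, hI0⟩
  let st : ℕ → St := fun k => Nat.rec s0 (fun k s => nx k s) k
  have hst : ∀ k, st (k + 1) = nx k (st k) := fun k => rfl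
  let X : ℕ → Oracle := fun k => (st k).1.1
  let l : ℕ → ℕ := fun k => (st k).1.2
  have hIk : ∀ k, Inv code (X k) (l k) := fun k => (st k).2
  have hl1 : ∀ k, l k < l (k + 1) := fun k => (hnx k (st k)).1
  have hX1 : ∀ k, Agree (l k) (X k) (X (k + 1)) := fun k => (hnx k (st k)).2.1
  have hB1 : ∀ k, Broken (X (k + 1)) (l (k + 1)) (en k).1 ∨
      Wrong code (X (k + 1)) (l (k + 1)) (en k).1 (en k).2 := fun k => (hnx k (st k)).2.2
  have hlge : ∀ k, k ≤ l k := by
    intro k
    induction k with
    | zero => exact Nat.zero_le _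
    | succ k ih => have := hl1 k; omega
  have hlm : ∀ k d, l k ≤ l (k + d) := by
    intro k d
    induction d with
    | zero => exact le_rfl
    | succ d ih => have := hl1 (k + d); rw [← add_assoc]; omega
  have hXm : ∀ k d, Agree (l k) (X k) (X (k + d)) := by
    intro k d
    induction d with
    | zero => exact fun _ _ => rfl
    | succ d ih =>
      intro q hq
      rw [ih q hq, ← add_assoc]
      exact hX1 (k + d) q (lt_of_lt_of_le hq (hlm k d))
  -- the limit oracle
  let A : Oracle := fun q => X (q.length + 1) q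
  have hA : ∀ k, Agree (l k) (X k) A := by
    intro k q hq
    show X k q = X (q.length + 1) q
    rcases le_total k (q.length + 1) with h | h
    · obtain ⟨d, hd⟩ := Nat.exists_eq_add_of_le h
      rw [hd]
      exact hXm k d q hq
    · obtain ⟨d, hd⟩ := Nat.exists_eq_add_of_le h
      rw [hd]
      exact (hXm (q.length + 1) d q
        (lt_of_lt_of_le (Nat.lt_succ_self _) (hlge (q.length + 1)))).symm
  refine ⟨A, ?_⟩
  rintro C ⟨M, c, hM⟩
  have hfine : ∀ w, Fine M c A w := by
    intro w
    obtain ⟨h1, h2, h3⟩ := hM w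
    refine ⟨h1, ?_⟩
    by_cases hw : w ∈ C
    · left
      have := h2 hw
      show 3 * M.rej A (w.length ^ c + c) w < M.acc A (w.length ^ c + c) w
      omega
    · right
      have := h3 hw
      show 3 * M.acc A (w.length ^ c + c) w < M.rej A (w.length ^ c + c) w
      omega
  have hnb : ∀ k, ¬ Broken (X k) (l k) (M, c) := by
    rintro k ⟨w, hw, hf⟩
    exact hf ((fine_agree (hA k) hw).2 (hfine w))
  have hprom : ∀ n, Prom A (code (M, c)) n := by
    intro n
    have hP : Prom (X (code (M, c) + 1 + 2 * n + 1)) (code (M, c)) n :=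
      ((hIk (code (M, c) + 1 + 2 * n + 1)).2 (M, c)).resolve_left
        (hnb (code (M, c) + 1 + 2 * n + 1)) n
    unfold Prom at hP ⊢
    rwa [rc_agree (hA (code (M, c) + 1 + 2 * n + 1))
      (lt_of_lt_of_le (Nat.lt_succ_self _) (hlge _))] at hP
  refine ⟨Lang A (code (M, c)), lang_mem A _ hprom, ?_⟩
  rintro ⟨f, ⟨D, d, hdet, hD⟩, hf⟩
  obtain ⟨k, hk⟩ := hen ((M, c), (D, d))
  have hBk := hB1 k
  rw [hk] at hBk
  rcases hBk with hBk | hBk
  · exact hnb (k + 1) hBk
  obtain ⟨n, hn1, hn2, hn3, hn4⟩ := hBk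
  have hag := hA (k + 1)
  apply hn4
  simp only at hn1 hn2 hn3 hn4 ⊢
  rw [acc_agree hag hn2, rej_agree hag hn2, rc_agree hag hn3, outp_agree hag hn1]
  have hout : outp D d A n = f (List.replicate n false) := by
    have := (hD (List.replicate n false)).2
    rw [List.length_replicate] at this
    exact this
  rw [hout]
  have hmemL : List.replicate n false ∈ Lang A (code (M, c)) ↔
      4 * 2 ^ n ≤ rc A (code (M, c)) n := by
    constructor
    · rintro ⟨n', h1, h2⟩
      have : n = n' := by
        have := congrArg List.length h1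
        simpa using this
      rwa [← this] at h2
    · intro h
      exact ⟨n, rfl, h⟩
  rw [← hmemL, hf]
  obtain ⟨_, h2, h3⟩ := hM (f (List.replicate n false))
  constructor
  · intro h
    by_contra hw
    have := h3 hw
    have h' : 3 * M.rej A ((f (List.replicate n false)).length ^ c + c)
        (f (List.replicate n false)) < M.acc A
        ((f (List.replicate n false)).length ^ c + c) (f (List.replicate n false)) := h
    omega
  · intro hw
    have := h2 hw
    show 3 * M.rej A ((f (List.replicate n false)).length ^ c + c)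
        (f (List.replicate n false)) < M.acc A
        ((f (List.replicate n false)).length ^ c + c) (f (List.replicate n false))
    omega

end Pool.Agent.BPP
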