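import Pool.Agent.Helper90.BPP.App
import Pool.Agent.Helper90.BPP.Grow

namespace Pool.Agent.BPP

open Finset

/-! ### Module STAGE -/

theorem cell_length (i n : ℕ) (u : Fin (2 * n) → Bool) :
    (cell i n u).length = i + 1 + 2 * n := by
  simp [cell, pre]
  omega

theorem cell_eq {i j n m : ℕ} {u : Fin (2 * n) → Bool} {v : Fin (2 * m) → Bool}
    (h : cell i n u = cell j m v) : i = j ∧ n = m := by
  have hi : i = j := by
    have key : ∀ (a b : ℕ) (s t : List Bool),
        List.replicate a true ++ (false :: s) = List.replicate b true ++ (false :: t) →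
        a = b := by
      intro a
      induction a with
      | zero =>
        intro b s t h
        cases b with
        | zero => rfl
        | succ b => simp [List.replicate_succ] at h
      | succ a ih =>
        intro b s t h
        cases b with
        | zero => simp [List.replicate_succ] at h
        | succ b =>
          simp only [List.replicate_succ, List.cons_append, List.cons.injEq, true_and] at h
          rw [ih b s t h]
    refine key i j (List.ofFn u) (List.ofFn v) ?_
    simpa [cell, pre, List.append_assoc] using h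
  have hl := congrArg List.length h
  rw [cell_length, cell_length] at hl
  exact ⟨hi, by omega⟩

theorem overlay_cell {X : Oracle} {i n : ℕ} (hX : ∀ u, X (cell i n u) = false)
    (x : Finset (Fin (2 * n) → Bool)) : rc (overlay X (cell i n) x) i n = x.card := by
  unfold rc
  congr 1
  ext u
  simp only [mem_filter, mem_univ, true_and, overlay, hX, Bool.false_or,
    decide_eq_true_eq]
  constructor
  · rintro ⟨a, ha, h⟩
    rwa [← cell_injective i n h]
  · intro h
    exact ⟨u, h, rfl⟩

theorem overlay_other {X : Oracle} {i n j m : ℕ} (x : Finset (Fin (2 * n) → Bool))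
    (h : ¬ (i = j ∧ n = m)) : rc (overlay X (cell i n) x) j m = rc X j m := by
  unfold rc
  congr 1
  ext u
  simp only [mem_filter, mem_univ, true_and, overlay]
  have : ¬ ∃ a ∈ x, cell i n a = cell j m u := by
    rintro ⟨a, _, ha⟩
    exact h (cell_eq ha)
  simp [this]

theorem overlay_agree {X : Oracle} {i n : ℕ} (x : Finset (Fin (2 * n) → Bool)) {l : ℕ}
    (hl : l ≤ i + 1 + 2 * n) : Agree l X (overlay X (cell i n) x) := by
  intro q hq
  have : ¬ ∃ a ∈ x, cell i n a = q := by
    rintro ⟨a, _, rfl⟩
    rw [cell_length] at hq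
    omega
  simp [overlay, this]

theorem fine_agree {M : OTM} {c : ℕ} {X Y : Oracle} {l : ℕ} (h : Agree l X Y)
    {w : List Bool} (hw : tb c w.length < l) : Fine M c X w ↔ Fine M c Y w := by
  have hq : (M.init w).qry.length + tb c w.length ≤ l := by
    simp [OTM.init]; omega
  unfold Fine OTM.acc OTM.rej
  rw [halts_agree M h _ _ hq, paths_agree M h true _ _ hq, paths_agree M h false _ _ hq]

theorem outp_agree {D : OTM} {d : ℕ} {X Y : Oracle} {l n : ℕ} (h : Agree l X Y)
    (hn : tb d n < l) : outp D d X n = outp D d Y n := by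
  unfold outp
  rw [run_agree D h]
  simp [OTM.init]; omega

theorem broken_mono {X Y : Oracle} {l l' : ℕ} (h : Agree l X Y) (hl : l ≤ l')
    {p : OTM × ℕ} (hb : Broken X l p) : Broken Y l' p := by
  obtain ⟨w, hw, hf⟩ := hb
  exact ⟨w, by omega, fun hf' => hf ((fine_agree h hw).2 hf')⟩

theorem stage (code : OTM × ℕ → ℕ) (hcode : Function.Injective code) (X : Oracle) (l : ℕ)
    (hI : Inv code X l) (p r : OTM × ℕ) :
    ∃ (Y : Oracle) (l' : ℕ), l < l' ∧ Inv code Y l' ∧ Agree l X Y ∧
      (Broken Y l' p ∨ Wrong code Y l' p r) := by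
  classical
  by_cases hbr : Broken X l p
  · refine ⟨X, l + 1, by omega, ⟨fun q hq => hI.1 q (by omega), fun p' => ?_⟩,
      fun q _ => rfl, Or.inl (broken_mono (fun q _ => rfl) (by omega) hbr)⟩
    rcases hI.2 p' with h | h
    · exact Or.inl (broken_mono (fun q _ => rfl) (by omega) h)
    · exact Or.inr h
  have hprom : ∀ n, Prom X (code p) n := (hI.2 p).resolve_left hbr
  obtain ⟨B, hB⟩ := exists_branch p.1
  obtain ⟨n, κ, hn0, hκ1, hκ, hn⟩ := grow B p.2 r.2 l
  set i := code p with hi
  have hXcell : ∀ u, X (cell i n u) = false := fun u => hI.1 _ (by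
    rw [cell_length]; omega)
  -- the new length bound
  let l' : ℕ := l + (i + 1 + 2 * n) + tb r.2 n + tb p.2 (tb r.2 n) + 1
  have hll' : l < l' := by omega
  have hagree : ∀ x, Agree l X (overlay X (cell i n) x) := fun x =>
    overlay_agree x (by omega)
  have hfalse : ∀ x, ∀ q : List Bool, l' ≤ q.length → overlay X (cell i n) x q = false := by
    intro x q hq
    have h1 : X q = false := hI.1 q (by omega)
    have h2 : ¬ ∃ a ∈ x, cell i n a = q := by
      rintro ⟨a, _, rfl⟩
      rw [cell_length] at hq
      omega
    simp [overlay, h1, h2]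
  have hother : ∀ x, ∀ p', p' ≠ p → (Broken (overlay X (cell i n) x) l' p' ∨
      ∀ m, Prom (overlay X (cell i n) x) (code p') m) := by
    intro x p' hp'
    rcases hI.2 p' with h | h
    · exact Or.inl (broken_mono (hagree x) (by omega) h)
    · refine Or.inr fun m => ?_
      have : ¬ (i = code p' ∧ n = m) := by
        rintro ⟨h1, _⟩
        exact hp' (hcode (by rw [← h1]))
      unfold Prom
      rw [overlay_other x this]
      exact h m
  have houtlt : ∀ x, tb p.2 (outp r.1 r.2 (overlay X (cell i n) x) n).length < l' := by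
    intro x
    have := tb_mono p.2 (outp_length r.1 r.2 (overlay X (cell i n) x) n)
    omega
  by_cases hfine : ∀ x : Finset (Fin (2 * n) → Bool),
      Fine p.1 p.2 (overlay X (cell i n) x) (outp r.1 r.2 (overlay X (cell i n) x) n)
  · obtain ⟨x, hx⟩ := app p.1 r.1 p.2 r.2 hB i n κ hκ1 hκ hn X hXcell hfine
    have hx' := hx _ _ rfl rfl
    refine ⟨overlay X (cell i n) x, l', hll', ⟨hfalse x, fun p' => ?_⟩, hagree x,
      Or.inr ?_⟩
    · by_cases hp' : p' = p
      · subst hp'
        refine Or.inr fun m => ?_
        by_cases hm : n = m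
        · subst hm
          unfold Prom
          rw [overlay_cell hXcell]
          rcases hx' with h | h
          · exact Or.inl h.1
          · exact Or.inr h.1
        · unfold Prom
          rw [overlay_other x (by tauto)]
          exact hprom m
      · exact hother x p' hp'
    · refine ⟨n, by omega, houtlt x, by omega, ?_⟩
      rw [← hi, overlay_cell hXcell]
      have hpos : 0 < 2 ^ n := by positivity
      rcases hx' with ⟨h1, h2⟩ | ⟨h1, h2⟩
      · intro hiff
        have := hiff.1 h2
        omega
      · intro hiff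
        exact h2 (hiff.2 h1)
  · push Not at hfine
    obtain ⟨x, hx⟩ := hfine
    refine ⟨overlay X (cell i n) x, l', hll', ⟨hfalse x, fun p' => ?_⟩, hagree x,
      Or.inl ⟨_, houtlt x, hx⟩⟩
    by_cases hp' : p' = p
    · subst hp'
      exact Or.inl ⟨_, houtlt x, hx⟩
    · exact hother x p' hp'

end Pool.Agent.BPP
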